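import Mathlib

set_option autoImplicit false

namespace Pool.Agent.Helper28.Tame

universe u

variable {G : Type u} [Group G]

lemma finiteIndex_zpowers_sup (H : Subgroup G) [H.Normal] [hcyc : IsCyclic (G ⧸ H)] (y : G)
    (hy : ∀ n : ℕ, 0 < n → y ^ n ∉ H) : (Subgroup.zpowers y ⊔ H).FiniteIndex := by
  classical
  obtain ⟨t', ht'⟩ := hcyc.exists_zpow_surjective
  obtain ⟨t, rfl⟩ := QuotientGroup.mk_surjective t'
  obtain ⟨m, hm⟩ := ht' (QuotientGroup.mk y)
  have hm' : (QuotientGroup.mk (t ^ m) : G ⧸ H) = QuotientGroup.mk y := by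
    simpa using hm
  have hm0 : m ≠ 0 := by
    rintro rfl
    refine hy 1 one_pos ?_
    rw [pow_one]
    have h1 : (QuotientGroup.mk (1 : G) : G ⧸ H) = QuotientGroup.mk y := by simpa using hm'
    have := QuotientGroup.eq.mp h1
    simpa using this
  set N := Subgroup.zpowers y ⊔ H with hN
  have hHN : H ≤ N := le_sup_right
  have hyN : y ∈ N := (le_sup_left : Subgroup.zpowers y ≤ N) (Subgroup.mem_zpowers y)
  have htm : t ^ m ∈ N := by
    have h1 := QuotientGroup.eq.mp hm'
    have h2 : (t ^ m)⁻¹ * y ∈ N := hHN h1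
    have h3 : t ^ m = y * ((t ^ m)⁻¹ * y)⁻¹ := by group
    rw [h3]
    exact mul_mem hyN (inv_mem h2)
  have hsurj : Function.Surjective (fun r : Fin m.natAbs => (QuotientGroup.mk (t ^ (r : ℕ)) : G ⧸ N)) := by
    intro q
    obtain ⟨g, rfl⟩ := QuotientGroup.mk_surjective q
    obtain ⟨a, ha⟩ := ht' (QuotientGroup.mk g)
    have ha' : (QuotientGroup.mk (t ^ a) : G ⧸ H) = QuotientGroup.mk g := by simpa using ha
    have h1 := QuotientGroup.eq.mp ha'
    have hr0 : 0 ≤ a % m := Int.emod_nonneg _ hm0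
    have hr1 : (a % m).toNat < m.natAbs := by
      have := Int.emod_lt_abs a hm0
      rw [Int.abs_eq_natAbs] at this
      omega
    refine ⟨⟨(a % m).toNat, hr1⟩, ?_⟩
    refine QuotientGroup.eq.mpr ?_
    show (t ^ (a % m).toNat)⁻¹ * g ∈ N
    have h2 : t ^ (a % m).toNat = t ^ (a % m) := by
      rw [← zpow_natCast, Int.toNat_of_nonneg hr0]
    rw [h2]
    have h3 : (t ^ (a % m))⁻¹ * g = (t ^ m) ^ (a / m) * ((t ^ a)⁻¹ * g) := by
      rw [← zpow_mul, ← mul_assoc]
      congr 1
      rw [← zpow_neg, ← zpow_neg, ← zpow_add]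
      congr 1
      have := Int.emod_add_mul_ediv a m
      linarith
    rw [h3]
    exact mul_mem (zpow_mem htm _) (hHN h1)
  have : Finite (G ⧸ N) := Finite.of_surjective _ hsurj
  exact Subgroup.finiteIndex_of_finite_quotient

lemma fg_subgroupOf_of_central (H : Subgroup G) [H.Normal] (y : G)
    (hyc : y ∈ Subgroup.center G) (hy : ∀ n : ℕ, 0 < n → y ^ n ∉ H) (S : Subgroup G) (hS : S.FG)
    (hyS : y ∈ S) (hfin : (Subgroup.zpowers y ⊔ H).FiniteIndex) : (S.subgroupOf H).FG := by
  classical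
  have : Group.FG S := (Group.fg_iff_subgroup_fg S).mpr hS
  set T : Subgroup S := (Subgroup.zpowers y ⊔ H).subgroupOf S with hT
  have hTfg : T.FG := (Group.fg_iff_subgroup_fg T).mp inferInstance
  obtain ⟨F, hF⟩ := hTfg
  have hcomm : ∀ g : G, g * y = y * g := fun g => Subgroup.mem_center_iff.mp hyc g
  have hcomm' : ∀ (g : G) (m : ℤ), g * y ^ m = y ^ m * g := fun g m =>
    ((show Commute g y from hcomm g).zpow_right m)
  have hdec : ∀ x : S, ∃ (h : H) (m : ℤ), x ∈ T → (x : G) = h * y ^ m := by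
    intro x
    by_cases hx : x ∈ T
    · have h1 : (x : G) ∈ (↑(Subgroup.zpowers y ⊔ H) : Set G) := hx
      rw [Subgroup.mul_normal] at h1
      obtain ⟨a, ⟨m, rfl⟩, b, hb, hab⟩ := h1
      refine ⟨⟨b, hb⟩, m, fun _ => ?_⟩
      rw [← hab]
      exact (hcomm' b m).symm
    · exact ⟨1, 0, fun h => absurd h hx⟩
  choose hh mm hdec using hdec
  have hEq : S.subgroupOf H = Subgroup.closure (hh '' (F : Set S)) := by
    apply le_antisymm
    · intro h₀ hh₀
      have hh₀S : (h₀ : G) ∈ S := hh₀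
      have hmem : (⟨(h₀ : G), hh₀S⟩ : S) ∈ T := by
        show (h₀ : G) ∈ Subgroup.zpowers y ⊔ H
        exact (le_sup_right : H ≤ Subgroup.zpowers y ⊔ H) h₀.2
      rw [← hF] at hmem
      have key : ∀ x : S, x ∈ Subgroup.closure (F : Set S) →
          ∃ h ∈ Subgroup.closure (hh '' (F : Set S)), ∃ m : ℤ, (x : G) = (h : H) * y ^ m := by
        intro x hx
        induction hx using Subgroup.closure_induction with
        | mem x hx =>
          refine ⟨hh x, Subgroup.subset_closure ⟨x, hx, rfl⟩, mm x, hdec x ?_⟩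
          rw [← hF]; exact Subgroup.subset_closure hx
        | one => exact ⟨1, one_mem _, 0, by simp⟩
        | mul a b _ _ iha ihb =>
          obtain ⟨h1, h1m, m1, e1⟩ := iha
          obtain ⟨h2, h2m, m2, e2⟩ := ihb
          refine ⟨h1 * h2, mul_mem h1m h2m, m1 + m2, ?_⟩
          rw [Subgroup.coe_mul, e1, e2, Subgroup.coe_mul, zpow_add, mul_assoc, mul_assoc,
            ← mul_assoc (y ^ m1), ← hcomm', mul_assoc]
        | inv a _ iha =>
          obtain ⟨h1, h1m, m1, e1⟩ := iha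
          refine ⟨h1⁻¹, inv_mem h1m, -m1, ?_⟩
          rw [Subgroup.coe_inv, e1, mul_inv_rev, Subgroup.coe_inv, zpow_neg, ← zpow_neg, hcomm']
      obtain ⟨h, hm, m, e⟩ := key _ hmem
      have e' : (h₀ : G) = h * y ^ m := e
      have hym : y ^ m ∈ H := by
        have : y ^ m = (h : G)⁻¹ * h₀ := by rw [e']; group
        rw [this]
        exact mul_mem (inv_mem h.2) h₀.2
      have hm0 : m = 0 := by
        by_contra hne
        rcases lt_or_gt_of_ne hne with h3 | h3
        · refine hy (-m).toNat (by omega) ?_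
          rw [← zpow_natCast, Int.toNat_of_nonneg (by omega), zpow_neg]
          exact inv_mem hym
        · refine hy m.toNat (by omega) ?_
          rw [← zpow_natCast, Int.toNat_of_nonneg (by omega)]
          exact hym
      rw [hm0, zpow_zero, mul_one] at e'
      have : h₀ = h := Subtype.ext e'
      rw [this]; exact hm
    · rw [Subgroup.closure_le]
      rintro _ ⟨x, hx, rfl⟩
      show ((hh x : H) : G) ∈ S
      have hxT : x ∈ T := by rw [← hF]; exact Subgroup.subset_closure hx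
      have h1 := hdec x hxT
      have h2 : ((hh x : H) : G) = x * (y ^ mm x)⁻¹ := by rw [h1]; group
      rw [h2]
      exact mul_mem x.2 (inv_mem (zpow_mem hyS _))
  rw [hEq]
  exact ⟨F.image hh, by simp⟩

lemma fg_comap_conj (S : Subgroup G) (hS : S.FG) (g : G) :
    (S.comap (MulAut.conj g).toMonoidHom).FG := by
  have h1 : S.comap (MulAut.conj g).toMonoidHom = S.map (MulAut.conj g⁻¹).toMonoidHom := by
    ext x
    constructor
    · intro hx
      refine ⟨g * x * g⁻¹, hx, ?_⟩
      show g⁻¹ * (g * x * g⁻¹) * g⁻¹⁻¹ = x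
      group
    · rintro ⟨y, hy, rfl⟩
      show g * (g⁻¹ * y * g⁻¹⁻¹) * g⁻¹ ∈ S
      have : g * (g⁻¹ * y * g⁻¹⁻¹) * g⁻¹ = y := by group
      rw [this]; exact hy
  rw [h1]
  obtain ⟨F, rfl⟩ := hS
  classical
  refine ⟨F.image (MulAut.conj g⁻¹).toMonoidHom, ?_⟩
  rw [Finset.coe_image, MonoidHom.map_closure]

end Pool.Agent.Helper28.Tame
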