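import Pool.Agent.Helper28.Tame.Defs

set_option autoImplicit false

namespace Pool.Agent.Helper28.Tame

universe u

namespace TwoComplex

variable {Y : TwoComplex.{u}} {U U' : Set Y.V}

@[simp] lemma flip_flip (a : Y.E × Bool) : Y.flip (Y.flip a) = a := by
  simp [flip]

@[simp] lemma src_flip (a : Y.E × Bool) : Y.src (Y.flip a) = Y.tgt a := by
  rcases a with ⟨e, _ | _⟩ <;> simp [flip, src, tgt]

@[simp] lemma tgt_flip (a : Y.E × Bool) : Y.tgt (Y.flip a) = Y.src a := by
  rcases a with ⟨e, _ | _⟩ <;> simp [flip, src, tgt]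

lemma isPath_nil {u v : Y.V} : Y.IsPath U [] u v ↔ u = v ∧ u ∈ U := Iff.rfl

lemma isPath_cons {a : Y.E × Bool} {l : List (Y.E × Bool)} {u v : Y.V} :
    Y.IsPath U (a :: l) u v ↔ Y.src a = u ∧ u ∈ U ∧ Y.IsPath U l (Y.tgt a) v := Iff.rfl

lemma IsPath.start_mem {l : List (Y.E × Bool)} {u v : Y.V} (h : Y.IsPath U l u v) : u ∈ U := by
  cases l with
  | nil => exact h.2
  | cons a l => exact h.2.1

lemma IsPath.end_mem {l : List (Y.E × Bool)} {u v : Y.V} (h : Y.IsPath U l u v) : v ∈ U := by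
  induction l generalizing u with
  | nil => exact h.1 ▸ h.2
  | cons a l ih => exact ih h.2.2

lemma IsPath.mono (hU : U ⊆ U') {l : List (Y.E × Bool)} {u v : Y.V} (h : Y.IsPath U l u v) :
    Y.IsPath U' l u v := by
  induction l generalizing u with
  | nil => exact ⟨h.1, hU h.2⟩
  | cons a l ih => exact ⟨h.1, hU h.2.1, ih h.2.2⟩

lemma IsPath.append {l l' : List (Y.E × Bool)} {u v w : Y.V} (h : Y.IsPath U l u v)
    (h' : Y.IsPath U l' v w) : Y.IsPath U (l ++ l') u w := by
  induction l generalizing u with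
  | nil => obtain ⟨rfl, _⟩ := h; exact h'
  | cons a l ih => exact ⟨h.1, h.2.1, ih h.2.2⟩

lemma isPath_append {l l' : List (Y.E × Bool)} {u w : Y.V} :
    Y.IsPath U (l ++ l') u w ↔ ∃ v, Y.IsPath U l u v ∧ Y.IsPath U l' v w := by
  constructor
  · intro h
    induction l generalizing u with
    | nil => exact ⟨u, ⟨rfl, h.start_mem⟩, h⟩
    | cons a l ih =>
      obtain ⟨v, h1, h2⟩ := ih h.2.2
      exact ⟨v, ⟨h.1, h.2.1, h1⟩, h2⟩
  · rintro ⟨v, h1, h2⟩
    exact h1.append h2

/-- The endpoint of a path in a set is determined by the list and the start. -/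
lemma IsPath.end_unique {l : List (Y.E × Bool)} {u v v' : Y.V} (h : Y.IsPath U l u v)
    (h' : Y.IsPath U' l u v') : v = v' := by
  induction l generalizing u with
  | nil => exact h.1.symm.trans h'.1
  | cons a l ih => exact ih h.2.2 h'.2.2

lemma isPath_single {a : Y.E × Bool} {u v : Y.V} :
    Y.IsPath U [a] u v ↔ Y.src a = u ∧ Y.tgt a = v ∧ u ∈ U ∧ v ∈ U := by
  rw [isPath_cons, isPath_nil]
  constructor
  · rintro ⟨h1, h2, h3, h4⟩
    exact ⟨h1, h3, h2, h3 ▸ h4⟩
  · rintro ⟨h1, h2, h3, h4⟩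
    exact ⟨h1, h3, h2, h2 ▸ h4⟩

@[simp] lemma rev_nil : rev ([] : List (Y.E × Bool)) = [] := rfl

@[simp] lemma rev_cons (a : Y.E × Bool) (l : List (Y.E × Bool)) :
    rev (a :: l) = rev l ++ [Y.flip a] := by simp [rev]

@[simp] lemma rev_append (l l' : List (Y.E × Bool)) : rev (l ++ l') = rev l' ++ rev l := by
  simp [rev]

@[simp] lemma rev_rev (l : List (Y.E × Bool)) : rev (rev l) = l := by
  induction l with
  | nil => rfl
  | cons a l ih => simp [ih]

lemma IsPath.rev {l : List (Y.E × Bool)} {u v : Y.V} (h : Y.IsPath U l u v) :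
    Y.IsPath U (rev l) v u := by
  induction l generalizing u with
  | nil => exact ⟨h.1.symm, h.1 ▸ h.2⟩
  | cons a l ih =>
    rw [rev_cons]
    refine (ih h.2.2).append ?_
    rw [isPath_single]
    refine ⟨by simp, ?_, ?_, h.2.1⟩
    · simpa using h.1
    · exact h.2.2.start_mem

/-- Homotopy of edge paths from `u` to `v` in the full subcomplex spanned by `U`. -/
inductive Htpy (U : Set Y.V) : Y.V → Y.V → List (Y.E × Bool) → List (Y.E × Bool) → Prop
  | refl {u v : Y.V} {l : List (Y.E × Bool)} : Y.IsPath U l u v → Htpy U u v l l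
  | symm {u v : Y.V} {l l' : List (Y.E × Bool)} : Htpy U u v l l' → Htpy U u v l' l
  | trans {u v : Y.V} {l l' l'' : List (Y.E × Bool)} :
      Htpy U u v l l' → Htpy U u v l' l'' → Htpy U u v l l''
  | step {u v : Y.V} {l l' : List (Y.E × Bool)} : Y.IsPath U l u v → Y.IsPath U l' u v →
      Y.Step l l' → Htpy U u v l l'

lemma Htpy.isPath {u v : Y.V} {l l' : List (Y.E × Bool)} (h : Htpy U u v l l') :
    Y.IsPath U l u v ∧ Y.IsPath U l' u v := by
  induction h with
  | refl h => exact ⟨h, h⟩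
  | symm _ ih => exact ih.symm
  | trans _ _ ih1 ih2 => exact ⟨ih1.1, ih2.2⟩
  | step h1 h2 _ => exact ⟨h1, h2⟩

lemma Htpy.left {u v : Y.V} {l l' : List (Y.E × Bool)} (h : Htpy U u v l l') :
    Y.IsPath U l u v := h.isPath.1

lemma Htpy.right {u v : Y.V} {l l' : List (Y.E × Bool)} (h : Htpy U u v l l') :
    Y.IsPath U l' u v := h.isPath.2

lemma Htpy.mono (hU : U ⊆ U') {u v : Y.V} {l l' : List (Y.E × Bool)} (h : Htpy U u v l l') :
    Htpy U' u v l l' := by
  induction h with
  | refl h => exact .refl (h.mono hU)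
  | symm _ ih => exact ih.symm
  | trans _ _ ih1 ih2 => exact ih1.trans ih2
  | step h1 h2 h3 => exact .step (h1.mono hU) (h2.mono hU) h3

lemma Step.append_left {l l' : List (Y.E × Bool)} (p : List (Y.E × Bool)) (h : Y.Step l l') :
    Y.Step (p ++ l) (p ++ l') := by
  cases h with
  | cancel l₁ a l₂ => simpa using Step.cancel (p ++ l₁) a l₂
  | face l₁ f l₂ => simpa using Step.face (p ++ l₁) f l₂

lemma Step.append_right {l l' : List (Y.E × Bool)} (p : List (Y.E × Bool)) (h : Y.Step l l') :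
    Y.Step (l ++ p) (l' ++ p) := by
  cases h with
  | cancel l₁ a l₂ => simpa using Step.cancel l₁ a (l₂ ++ p)
  | face l₁ f l₂ => simpa using Step.face l₁ f (l₂ ++ p)

lemma Htpy.append_left {u v w : Y.V} {p l l' : List (Y.E × Bool)} (hp : Y.IsPath U p u v)
    (h : Htpy U v w l l') : Htpy U u w (p ++ l) (p ++ l') := by
  induction h with
  | refl h => exact .refl (hp.append h)
  | symm _ ih => exact ih.symm
  | trans _ _ ih1 ih2 => exact ih1.trans ih2
  | step h1 h2 h3 => exact .step (hp.append h1) (hp.append h2) (h3.append_left p)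

lemma Htpy.append_right {u v w : Y.V} {p l l' : List (Y.E × Bool)} (h : Htpy U u v l l')
    (hp : Y.IsPath U p v w) : Htpy U u w (l ++ p) (l' ++ p) := by
  induction h with
  | refl h => exact .refl (h.append hp)
  | symm _ ih => exact ih.symm
  | trans _ _ ih1 ih2 => exact ih1.trans ih2
  | step h1 h2 h3 => exact .step (h1.append hp) (h2.append hp) (h3.append_right p)

lemma Htpy.append {u v w : Y.V} {l₁ l₂ m₁ m₂ : List (Y.E × Bool)} (h : Htpy U u v l₁ l₂)
    (h' : Htpy U v w m₁ m₂) : Htpy U u w (l₁ ++ m₁) (l₂ ++ m₂) :=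
  (h.append_right h'.left).trans (Htpy.append_left h.right h')

lemma Htpy.rev_self {u v : Y.V} {l : List (Y.E × Bool)} (h : Y.IsPath U l u v) :
    Htpy U v v (TwoComplex.rev l ++ l) [] := by
  induction l generalizing u with
  | nil => exact .refl ⟨rfl, h.end_mem⟩
  | cons a l ih =>
    have h1 : Y.IsPath U (TwoComplex.rev (a :: l) ++ (a :: l)) v v := h.rev.append h
    have h2 := ih h.2.2
    refine Htpy.trans (.step h1 h2.left ?_) h2
    have := Step.cancel (Y := Y) (TwoComplex.rev l) (Y.flip a) l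
    simpa using this

lemma Htpy.self_rev {u v : Y.V} {l : List (Y.E × Bool)} (h : Y.IsPath U l u v) :
    Htpy U u u (l ++ TwoComplex.rev l) [] := by
  have := Htpy.rev_self h.rev
  rwa [rev_rev] at this

lemma Htpy.rev {u v : Y.V} {l l' : List (Y.E × Bool)} (h : Htpy U u v l l') :
    Htpy U v u (TwoComplex.rev l) (TwoComplex.rev l') := by
  -- rev l ~ rev l ++ l' ++ rev l' ~ rev l ++ l ++ rev l' ~ rev l'
  have hl := h.left
  have hl' := h.right
  have e1 : Htpy U v u (TwoComplex.rev l) (TwoComplex.rev l ++ (l' ++ TwoComplex.rev l')) := by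
    have := Htpy.append_left hl.rev (Htpy.self_rev hl').symm
    simpa using this
  have e2 : Htpy U v u (TwoComplex.rev l ++ (l' ++ TwoComplex.rev l'))
      (TwoComplex.rev l ++ (l ++ TwoComplex.rev l')) :=
    Htpy.append_left hl.rev (h.symm.append_right hl'.rev)
  have e3 : Htpy U v u (TwoComplex.rev l ++ (l ++ TwoComplex.rev l')) (TwoComplex.rev l') := by
    have := (Htpy.rev_self hl).append_right hl'.rev
    simpa using this
  exact e1.trans (e2.trans e3)

/-- insert `p p⁻¹` between two paths. -/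
lemma Htpy.insert {u v w x : Y.V} {l m p : List (Y.E × Bool)} (hl : Y.IsPath U l u v)
    (hm : Y.IsPath U m v w) (hp : Y.IsPath U p x v) :
    Htpy U u w (l ++ m) ((l ++ TwoComplex.rev p) ++ (p ++ m)) := by
  have h1 := (Htpy.append_left hl (Htpy.rev_self hp).symm).append_right hm
  simpa using h1

/-- Cancel `p⁻¹ p` on the left: from `p ++ l ~ p ++ l'` conclude `l ~ l'`. -/
lemma Htpy.cancel_left {u v w : Y.V} {p l l' : List (Y.E × Bool)} (hp : Y.IsPath U p u v)
    (hl : Y.IsPath U l v w) (hl' : Y.IsPath U l' v w)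
    (h : Htpy U u w (p ++ l) (p ++ l')) : Htpy U v w l l' := by
  have h1 := Htpy.append_left hp.rev h
  have h2 := (Htpy.rev_self hp).append_right hl
  have h3 := (Htpy.rev_self hp).append_right hl'
  simp only [List.nil_append, List.append_assoc] at h1 h2 h3
  exact h2.symm.trans (h1.trans h3)

lemma Htpy.cancel_right {u v w : Y.V} {p l l' : List (Y.E × Bool)} (hp : Y.IsPath U p v w)
    (hl : Y.IsPath U l u v) (hl' : Y.IsPath U l' u v)
    (h : Htpy U u w (l ++ p) (l' ++ p)) : Htpy U u v l l' := by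
  have h1 := h.append_right hp.rev
  have h2 := Htpy.append_left hl (Htpy.self_rev hp)
  have h3 := Htpy.append_left hl' (Htpy.self_rev hp)
  simp only [List.append_nil, List.append_assoc] at h1 h2 h3
  exact h2.symm.trans (h1.trans h3)

/-! ### Maps of complexes -/

variable {Z : TwoComplex.{u}}

/-- Extend a map from edges to paths to oriented edges. -/
def ext (θ : Y.E → List (Z.E × Bool)) (a : Y.E × Bool) : List (Z.E × Bool) :=
  if a.2 then θ a.1 else TwoComplex.rev (θ a.1)

lemma ext_flip (θ : Y.E → List (Z.E × Bool)) (a : Y.E × Bool) :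
    ext θ (Y.flip a) = TwoComplex.rev (ext θ a) := by
  rcases a with ⟨e, _ | _⟩ <;> simp [ext, flip]

/-- Extend to paths. -/
def mapPath (θ : Y.E → List (Z.E × Bool)) (l : List (Y.E × Bool)) : List (Z.E × Bool) :=
  l.flatMap (ext θ)

@[simp] lemma mapPath_nil (θ : Y.E → List (Z.E × Bool)) : mapPath θ [] = [] := rfl

@[simp] lemma mapPath_cons (θ : Y.E → List (Z.E × Bool)) (a : Y.E × Bool)
    (l : List (Y.E × Bool)) : mapPath θ (a :: l) = ext θ a ++ mapPath θ l := rfl

@[simp] lemma mapPath_append (θ : Y.E → List (Z.E × Bool)) (l l' : List (Y.E × Bool)) :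
    mapPath θ (l ++ l') = mapPath θ l ++ mapPath θ l' := by simp [mapPath]

lemma mapPath_rev (θ : Y.E → List (Z.E × Bool)) (l : List (Y.E × Bool)) :
    mapPath θ (rev l) = rev (mapPath θ l) := by
  induction l with
  | nil => rfl
  | cons a l ih => simp [ih, ext_flip]

/-- The data of a map of a full subcomplex `U` of `Y` to the full subcomplex `W` of `Z`. -/
structure IsMap (U : Set Y.V) (W : Set Z.V) (f : Y.V → Z.V) (θ : Y.E → List (Z.E × Bool)) :
    Prop where
  mem : ∀ v ∈ U, f v ∈ W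
  edge : ∀ e, Y.ini e ∈ U → Y.ter e ∈ U → Z.IsPath W (θ e) (f (Y.ini e)) (f (Y.ter e))
  face : ∀ φ u, Y.IsPath U (Y.bd φ) u u → Htpy W (f u) (f u) (mapPath θ (Y.bd φ)) []

lemma isPath_ext {W : Set Z.V} {f : Y.V → Z.V} {θ : Y.E → List (Z.E × Bool)}
    (edge : ∀ e, Y.ini e ∈ U → Y.ter e ∈ U → Z.IsPath W (θ e) (f (Y.ini e)) (f (Y.ter e)))
    (a : Y.E × Bool) (h1 : Y.src a ∈ U) (h2 : Y.tgt a ∈ U) :
    Z.IsPath W (ext θ a) (f (Y.src a)) (f (Y.tgt a)) := by
  rcases a with ⟨e, _ | _⟩
  · have := (edge e h2 h1).rev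
    simpa [ext, src, tgt] using this
  · have := edge e h1 h2
    simpa [ext, src, tgt] using this

lemma isPath_mapPath {W : Set Z.V} {f : Y.V → Z.V} {θ : Y.E → List (Z.E × Bool)}
    (mem : ∀ v ∈ U, f v ∈ W)
    (edge : ∀ e, Y.ini e ∈ U → Y.ter e ∈ U → Z.IsPath W (θ e) (f (Y.ini e)) (f (Y.ter e)))
    {u v : Y.V} {l : List (Y.E × Bool)} (hl : Y.IsPath U l u v) :
    Z.IsPath W (mapPath θ l) (f u) (f v) := by
  induction l generalizing u with
  | nil => obtain ⟨rfl, hu⟩ := hl; exact ⟨rfl, mem _ hu⟩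
  | cons a l ih =>
    obtain ⟨rfl, h2, h3⟩ := hl
    exact (isPath_ext edge a h2 h3.start_mem).append (ih h3)

lemma IsMap.path_single {W : Set Z.V} {f : Y.V → Z.V} {θ : Y.E → List (Z.E × Bool)}
    (h : IsMap U W f θ) (a : Y.E × Bool) (h1 : Y.src a ∈ U) (h2 : Y.tgt a ∈ U) :
    Z.IsPath W (ext θ a) (f (Y.src a)) (f (Y.tgt a)) := isPath_ext h.edge a h1 h2

lemma IsMap.path {W : Set Z.V} {f : Y.V → Z.V} {θ : Y.E → List (Z.E × Bool)}
    (h : IsMap U W f θ) {u v : Y.V} {l : List (Y.E × Bool)} (hl : Y.IsPath U l u v) :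
    Z.IsPath W (mapPath θ l) (f u) (f v) := isPath_mapPath h.mem h.edge hl

lemma IsMap.htpy {W : Set Z.V} {f : Y.V → Z.V} {θ : Y.E → List (Z.E × Bool)}
    (h : IsMap U W f θ) {u v : Y.V} {l l' : List (Y.E × Bool)} (hl : Htpy U u v l l') :
    Htpy W (f u) (f v) (mapPath θ l) (mapPath θ l') := by
  induction hl with
  | refl h1 => exact .refl (h.path h1)
  | symm _ ih => exact ih.symm
  | trans _ _ ih1 ih2 => exact ih1.trans ih2
  | @step l l' h1 h2 h3 =>
    cases h3 with
    | cancel l₁ a l₂ =>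
      obtain ⟨x, hx1, hx2⟩ := isPath_append.mp h1
      obtain ⟨y, hy1, hy2⟩ := isPath_append.mp hx1
      obtain ⟨rfl, hz1, hz2⟩ := hy2
      have hx : x = Y.src a := by
        have := hz2.2.2.1
        simpa using this.symm
      subst hx
      have e : Htpy W (f (Y.src a)) (f (Y.src a)) (mapPath θ [a, Y.flip a]) [] := by
        have := Htpy.self_rev (h.path_single a hz1 hz2.start_mem)
        simpa [ext_flip] using this
      have := (Htpy.append_left (h.path hy1) e).append_right (h.path hx2)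
      simpa using this
    | face l₁ φ l₂ =>
      obtain ⟨x, hx1, hx2⟩ := isPath_append.mp h1
      obtain ⟨y, hy1, hy2⟩ := isPath_append.mp hx1
      obtain ⟨y', hy1', hy2'⟩ := isPath_append.mp h2
      have e1 : y' = y := hy1'.end_unique hy1
      subst e1
      by_cases hxy : x = y'
      · subst hxy
        have e := h.face φ x hy2
        have := (Htpy.append_left (h.path hy1) e).append_right (h.path hx2)
        simpa using this
      · exfalso
        cases l₂ with
        | nil => exact hxy (hx2.1.trans hy2'.1.symm)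
        | cons b l₂ => exact hxy (hx2.1.symm.trans hy2'.1)

/-- A homotopy has finite support. -/
lemma Htpy.exists_finite {u v : Y.V} {l l' : List (Y.E × Bool)} (h : Htpy U u v l l') :
    ∃ P : Set Y.V, P.Finite ∧ P ⊆ U ∧ Htpy P u v l l' := by
  have hpath : ∀ {u v : Y.V} {l : List (Y.E × Bool)}, Y.IsPath U l u v →
      ∃ P : Set Y.V, P.Finite ∧ P ⊆ U ∧ Y.IsPath P l u v := by
    intro u v l hl
    induction l generalizing u with
    | nil => exact ⟨{u}, Set.finite_singleton _, by simpa using hl.2, hl.1, rfl⟩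
    | cons a l ih =>
      obtain ⟨P, hP, hPU, hP'⟩ := ih hl.2.2
      refine ⟨Insert.insert u P, hP.insert u, ?_, hl.1, Set.mem_insert _ _,
        hP'.mono (Set.subset_insert _ _)⟩
      intro x hx
      rcases hx with rfl | hx
      · exact hl.2.1
      · exact hPU hx
  induction h with
  | refl h =>
    obtain ⟨P, h1, h2, h3⟩ := hpath h
    exact ⟨P, h1, h2, .refl h3⟩
  | symm _ ih =>
    obtain ⟨P, h1, h2, h3⟩ := ih
    exact ⟨P, h1, h2, h3.symm⟩
  | trans _ _ ih1 ih2 =>
    obtain ⟨P, h1, h2, h3⟩ := ih1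
    obtain ⟨Q, h4, h5, h6⟩ := ih2
    exact ⟨P ∪ Q, h1.union h4, Set.union_subset h2 h5,
      (h3.mono Set.subset_union_left).trans (h6.mono Set.subset_union_right)⟩
  | step h1 h2 h3 =>
    obtain ⟨P, h4, h5, h6⟩ := hpath h1
    obtain ⟨Q, h7, h8, h9⟩ := hpath h2
    exact ⟨P ∪ Q, h4.union h7, Set.union_subset h5 h8,
      .step (h6.mono Set.subset_union_left) (h9.mono Set.subset_union_right) h3⟩

lemma IsPath.exists_finite {u v : Y.V} {l : List (Y.E × Bool)} (h : Y.IsPath U l u v) :
    ∃ P : Set Y.V, P.Finite ∧ P ⊆ U ∧ Y.IsPath P l u v := by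
  obtain ⟨P, h1, h2, h3⟩ := (Htpy.refl h).exists_finite
  exact ⟨P, h1, h2, h3.left⟩

/-! ### The fundamental group -/

variable (Y) in
lemma pi1_rel_iff (U : Set Y.V) (u : U) (p q : Y.Loop U u) :
    (Y.loopSetoid U u) p q ↔ Htpy U (u : Y.V) u p.1 q.1 := by
  constructor
  · intro h
    induction h with
    | rel p q h => exact .step p.2 q.2 h
    | refl p => exact .refl p.2
    | symm p q _ ih => exact ih.symm
    | trans p q r _ _ ih1 ih2 => exact ih1.trans ih2
  · intro h
    have key : ∀ {a b : Y.V} {l l' : List (Y.E × Bool)}, Htpy U a b l l' → ∀ (ha : a = u)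
        (hb : b = u) (h1 : Y.IsPath U l u u) (h2 : Y.IsPath U l' u u),
        (Y.loopSetoid U u) ⟨l, h1⟩ ⟨l', h2⟩ := by
      intro a b l l' h
      induction h with
      | refl h => intro ha hb h1 h2; exact Relation.EqvGen.refl _
      | symm _ ih => intro ha hb h1 h2; exact (ih ha hb h2 h1).symm
      | trans h3 h4 ih1 ih2 =>
        intro ha hb h1 h2
        subst ha hb
        exact Relation.EqvGen.trans _ _ _ (ih1 rfl rfl h1 h3.right) (ih2 rfl rfl h3.right h2)
      | step h3 h4 h5 => intro ha hb h1 h2; exact Relation.EqvGen.rel _ _ h5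
    exact key h rfl rfl p.2 q.2

end TwoComplex

end Pool.Agent.Helper28.Tame
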