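import Pool.Agent.Helper28.Tame.Coarse

set_option autoImplicit false

namespace Pool.Agent.Helper28.Tame

universe u

namespace TwoComplex

/-- Regularity assumptions on a complex. -/
structure Good (Y : TwoComplex.{u}) : Prop where
  loc : Y.LocFin
  face : ∀ v : Y.V, {f : Y.F | ∃ a ∈ Y.bd f, Y.src a = v}.Finite
  ne : ∀ f, Y.bd f ≠ []
  closed : ∀ f, ∃ v, Y.IsPath Set.univ (Y.bd f) v v

variable {Y : TwoComplex.{u}}

/-- The closure of a cell. -/
def cl (Y : TwoComplex.{u}) : Y.V ⊕ Y.E ⊕ Y.F → Set (Y.V ⊕ Y.E ⊕ Y.F)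
  | .inl v => {.inl v}
  | .inr (.inl e) => {.inr (.inl e), .inl (Y.ini e), .inl (Y.ter e)}
  | .inr (.inr f) => {c | c = .inr (.inr f) ∨ ∃ a ∈ Y.bd f, c = .inr (.inl a.1) ∨
      c = .inl (Y.src a) ∨ c = .inl (Y.tgt a)}

lemma self_mem_cl (c : Y.V ⊕ Y.E ⊕ Y.F) : c ∈ Y.cl c := by
  rcases c with v | e | f
  · exact rfl
  · exact Or.inl rfl
  · exact Or.inl rfl

lemma cl_finite (c : Y.V ⊕ Y.E ⊕ Y.F) : (Y.cl c).Finite := by
  rcases c with v | e | f
  · exact Set.finite_singleton _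
  · exact ((Set.finite_singleton _).insert _).insert _
  · have h1 : ({a | a ∈ Y.bd f} : Set (Y.E × Bool)).Finite := List.finite_toSet _
    refine (((Set.finite_singleton (Sum.inr (Sum.inr f) : Y.V ⊕ Y.E ⊕ Y.F)).union
      (h1.image fun a => (Sum.inr (Sum.inl a.1) : Y.V ⊕ Y.E ⊕ Y.F))).union
      (h1.image fun a => (Sum.inl (Y.src a) : Y.V ⊕ Y.E ⊕ Y.F))).union
      (h1.image fun a => (Sum.inl (Y.tgt a) : Y.V ⊕ Y.E ⊕ Y.F)) |>.subset ?_
    rintro c (rfl | ⟨a, ha, rfl | rfl | rfl⟩)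
    · exact Or.inl (Or.inl (Or.inl rfl))
    · exact Or.inl (Or.inl (Or.inr ⟨a, ha, rfl⟩))
    · exact Or.inl (Or.inr ⟨a, ha, rfl⟩)
    · exact Or.inr ⟨a, ha, rfl⟩

lemma isPath_getElem {U : Set Y.V} {l : List (Y.E × Bool)} {u v : Y.V} (h : Y.IsPath U l u v)
    (i : ℕ) (hi : i < l.length) : Y.IsPath U (l.take i) u (Y.src l[i]) ∧
      Y.src l[i] ∈ U ∧ Y.IsPath U (l.drop (i + 1)) (Y.tgt l[i]) v := by
  induction l generalizing u i with
  | nil => simp at hi
  | cons a l ih =>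
    obtain ⟨rfl, h2, h3⟩ := h
    cases i with
    | zero => exact ⟨⟨rfl, h2⟩, h2, h3⟩
    | succ i =>
      obtain ⟨h4, h5, h6⟩ := ih h3 i (by simpa using hi)
      exact ⟨⟨rfl, h2, h4⟩, h5, h6⟩

lemma IsPath.start_eq {U : Set Y.V} {l : List (Y.E × Bool)} {u v : Y.V} (h : Y.IsPath U l u v)
    (hl : 0 < l.length) : u = Y.src l[0] := by
  cases l with
  | nil => simp at hl
  | cons a l => exact h.1.symm

lemma Good.closed' (hY : Y.Good) (f : Y.F) : ∃ h : 0 < (Y.bd f).length,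
    Y.IsPath Set.univ (Y.bd f) (Y.src (Y.bd f)[0]) (Y.src (Y.bd f)[0]) := by
  have h : 0 < (Y.bd f).length := List.length_pos_iff.mpr (hY.ne f)
  obtain ⟨v, hv⟩ := hY.closed f
  refine ⟨h, ?_⟩
  rwa [← hv.start_eq h]

lemma Good.next_corner (hY : Y.Good) (f : Y.F) (i : Fin (Y.bd f).length) :
    Y.tgt ((Y.bd f).get i) = Y.src ((Y.bd f).get (next i)) := by
  obtain ⟨h0, hc⟩ := hY.closed' f
  obtain ⟨h1, h2, h3⟩ := isPath_getElem hc i i.2
  by_cases hi : (i : ℕ) + 1 < (Y.bd f).length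
  · have h4 : next i = ⟨i + 1, hi⟩ := by
      ext; simp [next, Nat.mod_eq_of_lt hi]
    rw [h4]
    have h5 := h3.start_eq (by simp; omega)
    simpa using h5
  · have hi' : (i : ℕ) + 1 = (Y.bd f).length := by have := i.2; omega
    have h4 : next i = ⟨0, h0⟩ := by
      ext; simp [next, hi']
    rw [h4]
    have h5 : (Y.bd f).drop (i + 1) = [] := by
      rw [List.drop_eq_nil_iff]; omega
    rw [h5] at h3
    exact h3.1

/-- The cells meeting a finite set of cells form a finite set. -/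
lemma Good.star_finite (hY : Y.Good) {C : Set (Y.V ⊕ Y.E ⊕ Y.F)} (hC : C.Finite) :
    {c | ∃ c' ∈ C, c' ∈ Y.cl c}.Finite := by
  have hface2 : ∀ v : Y.V, {f : Y.F | ∃ a ∈ Y.bd f, Y.src a = v ∨ Y.tgt a = v}.Finite := by
    intro v
    refine (hY.face v).subset ?_
    rintro f ⟨a, ha, h1 | h1⟩
    · exact ⟨a, ha, h1⟩
    · obtain ⟨i, hi, rfl⟩ := List.getElem_of_mem ha
      have h2 := hY.next_corner f ⟨i, hi⟩
      refine ⟨(Y.bd f).get (next ⟨i, hi⟩), List.get_mem _ _, ?_⟩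
      rw [← h2]; exact h1
  have hedge : ∀ v : Y.V, {e : Y.E | Y.ini e = v ∨ Y.ter e = v}.Finite := by
    intro v
    refine ((hY.loc v).image Prod.fst).subset ?_
    rintro e (h1 | h1)
    · exact ⟨(e, true), by simpa [src] using h1, rfl⟩
    · exact ⟨(e, false), by simpa [src] using h1, rfl⟩
  have hcell : ∀ c' : Y.V ⊕ Y.E ⊕ Y.F, {c | c' ∈ Y.cl c}.Finite := by
    intro c'
    have key : {c | c' ∈ Y.cl c} ⊆ {c'} ∪
        ((fun e : Y.E => (Sum.inr (Sum.inl e) : Y.V ⊕ Y.E ⊕ Y.F)) ''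
          {e | c' = .inl (Y.ini e) ∨ c' = .inl (Y.ter e)}) ∪
        ((fun f : Y.F => (Sum.inr (Sum.inr f) : Y.V ⊕ Y.E ⊕ Y.F)) ''
          {f | ∃ a ∈ Y.bd f, c' = .inr (.inl a.1) ∨ c' = .inl (Y.src a) ∨
            c' = .inl (Y.tgt a)}) := by
      rintro (v | e | f) hc
      · exact Or.inl (Or.inl (Set.mem_singleton_iff.mp hc).symm)
      · rcases hc with h1 | h1 | h1
        · exact Or.inl (Or.inl h1.symm)
        · exact Or.inl (Or.inr ⟨e, Or.inl h1, rfl⟩)
        · exact Or.inl (Or.inr ⟨e, Or.inr h1, rfl⟩)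
      · rcases hc with h1 | h1
        · exact Or.inl (Or.inl h1.symm)
        · exact Or.inr ⟨f, h1, rfl⟩
    refine Set.Finite.subset (((Set.finite_singleton _).union (Set.Finite.image _ ?_)).union
      (Set.Finite.image _ ?_)) key
    · rcases c' with v | e | f
      · refine (hedge v).subset ?_
        rintro e (h1 | h1)
        · exact Or.inl (Sum.inl.inj h1).symm
        · exact Or.inr (Sum.inl.inj h1).symm
      · refine Set.finite_empty.subset ?_
        rintro e' (h1 | h1) <;> simp at h1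
      · refine Set.finite_empty.subset ?_
        rintro e' (h1 | h1) <;> simp at h1
    · rcases c' with v | e | f
      · refine (hface2 v).subset ?_
        rintro f ⟨a, ha, h1 | h1 | h1⟩
        · simp at h1
        · exact ⟨a, ha, Or.inl (Sum.inl.inj h1).symm⟩
        · exact ⟨a, ha, Or.inr (Sum.inl.inj h1).symm⟩
      · refine ((hface2 (Y.ini e))).subset ?_
        rintro f ⟨a, ha, h1 | h1 | h1⟩
        · have h2 : e = a.1 := Sum.inl.inj (Sum.inr.inj h1)
          refine ⟨a, ha, ?_⟩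
          rcases a with ⟨e', _ | _⟩
          · right; simp [tgt, h2]
          · left; simp [src, h2]
        · simp at h1
        · simp at h1
      · refine Set.finite_empty.subset ?_
        rintro f' ⟨a, ha, h1 | h1 | h1⟩ <;> simp at h1
  refine (hC.biUnion fun c' _ => hcell c').subset ?_
  rintro c ⟨c', hc', h1⟩
  simp only [Set.mem_iUnion]
  exact ⟨c', hc', h1⟩

/-! ### The maps between a complex and its subdivision -/

/-- edge of `Y` as a path in the subdivision -/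
def up (Y : TwoComplex.{u}) (e : Y.E) : List (Y.sd.E × Bool) :=
  [(SdEdge.half e false, false), (SdEdge.half e true, true)]

/-- cell to vertex -/
def base (Y : TwoComplex.{u}) (hY : Y.Good) : Y.sd.V → Y.V
  | .inl v => v
  | .inr (.inl e) => Y.ini e
  | .inr (.inr f) => Y.src ((Y.bd f).get ⟨0, (hY.closed' f).choose⟩)

/-- edge of the subdivision as a path in `Y` -/
def down (Y : TwoComplex.{u}) : Y.sd.E → List (Y.E × Bool)
  | .half _ false => []
  | .half e true => [(e, true)]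
  | .side f i => if ((Y.bd f).get i).2 then (Y.bd f).take i else (Y.bd f).take (i + 1)
  | .corner f i => (Y.bd f).take i

/-- cell to base vertex, as a path in the subdivision -/
def link (Y : TwoComplex.{u}) (hY : Y.Good) : Y.sd.V → List (Y.sd.E × Bool)
  | .inl _ => []
  | .inr (.inl e) => [(SdEdge.half e false, true)]
  | .inr (.inr f) => [(SdEdge.corner f ⟨0, (hY.closed' f).choose⟩, true)]


lemma mem_cl_edge_of_side (f : Y.F) {a : Y.E × Bool} (ha : a ∈ Y.bd f) :
    (Sum.inr (Sum.inl a.1) : Y.V ⊕ Y.E ⊕ Y.F) ∈ Y.cl (.inr (.inr f)) :=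
  Or.inr ⟨a, ha, Or.inl rfl⟩

lemma mem_cl_src (f : Y.F) {a : Y.E × Bool} (ha : a ∈ Y.bd f) :
    (Sum.inl (Y.src a) : Y.V ⊕ Y.E ⊕ Y.F) ∈ Y.cl (.inr (.inr f)) :=
  Or.inr ⟨a, ha, Or.inr (Or.inl rfl)⟩

lemma mem_cl_tgt (f : Y.F) {a : Y.E × Bool} (ha : a ∈ Y.bd f) :
    (Sum.inl (Y.tgt a) : Y.V ⊕ Y.E ⊕ Y.F) ∈ Y.cl (.inr (.inr f)) :=
  Or.inr ⟨a, ha, Or.inr (Or.inr rfl)⟩

/-- The `i`-th corner edge. -/
def cor (Y : TwoComplex.{u}) (f : Y.F) (i : Fin (Y.bd f).length) (b : Bool) : Y.sd.E × Bool :=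
  (SdEdge.corner f i, b)

lemma ext_up (a : Y.E × Bool) :
    ext (Z := Y.sd) (up Y) a = [(SdEdge.half a.1 (!a.2), false), (SdEdge.half a.1 a.2, true)] := by
  rcases a with ⟨e, _ | _⟩
  · rfl
  · rfl

lemma tri_start (hY : Y.Good) (f : Y.F) (i : Fin (Y.bd f).length) {U : Set Y.sd.V}
    (hU : Y.cl (.inr (.inr f)) ⊆ U) :
    Htpy (Y := Y.sd) U (.inr (.inr f)) (.inl (Y.src ((Y.bd f).get i)))
      [(SdEdge.side f i, true),
        (SdEdge.half ((Y.bd f).get i).1 (!((Y.bd f).get i).2), true)] [cor Y f i true] := by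
  set a := (Y.bd f).get i with ha
  have hamem : a ∈ Y.bd f := List.get_mem _ _
  have hf : (Sum.inr (Sum.inr f) : Y.sd.V) ∈ U := hU (self_mem_cl _)
  have he : (Sum.inr (Sum.inl a.1) : Y.sd.V) ∈ U := hU (mem_cl_edge_of_side f hamem)
  have hs : (Sum.inl (Y.src a) : Y.sd.V) ∈ U := hU (mem_cl_src f hamem)
  have hflip : Y.tgt (a.1, !a.2) = Y.src a := by
    have := tgt_flip (Y := Y) a
    exact this
  have q1 : Y.sd.IsPath U [(SdEdge.side f i, true), (SdEdge.half a.1 (!a.2), true)]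
      (.inr (.inr f)) (.inl (Y.src a)) := by
    refine ⟨rfl, hf, rfl, he, ?_, ?_⟩
    · show (Sum.inl (Y.tgt (a.1, !a.2)) : Y.sd.V) = _
      rw [hflip]
    · show (Sum.inl (Y.tgt (a.1, !a.2)) : Y.sd.V) ∈ U
      rw [hflip]; exact hs
  have p4 : Y.sd.IsPath U [cor Y f i true] (.inr (.inr f)) (.inl (Y.src a)) :=
    isPath_single.mpr ⟨rfl, rfl, hf, hs⟩
  refine Htpy.cancel_right p4.rev q1 p4 ?_
  refine Htpy.trans ?_ (Htpy.self_rev p4).symm
  refine .step (q1.append p4.rev) ⟨rfl, hf⟩ ?_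
  have := Step.face (Y := Y.sd) [] (SdFace.tri f i false) []
  exact this

lemma tri_end (hY : Y.Good) (f : Y.F) (i : Fin (Y.bd f).length) {U : Set Y.sd.V}
    (hU : Y.cl (.inr (.inr f)) ⊆ U) :
    Htpy (Y := Y.sd) U (.inr (.inr f)) (.inl (Y.tgt ((Y.bd f).get i)))
      [(SdEdge.side f i, true),
        (SdEdge.half ((Y.bd f).get i).1 ((Y.bd f).get i).2, true)] [cor Y f (next i) true] := by
  set a := (Y.bd f).get i with ha
  have hamem : a ∈ Y.bd f := List.get_mem _ _
  have hf : (Sum.inr (Sum.inr f) : Y.sd.V) ∈ U := hU (self_mem_cl _)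
  have he : (Sum.inr (Sum.inl a.1) : Y.sd.V) ∈ U := hU (mem_cl_edge_of_side f hamem)
  have ht : (Sum.inl (Y.tgt a) : Y.sd.V) ∈ U := hU (mem_cl_tgt f hamem)
  have hnext : Y.tgt a = Y.src ((Y.bd f).get (next i)) := hY.next_corner f i
  have q1 : Y.sd.IsPath U [(SdEdge.side f i, true), (SdEdge.half a.1 a.2, true)]
      (.inr (.inr f)) (.inl (Y.tgt a)) := ⟨rfl, hf, rfl, he, rfl, ht⟩
  have p5 : Y.sd.IsPath U [cor Y f (next i) true] (.inr (.inr f)) (.inl (Y.tgt a)) := by
    refine isPath_single.mpr ⟨rfl, ?_, hf, ht⟩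
    show (Sum.inl (Y.src ((Y.bd f).get (next i))) : Y.sd.V) = _
    rw [← hnext]
  refine Htpy.cancel_right p5.rev q1 p5 ?_
  refine Htpy.trans ?_ (Htpy.self_rev p5).symm
  refine .step (q1.append p5.rev) ⟨rfl, hf⟩ ?_
  have := Step.face (Y := Y.sd) [] (SdFace.tri f i true) []
  exact this

lemma isPath_of_mem {U : Set Y.V} {l : List (Y.E × Bool)} {u v : Y.V}
    (h : Y.IsPath Set.univ l u v) (h1 : ∀ a ∈ l, Y.src a ∈ U) (h2 : v ∈ U) :
    Y.IsPath U l u v := by
  induction l generalizing u with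
  | nil => exact ⟨h.1, h.1 ▸ h2⟩
  | cons a l ih =>
    obtain ⟨rfl, _, h3⟩ := h
    exact ⟨rfl, h1 a (by simp), ih h3 fun b hb => h1 b (by simp [hb])⟩

lemma Good.bd_path (hY : Y.Good) (f : Y.F) {U : Set Y.V} (hU : ∀ a ∈ Y.bd f, Y.src a ∈ U) :
    Y.IsPath U (Y.bd f) (Y.src ((Y.bd f).get ⟨0, (hY.closed' f).choose⟩))
      (Y.src ((Y.bd f).get ⟨0, (hY.closed' f).choose⟩)) :=
  isPath_of_mem (hY.closed' f).choose_spec hU (hU _ (List.get_mem _ _))

/-- A side is homotopic, in the closed 2-cell, to the path through the barycentre. -/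
lemma side_htpy (hY : Y.Good) (f : Y.F) (i : Fin (Y.bd f).length) {U : Set Y.sd.V}
    (hU : Y.cl (.inr (.inr f)) ⊆ U) :
    Htpy (Y := Y.sd) U (.inl (Y.src ((Y.bd f).get i))) (.inl (Y.tgt ((Y.bd f).get i)))
      (ext (Z := Y.sd) (up Y) ((Y.bd f).get i)) [cor Y f i false, cor Y f (next i) true] := by
  set a := (Y.bd f).get i with ha
  have hamem : a ∈ Y.bd f := List.get_mem _ _
  have hf : (Sum.inr (Sum.inr f) : Y.sd.V) ∈ U := hU (self_mem_cl _)
  have he : (Sum.inr (Sum.inl a.1) : Y.sd.V) ∈ U := hU (mem_cl_edge_of_side f hamem)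
  have hs : (Sum.inl (Y.src a) : Y.sd.V) ∈ U := hU (mem_cl_src f hamem)
  have ht : (Sum.inl (Y.tgt a) : Y.sd.V) ∈ U := hU (mem_cl_tgt f hamem)
  have hflip : Y.tgt (a.1, !a.2) = Y.src a := by
    have := tgt_flip (Y := Y) a
    exact this
  -- the pieces
  have p1 : Y.sd.IsPath U [(SdEdge.half a.1 (!a.2), false)] (.inl (Y.src a)) (.inr (.inl a.1)) := by
    refine isPath_single.mpr ⟨?_, rfl, hs, he⟩
    show (Sum.inl (Y.tgt (a.1, !a.2)) : Y.sd.V) = _
    rw [hflip]
  have p2 : Y.sd.IsPath U [(SdEdge.half a.1 a.2, true)] (.inr (.inl a.1)) (.inl (Y.tgt a)) :=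
    isPath_single.mpr ⟨rfl, rfl, he, ht⟩
  have p3 : Y.sd.IsPath U [(SdEdge.side f i, true)] (.inr (.inr f)) (.inr (.inl a.1)) :=
    isPath_single.mpr ⟨rfl, rfl, hf, he⟩
  have p4 : Y.sd.IsPath U [cor Y f i true] (.inr (.inr f)) (.inl (Y.src a)) :=
    isPath_single.mpr ⟨rfl, rfl, hf, hs⟩
  have hnext : Y.tgt a = Y.src ((Y.bd f).get (next i)) := hY.next_corner f i
  have p5 : Y.sd.IsPath U [cor Y f (next i) true] (.inr (.inr f)) (.inl (Y.tgt a)) := by
    refine isPath_single.mpr ⟨rfl, ?_, hf, ht⟩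
    show (Sum.inl (Y.src ((Y.bd f).get (next i))) : Y.sd.V) = _
    rw [← hnext]
  -- the first triangle
  have t1 : Htpy (Y := Y.sd) U (.inr (.inr f)) (.inl (Y.src a))
      ([(SdEdge.side f i, true)] ++ [(SdEdge.half a.1 (!a.2), true)]) [cor Y f i true] := by
    have q1 := p3.append p1.rev
    have hrev : rev (Y := Y.sd) [(SdEdge.half a.1 (!a.2), false)] =
      [(SdEdge.half a.1 (!a.2), true)] := rfl
    rw [hrev] at q1
    refine Htpy.cancel_right p4.rev q1 p4 ?_
    refine Htpy.trans ?_ (Htpy.self_rev p4).symm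
    refine .step (q1.append p4.rev) ⟨rfl, hf⟩ ?_
    have := Step.face (Y := Y.sd) [] (SdFace.tri f i false) []
    exact this
  have t2 : Htpy (Y := Y.sd) U (.inr (.inr f)) (.inl (Y.tgt a))
      ([(SdEdge.side f i, true)] ++ [(SdEdge.half a.1 a.2, true)]) [cor Y f (next i) true] := by
    have q1 := p3.append p2
    refine Htpy.cancel_right p5.rev q1 p5 ?_
    refine Htpy.trans ?_ (Htpy.self_rev p5).symm
    refine .step (q1.append p5.rev) ⟨rfl, hf⟩ ?_
    have := Step.face (Y := Y.sd) [] (SdFace.tri f i true) []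
    exact this
  rw [ext_up]
  -- [start⁻¹, end] ~ [start⁻¹, side⁻¹, side, end] ~ [corner⁻¹, corner]
  have a1 := Htpy.insert p1 p2 p3
  have a2 := t1.rev.append t2
  exact a1.trans a2

lemma up_htpy (hY : Y.Good) (f : Y.F) {U : Set Y.sd.V}
    (hU : Y.cl (.inr (.inr f)) ⊆ U) (k : ℕ) (hk : k < (Y.bd f).length) :
    Htpy (Y := Y.sd) U (.inl (Y.src ((Y.bd f).get ⟨0, (hY.closed' f).choose⟩)))
      (.inl (Y.tgt ((Y.bd f).get ⟨k, hk⟩)))
      (mapPath (Z := Y.sd) (up Y) ((Y.bd f).take (k + 1)))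
      [cor Y f ⟨0, (hY.closed' f).choose⟩ false, cor Y f (next ⟨k, hk⟩) true] := by
  induction k with
  | zero =>
    have h1 := side_htpy hY f ⟨0, hk⟩ hU
    have h2 : (Y.bd f).take (0 + 1) = [(Y.bd f).get ⟨0, hk⟩] := by
      rw [List.take_add_one, List.take_zero, List.getElem?_eq_getElem hk]
      rfl
    rw [h2]
    simpa using h1
  | succ k ih =>
    have hk' : k < (Y.bd f).length := by omega
    have h1 := ih hk'
    have h2 := side_htpy hY f ⟨k + 1, hk⟩ hU
    have h3 : next ⟨k, hk'⟩ = (⟨k + 1, hk⟩ : Fin (Y.bd f).length) := by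
      ext; simp [next, Nat.mod_eq_of_lt hk]
    have h4 : Y.tgt ((Y.bd f).get ⟨k, hk'⟩) = Y.src ((Y.bd f).get ⟨k + 1, hk⟩) := by
      rw [hY.next_corner, h3]
    rw [h4] at h1
    have h5 : (Y.bd f).take (k + 1 + 1) = (Y.bd f).take (k + 1) ++ [(Y.bd f).get ⟨k + 1, hk⟩] := by
      rw [List.take_add_one, List.getElem?_eq_getElem hk]
      rfl
    rw [h5, mapPath_append]
    have h6 := h1.append h2
    have h7 : mapPath (Z := Y.sd) (up Y) [(Y.bd f).get ⟨k + 1, hk⟩] =
        ext (Z := Y.sd) (up Y) ((Y.bd f).get ⟨k + 1, hk⟩) := by simp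
    rw [h7]
    rw [h3] at h6
    refine h6.trans ?_
    refine .step h6.right ?_ ?_
    · obtain ⟨x, hx1, hx2⟩ := isPath_append.mp h6.right
      obtain ⟨h8, h9, h10, h11, h12, h13⟩ := hx1
      obtain ⟨h14, h15, h16, h17, h18⟩ := hx2
      refine ⟨h8, h9, rfl, h11, ?_⟩
      exact h18
    · have := Step.cancel (Y := Y.sd) [cor Y f ⟨0, (hY.closed' f).choose⟩ false]
        (cor Y f ⟨k + 1, hk⟩ true) [cor Y f (next ⟨k + 1, hk⟩) true]
      exact this

lemma up_htpy_take (hY : Y.Good) (f : Y.F) {U : Set Y.sd.V}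
    (hU : Y.cl (.inr (.inr f)) ⊆ U) (i : Fin (Y.bd f).length) :
    Htpy (Y := Y.sd) U (.inl (Y.src ((Y.bd f).get ⟨0, (hY.closed' f).choose⟩)))
      (.inl (Y.src ((Y.bd f).get i)))
      (mapPath (Z := Y.sd) (up Y) ((Y.bd f).take i))
      [cor Y f ⟨0, (hY.closed' f).choose⟩ false, cor Y f i true] := by
  obtain ⟨i, hi⟩ := i
  cases i with
  | zero =>
    have hmem : (Sum.inl (Y.src ((Y.bd f).get ⟨0, hi⟩)) : Y.sd.V) ∈ U :=
      hU (mem_cl_src f (List.get_mem _ _))
    have hp : Y.sd.IsPath U [cor Y f ⟨0, hi⟩ false]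
        (.inl (Y.src ((Y.bd f).get ⟨0, hi⟩))) (.inr (.inr f)) :=
      isPath_single.mpr ⟨rfl, rfl, hmem, hU (self_mem_cl _)⟩
    exact (Htpy.self_rev hp).symm
  | succ k =>
    have hk : k < (Y.bd f).length := by omega
    have h3 : next ⟨k, hk⟩ = (⟨k + 1, hi⟩ : Fin (Y.bd f).length) := by
      ext; simp [next, Nat.mod_eq_of_lt hi]
    have h1 := up_htpy hY f hU k hk
    rw [hY.next_corner, h3] at h1
    exact h1

lemma up_htpy_bd (hY : Y.Good) (f : Y.F) {U : Set Y.sd.V}
    (hU : Y.cl (.inr (.inr f)) ⊆ U) :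
    Htpy (Y := Y.sd) U (.inl (Y.src ((Y.bd f).get ⟨0, (hY.closed' f).choose⟩)))
      (.inl (Y.src ((Y.bd f).get ⟨0, (hY.closed' f).choose⟩)))
      (mapPath (Z := Y.sd) (up Y) (Y.bd f)) [] := by
  have hlen := (hY.closed' f).choose
  have hk : (Y.bd f).length - 1 < (Y.bd f).length := by omega
  have h1 := up_htpy hY f hU _ hk
  have h2 : next ⟨(Y.bd f).length - 1, hk⟩ = (⟨0, hlen⟩ : Fin (Y.bd f).length) := by
    ext; simp [next, Nat.sub_add_cancel hlen]
  rw [hY.next_corner, h2, Nat.sub_add_cancel hlen, List.take_length] at h1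
  have hmem : (Sum.inl (Y.src ((Y.bd f).get ⟨0, hlen⟩)) : Y.sd.V) ∈ U :=
    hU (mem_cl_src f (List.get_mem _ _))
  have hp : Y.sd.IsPath U [cor Y f ⟨0, hlen⟩ false]
      (.inl (Y.src ((Y.bd f).get ⟨0, hlen⟩))) (.inr (.inr f)) :=
    isPath_single.mpr ⟨rfl, rfl, hmem, hU (self_mem_cl _)⟩
  exact h1.trans (Htpy.self_rev hp)


/-! ### The two transfers -/

lemma Good.src_finite (hY : Y.Good) {C : Set Y.sd.V} (hC : C.Finite) :
    {v : Y.V | ∃ c, c ∈ C ∧ v = base Y hY c}.Finite := by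
  refine (hC.image (base Y hY)).subset ?_
  rintro v ⟨c, hc, rfl⟩
  exact ⟨c, hc, rfl⟩

lemma allT2_sd (hY : Y.Good) (hT : Y.AllT2) : Y.sd.AllT2 := by
  refine AllT2.transfer hT hY.loc (fun v => (Sum.inl v : Y.sd.V)) (base Y hY) (up Y) (down Y)
    (link Y hY) ?_ ?_
  · intro C hC
    -- bad vertices: those in the closure of a cell whose closure meets C
    let St : Set Y.sd.V := {c | ∃ c' ∈ C, c' ∈ Y.cl c}
    have hSt : St.Finite := hY.star_finite hC
    let C₁ : Set Y.V := {v | ∃ c ∈ St, (Sum.inl v : Y.sd.V) ∈ Y.cl c}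
    have hC₁ : C₁.Finite := by
      have h1 : (⋃ c ∈ St, Y.cl c).Finite := hSt.biUnion fun c _ => cl_finite c
      refine (h1.preimage (f := (Sum.inl : Y.V → Y.sd.V)) Sum.inl_injective.injOn).subset ?_
      rintro v ⟨c, hc, hv⟩
      simp only [Set.mem_preimage, Set.mem_iUnion]
      exact ⟨c, hc, hv⟩
    have hgood : ∀ c : Y.sd.V, (∃ v ∉ C₁, (Sum.inl v : Y.sd.V) ∈ Y.cl c) → Y.cl c ⊆ Cᶜ := by
      rintro c ⟨v, hv, hvc⟩ x hx hxC
      exact hv ⟨c, ⟨x, hxC, hx⟩, hvc⟩
    refine ⟨C₁, hC₁, ?_, ?_, ?_⟩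
    · intro v hv
      exact hgood (.inl v) ⟨v, hv, rfl⟩ (self_mem_cl _)
    · intro e h1 h2
      have hc := hgood (.inr (.inl e)) ⟨Y.ini e, h1, Or.inr (Or.inl rfl)⟩
      refine ⟨rfl, hc (Or.inr (Or.inl rfl)), rfl, hc (Or.inl rfl), rfl, ?_⟩
      exact hc (Or.inr (Or.inr rfl))
    · intro f v hv
      obtain ⟨hlen, hcl⟩ := hY.closed' f
      have hv0 : v = Y.src (Y.bd f)[0] := hv.start_eq hlen
      subst hv0
      have hmem : (Y.bd f)[0] ∈ Y.bd f := List.getElem_mem _
      have hc := hgood (.inr (.inr f)) ⟨_, hv.start_mem, mem_cl_src f hmem⟩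
      exact up_htpy_bd hY f hc
  · intro C C₁ hC hC₁
    refine ⟨{c | ∃ c' ∈ C ∪ Sum.inl '' C₁, c' ∈ Y.cl c},
      hY.star_finite (hC.union (hC₁.image _)), ?_, ?_, ?_⟩
    · -- link
      intro c hc
      have hc' : Y.cl c ⊆ Cᶜ := fun x hx hxC => hc ⟨x, Or.inl hxC, hx⟩
      rcases c with v | e | f
      · exact ⟨rfl, hc' (self_mem_cl _)⟩
      · exact isPath_single.mpr ⟨rfl, rfl, hc' (self_mem_cl _), hc' (Or.inr (Or.inl rfl))⟩
      · exact isPath_single.mpr ⟨rfl, rfl, hc' (self_mem_cl _),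
          hc' (mem_cl_src f (List.get_mem _ _))⟩
    · intro c hc hcC
      refine hc ⟨.inl (base Y hY c), Or.inr ⟨_, hcC, rfl⟩, ?_⟩
      rcases c with v | e | f
      · exact rfl
      · exact Or.inr (Or.inl rfl)
      · exact mem_cl_src f (List.get_mem _ _)
    · intro e h1 _
      have hcC : Y.cl (Y.sd.ini e) ⊆ Cᶜ := fun x hx hxC => h1 ⟨x, Or.inl hxC, hx⟩
      have hcC₁ : ∀ v : Y.V, (Sum.inl v : Y.sd.V) ∈ Y.cl (Y.sd.ini e) → v ∈ C₁ᶜ :=
        fun v hv hvC => h1 ⟨_, Or.inr ⟨v, hvC, rfl⟩, hv⟩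
      rcases e with ⟨e, _ | _⟩ | ⟨f, i⟩ | ⟨f, i⟩
      · -- half e false
        refine ⟨⟨rfl, hcC₁ _ (Or.inr (Or.inl rfl))⟩, ?_⟩
        exact .refl (isPath_single.mpr ⟨rfl, rfl, hcC (self_mem_cl _),
          hcC (Or.inr (Or.inl rfl))⟩)
      · -- half e true
        refine ⟨isPath_single.mpr ⟨rfl, rfl, hcC₁ _ (Or.inr (Or.inl rfl)),
          hcC₁ _ (Or.inr (Or.inr rfl))⟩, ?_⟩
        have p1 : Y.sd.IsPath Cᶜ [(SdEdge.half e false, true)] (.inr (.inl e)) (.inl (Y.ini e)) :=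
          isPath_single.mpr ⟨rfl, rfl, hcC (self_mem_cl _), hcC (Or.inr (Or.inl rfl))⟩
        have p2 : Y.sd.IsPath Cᶜ [(SdEdge.half e true, true)] (.inr (.inl e)) (.inl (Y.ter e)) :=
          isPath_single.mpr ⟨rfl, rfl, hcC (self_mem_cl _), hcC (Or.inr (Or.inr rfl))⟩
        have := (Htpy.self_rev p1).symm.append_right p2
        exact this
      · -- side
        set a := (Y.bd f).get i with ha
        have hamem : a ∈ Y.bd f := List.get_mem _ _
        have hbd := hY.bd_path f (U := C₁ᶜ) (fun b hb => hcC₁ _ (mem_cl_src f hb))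
        obtain ⟨h3, h4, h5⟩ := isPath_getElem hbd i i.2
        have hcor0 : Y.sd.IsPath Cᶜ [cor Y f ⟨0, (hY.closed' f).choose⟩ true] (.inr (.inr f))
            (.inl (Y.src ((Y.bd f).get ⟨0, (hY.closed' f).choose⟩))) :=
          isPath_single.mpr ⟨rfl, rfl, hcC (self_mem_cl _),
            hcC (mem_cl_src f (List.get_mem _ _))⟩
        have ha2 : a.2 = true ∨ a.2 = false := by cases a.2 <;> simp
        rcases ha2 with ha2 | ha2
        · have hini : Y.ini a.1 = Y.src a := by simp [src, ha2]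
          have hdown : down Y (SdEdge.side f i) = (Y.bd f).take i := by
            show (if ((Y.bd f).get i).2 then _ else _) = _
            rw [← ha, ha2]; rfl
          rw [hdown]
          have e1 := tri_start hY f i hcC
          have e2 := up_htpy_take hY f hcC i
          have e3 := Htpy.append_left hcor0 e2
          have e4 : Htpy (Y := Y.sd) Cᶜ (.inr (.inr f)) (.inl (Y.src a))
              ([cor Y f ⟨0, (hY.closed' f).choose⟩ true] ++
                [cor Y f ⟨0, (hY.closed' f).choose⟩ false, cor Y f i true])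
              [cor Y f i true] := by
            have := (Htpy.self_rev hcor0).append_right e1.right
            exact this
          refine ⟨?_, ?_⟩
          · show Y.IsPath C₁ᶜ _ (Y.src ((Y.bd f).get ⟨0, _⟩)) (Y.ini a.1)
            rw [hini]; exact h3
          · show Htpy (Y := Y.sd) Cᶜ (.inr (.inr f)) (.inl (Y.ini a.1))
              [(SdEdge.side f i, true), (SdEdge.half a.1 false, true)] _
            rw [← ha, ha2] at e1
            rw [hini]
            exact e1.trans (e3.trans e4).symm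
        · have hini : Y.ini a.1 = Y.tgt a := by simp [tgt, ha2]
          have hdown : down Y (SdEdge.side f i) = (Y.bd f).take (i + 1) := by
            show (if ((Y.bd f).get i).2 then _ else _) = _
            rw [← ha, ha2]; rfl
          rw [hdown]
          have e1 := tri_end hY f i hcC
          have e2 := up_htpy hY f hcC i i.2
          have e3 := Htpy.append_left hcor0 e2
          have e4 : Htpy (Y := Y.sd) Cᶜ (.inr (.inr f)) (.inl (Y.tgt a))
              ([cor Y f ⟨0, (hY.closed' f).choose⟩ true] ++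
                [cor Y f ⟨0, (hY.closed' f).choose⟩ false, cor Y f (next i) true])
              [cor Y f (next i) true] := by
            have := (Htpy.self_rev hcor0).append_right e1.right
            exact this
          refine ⟨?_, ?_⟩
          · show Y.IsPath C₁ᶜ _ (Y.src ((Y.bd f).get ⟨0, _⟩)) (Y.ini a.1)
            rw [hini]
            have h6 : (Y.bd f).take (i + 1) = (Y.bd f).take i ++ [a] := by
              rw [List.take_add_one, List.getElem?_eq_getElem i.2]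
              rfl
            rw [h6]
            exact h3.append (isPath_single.mpr ⟨rfl, rfl, h4, h5.start_mem⟩)
          · show Htpy (Y := Y.sd) Cᶜ (.inr (.inr f)) (.inl (Y.ini a.1))
              [(SdEdge.side f i, true), (SdEdge.half a.1 false, true)] _
            rw [← ha, ha2] at e1
            rw [hini]
            exact e1.trans (e3.trans e4).symm
      · -- corner
        have hbd := hY.bd_path f (U := C₁ᶜ) (fun b hb => hcC₁ _ (mem_cl_src f hb))
        obtain ⟨h3, h4, h5⟩ := isPath_getElem hbd i i.2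
        refine ⟨h3, ?_⟩
        have hcor0 : Y.sd.IsPath Cᶜ [cor Y f ⟨0, (hY.closed' f).choose⟩ true] (.inr (.inr f))
            (.inl (Y.src ((Y.bd f).get ⟨0, (hY.closed' f).choose⟩))) :=
          isPath_single.mpr ⟨rfl, rfl, hcC (self_mem_cl _),
            hcC (mem_cl_src f (List.get_mem _ _))⟩
        have hcor : Y.sd.IsPath Cᶜ [cor Y f i true] (.inr (.inr f))
            (.inl (Y.src ((Y.bd f).get i))) :=
          isPath_single.mpr ⟨rfl, rfl, hcC (self_mem_cl _),
            hcC (mem_cl_src f (List.get_mem _ _))⟩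
        have e2 := up_htpy_take hY f hcC i
        have e3 := Htpy.append_left hcor0 e2
        have e4 : Htpy (Y := Y.sd) Cᶜ (.inr (.inr f)) (.inl (Y.src ((Y.bd f).get i)))
            ([cor Y f ⟨0, (hY.closed' f).choose⟩ true] ++
              [cor Y f ⟨0, (hY.closed' f).choose⟩ false, cor Y f i true])
            [cor Y f i true] := by
          have := (Htpy.self_rev hcor0).append_right hcor
          exact this
        exact (e3.trans e4).symm

lemma ter_mem_cl (e : Y.sd.E) : Y.sd.ter e ∈ Y.cl (Y.sd.ini e) := by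
  rcases e with ⟨e, _ | _⟩ | ⟨f, i⟩ | ⟨f, i⟩
  · exact Or.inr (Or.inl rfl)
  · exact Or.inr (Or.inr rfl)
  · exact mem_cl_edge_of_side f (List.get_mem _ _)
  · exact mem_cl_src f (List.get_mem _ _)

lemma finite_sd_edges (c : Y.sd.V) : {e : Y.sd.E | Y.sd.ini e = c}.Finite := by
  rcases c with v | e | f
  · refine Set.finite_empty.subset ?_
    rintro (⟨e, b⟩ | ⟨f, i⟩ | ⟨f, i⟩) h
    · have h' : (Sum.inr (Sum.inl e) : Y.V ⊕ Y.E ⊕ Y.F) = Sum.inl v := h
      exact absurd h' (by simp)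
    · have h' : (Sum.inr (Sum.inr f) : Y.V ⊕ Y.E ⊕ Y.F) = Sum.inl v := h
      exact absurd h' (by simp)
    · have h' : (Sum.inr (Sum.inr f) : Y.V ⊕ Y.E ⊕ Y.F) = Sum.inl v := h
      exact absurd h' (by simp)
  · refine (Set.finite_range (fun b : Bool => SdEdge.half e b)).subset ?_
    rintro (⟨e', b⟩ | ⟨f, i⟩ | ⟨f, i⟩) h
    · have h1 : e' = e := Sum.inl.inj (Sum.inr.inj h)
      subst h1
      exact ⟨b, rfl⟩
    · have h' : (Sum.inr (Sum.inr f) : Y.V ⊕ Y.E ⊕ Y.F) = Sum.inr (Sum.inl e) := h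
      exact absurd h' (by simp)
    · have h' : (Sum.inr (Sum.inr f) : Y.V ⊕ Y.E ⊕ Y.F) = Sum.inr (Sum.inl e) := h
      exact absurd h' (by simp)
  · refine ((Set.finite_range (fun i : Fin (Y.bd f).length => SdEdge.side f i)).union
      (Set.finite_range (fun i : Fin (Y.bd f).length => SdEdge.corner f i))).subset ?_
    rintro (⟨e', b⟩ | ⟨f', i⟩ | ⟨f', i⟩) h
    · have h' : (Sum.inr (Sum.inl e') : Y.V ⊕ Y.E ⊕ Y.F) = Sum.inr (Sum.inr f) := h
      exact absurd h' (by simp)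
    · have h1 : f' = f := Sum.inr.inj (Sum.inr.inj h)
      subst h1
      exact Or.inl ⟨i, rfl⟩
    · have h1 : f' = f := Sum.inr.inj (Sum.inr.inj h)
      subst h1
      exact Or.inr ⟨i, rfl⟩

lemma Good.locFin_sd (hY : Y.Good) : Y.sd.LocFin := by
  intro c
  have hSt : {c' | ∃ x ∈ ({c} : Set Y.sd.V), x ∈ Y.cl c'}.Finite :=
    hY.star_finite (Set.finite_singleton c)
  have h1 : (⋃ c' ∈ {c' | ∃ x ∈ ({c} : Set Y.sd.V), x ∈ Y.cl c'},
      {e : Y.sd.E | Y.sd.ini e = c'}).Finite := hSt.biUnion fun c' _ => finite_sd_edges c'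
  refine (h1.prod (Set.finite_univ : (Set.univ : Set Bool).Finite)).subset ?_
  rintro ⟨e, b⟩ hab
  refine ⟨?_, trivial⟩
  simp only [Set.mem_iUnion]
  refine ⟨Y.sd.ini e, ⟨c, rfl, ?_⟩, rfl⟩
  cases b with
  | false =>
    have : Y.sd.ter e = c := hab
    rw [← this]
    exact ter_mem_cl e
  | true =>
    have : Y.sd.ini e = c := hab
    rw [← this]
    exact self_mem_cl _

lemma take_succ_get (f : Y.F) (i : Fin (Y.bd f).length) :
    (Y.bd f).take (i + 1) = (Y.bd f).take i ++ [(Y.bd f).get i] := by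
  rw [List.take_add_one, List.getElem?_eq_getElem i.2]
  rfl

lemma down_isPath (hY : Y.Good) (e : Y.sd.E) {W : Set Y.V}
    (h : ∀ v : Y.V, (Sum.inl v : Y.sd.V) ∈ Y.cl (Y.sd.ini e) → v ∈ W) :
    Y.IsPath W (down Y e) (base Y hY (Y.sd.ini e)) (base Y hY (Y.sd.ter e)) := by
  rcases e with ⟨e, _ | _⟩ | ⟨f, i⟩ | ⟨f, i⟩
  · exact ⟨rfl, h _ (Or.inr (Or.inl rfl))⟩
  · exact isPath_single.mpr ⟨rfl, rfl, h _ (Or.inr (Or.inl rfl)), h _ (Or.inr (Or.inr rfl))⟩
  · set a := (Y.bd f).get i with ha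
    have hbd := hY.bd_path f (U := W) (fun b hb => h _ (mem_cl_src f hb))
    obtain ⟨h3, h4, h5⟩ := isPath_getElem hbd i i.2
    have ha2 : a.2 = true ∨ a.2 = false := by cases a.2 <;> simp
    rcases ha2 with ha2 | ha2
    · have hini : Y.ini a.1 = Y.src a := by simp [src, ha2]
      have hdown : down Y (SdEdge.side f i) = (Y.bd f).take i := by
        show (if ((Y.bd f).get i).2 then _ else _) = _
        rw [← ha, ha2]; rfl
      rw [hdown]
      show Y.IsPath W _ (Y.src ((Y.bd f).get ⟨0, _⟩)) (Y.ini a.1)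
      rw [hini]; exact h3
    · have hini : Y.ini a.1 = Y.tgt a := by simp [tgt, ha2]
      have hdown : down Y (SdEdge.side f i) = (Y.bd f).take (i + 1) := by
        show (if ((Y.bd f).get i).2 then _ else _) = _
        rw [← ha, ha2]; rfl
      rw [hdown]
      show Y.IsPath W _ (Y.src ((Y.bd f).get ⟨0, _⟩)) (Y.ini a.1)
      rw [hini, take_succ_get]
      exact h3.append (isPath_single.mpr ⟨rfl, rfl, h4, h5.start_mem⟩)
  · have hbd := hY.bd_path f (U := W) (fun b hb => h _ (mem_cl_src f hb))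
    obtain ⟨h3, h4, h5⟩ := isPath_getElem hbd i i.2
    exact h3

lemma tri_down (hY : Y.Good) (t : Y.sd.F) (u : Y.sd.V) {U : Set Y.sd.V} {W : Set Y.V}
    (hu : Y.sd.IsPath U (Y.sd.bd t) u u)
    (hW : ∀ v : Y.V, (Sum.inl v : Y.sd.V) ∈ Y.cl u → v ∈ W) :
    Htpy (Y := Y) W (base Y hY u) (base Y hY u) (mapPath (Y := Y.sd) (down Y) (Y.sd.bd t)) [] := by
  rcases t with ⟨f, i, b⟩
  have huf : u = .inr (.inr f) := by
    cases b
    · exact hu.1.symm
    · exact hu.1.symm
  subst huf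
  set a := (Y.bd f).get i with ha
  have hbd := hY.bd_path f (U := W) (fun b hb => hW _ (mem_cl_src f hb))
  obtain ⟨h3, h4, h5⟩ := isPath_getElem hbd i i.2
  have h3' : Y.IsPath W ((Y.bd f).take i) (Y.src ((Y.bd f).get ⟨0, (hY.closed' f).choose⟩))
    (Y.src a) := h3
  have hsucc : Y.IsPath W ((Y.bd f).take (i + 1))
      (Y.src ((Y.bd f).get ⟨0, (hY.closed' f).choose⟩)) (Y.tgt a) := by
    rw [take_succ_get]
    exact h3.append (isPath_single.mpr ⟨rfl, rfl, h4, h5.start_mem⟩)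
  have ha2 : a.2 = true ∨ a.2 = false := by cases a.2 <;> simp
  have hside : down Y (SdEdge.side f i) =
      if a.2 then (Y.bd f).take i else (Y.bd f).take (i + 1) := rfl
  cases b with
  | false =>
    have hmap : mapPath (Y := Y.sd) (down Y) (Y.sd.bd (SdFace.tri f i false)) =
        down Y (SdEdge.side f i) ++ (down Y (SdEdge.half a.1 (!a.2)) ++
          (rev ((Y.bd f).take i) ++ [])) := rfl
    rw [hmap, hside, List.append_nil]
    rcases ha2 with ha2 | ha2
    · rw [ha2]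
      exact Htpy.self_rev h3'
    · rw [ha2]
      have h6 : down Y (SdEdge.half a.1 (!false)) = [Y.flip a] := by
        show [(a.1, true)] = [(a.1, !a.2)]
        rw [ha2]; rfl
      rw [h6]
      have h7 : (if false = true then (Y.bd f).take i else (Y.bd f).take (i + 1)) =
          (Y.bd f).take i ++ [a] := by
        rw [if_neg (by simp), take_succ_get]
      rw [h7]
      have p1 : Y.IsPath W (((Y.bd f).take i ++ [a]) ++ ([Y.flip a] ++ rev ((Y.bd f).take i)))
          (Y.src ((Y.bd f).get ⟨0, (hY.closed' f).choose⟩))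
          (Y.src ((Y.bd f).get ⟨0, (hY.closed' f).choose⟩)) := by
        refine (h3'.append (isPath_single.mpr ⟨rfl, rfl, h3'.end_mem, hsucc.end_mem⟩)).append
          (IsPath.append (isPath_single.mpr ⟨src_flip a, tgt_flip a, hsucc.end_mem, h3'.end_mem⟩)
            h3'.rev)
      refine Htpy.trans (.step p1 (h3'.append h3'.rev) ?_) (Htpy.self_rev h3')
      have := Step.cancel (Y := Y) ((Y.bd f).take i) a (rev ((Y.bd f).take i))
      simpa using this
  | true =>
    have hmap : mapPath (Y := Y.sd) (down Y) (Y.sd.bd (SdFace.tri f i true)) =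
        down Y (SdEdge.side f i) ++ (down Y (SdEdge.half a.1 a.2) ++
          (rev ((Y.bd f).take (next i)) ++ [])) := rfl
    rw [hmap, hside, List.append_nil, ← List.append_assoc]
    have h8 : (if a.2 then (Y.bd f).take i else (Y.bd f).take (i + 1)) ++
        down Y (SdEdge.half a.1 a.2) = (Y.bd f).take (i + 1) := by
      rcases ha2 with ha2 | ha2
      · rw [ha2, take_succ_get]
        show (Y.bd f).take i ++ [(a.1, true)] = _
        have : (a.1, true) = a := by rw [← ha2]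
        rw [this]
      · rw [ha2]
        show (Y.bd f).take (i + 1) ++ [] = _
        rw [List.append_nil]
    rw [h8]
    by_cases hi : (i : ℕ) + 1 < (Y.bd f).length
    · have h9 : ((next i : Fin _) : ℕ) = i + 1 := by simp [next, Nat.mod_eq_of_lt hi]
      rw [h9]
      exact Htpy.self_rev hsucc
    · have hi' : (i : ℕ) + 1 = (Y.bd f).length := by have := i.2; omega
      have h9 : ((next i : Fin _) : ℕ) = 0 := by simp [next, hi']
      rw [h9, hi', List.take_length, List.take_zero]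
      show Htpy W _ _ (Y.bd f ++ []) []
      rw [List.append_nil]
      refine .step hbd ⟨rfl, hbd.start_mem⟩ ?_
      have := Step.face (Y := Y) [] f []
      simpa using this

lemma allT2_of_sd (hY : Y.Good) (hT : Y.sd.AllT2) : Y.AllT2 := by
  refine AllT2.transfer hT hY.locFin_sd (base Y hY) (fun v => (Sum.inl v : Y.sd.V)) (down Y) (up Y)
    (fun _ => []) ?_ ?_
  · intro C hC
    refine ⟨{c | ∃ c' ∈ Sum.inl '' C, c' ∈ Y.cl c}, hY.star_finite (hC.image _), ?_, ?_, ?_⟩
    · intro c hc hcC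
      refine hc ⟨.inl (base Y hY c), ⟨_, hcC, rfl⟩, ?_⟩
      rcases c with v | e | f
      · exact rfl
      · exact Or.inr (Or.inl rfl)
      · exact mem_cl_src f (List.get_mem _ _)
    · intro e h1 _
      exact down_isPath hY e fun v hv hvC => h1 ⟨_, ⟨v, hvC, rfl⟩, hv⟩
    · intro t u hu
      exact tri_down hY t u hu fun v hv hvC => hu.start_mem ⟨_, ⟨v, hvC, rfl⟩, hv⟩
  · intro C C₁ hC hC₁
    have hfin : (C ∪ base Y hY '' C₁).Finite := hC.union (hC₁.image _)
    refine ⟨C ∪ base Y hY '' C₁, hfin, ?_, ?_, ?_⟩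
    · intro v hv
      exact ⟨rfl, fun h => hv (Or.inl h)⟩
    · intro v hv hvC
      exact hv (Or.inr ⟨_, hvC, rfl⟩)
    · intro e h1 h2
      have h3 : Y.sd.IsPath C₁ᶜ (up Y e) (.inl (Y.ini e)) (.inl (Y.ter e)) := by
        refine ⟨rfl, fun h => h1 (Or.inr ⟨_, h, rfl⟩), rfl, ?_, rfl,
          fun h => h2 (Or.inr ⟨_, h, rfl⟩)⟩
        exact fun h => h1 (Or.inr ⟨_, h, rfl⟩)
      refine ⟨h3, ?_⟩
      exact .refl (isPath_single.mpr ⟨rfl, rfl, fun h => h1 (Or.inl h), fun h => h2 (Or.inl h)⟩)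

/-! ### Tameness of a complex -/

lemma exists_subcomplex {C : Set (Y.V ⊕ Y.E ⊕ Y.F)} (hC : C.Finite) :
    ∃ C' : Set (Y.V ⊕ Y.E ⊕ Y.F), C'.Finite ∧ C ⊆ C' ∧ Y.IsSubcomplex C' := by
  refine ⟨⋃ c ∈ C, Y.cl c, hC.biUnion fun c _ => cl_finite c, ?_, ?_, ?_⟩
  · intro c hc
    simp only [Set.mem_iUnion]
    exact ⟨c, hc, self_mem_cl c⟩
  · intro e he
    simp only [Set.mem_iUnion] at he ⊢
    obtain ⟨c, hc, hec⟩ := he
    rcases c with v | e' | f
    · exact absurd (Set.mem_singleton_iff.mp hec) (by simp)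
    · have h1 : e = e' := by
        rcases hec with h | h | h
        · exact Sum.inl.inj (Sum.inr.inj h)
        · exact absurd h (by simp)
        · exact absurd h (by simp)
      subst h1
      exact ⟨⟨_, hc, Or.inr (Or.inl rfl)⟩, ⟨_, hc, Or.inr (Or.inr rfl)⟩⟩
    · rcases hec with h | ⟨a, ha, h | h | h⟩
      · exact absurd h (by simp)
      · have h1 : e = a.1 := Sum.inl.inj (Sum.inr.inj h)
        subst h1
        rcases a with ⟨e', _ | _⟩
        · exact ⟨⟨_, hc, mem_cl_tgt f ha⟩, ⟨_, hc, mem_cl_src f ha⟩⟩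
        · exact ⟨⟨_, hc, mem_cl_src f ha⟩, ⟨_, hc, mem_cl_tgt f ha⟩⟩
      · exact absurd h (by simp)
      · exact absurd h (by simp)
  · intro f hf a ha
    simp only [Set.mem_iUnion] at hf ⊢
    obtain ⟨c, hc, hfc⟩ := hf
    rcases c with v | e' | f'
    · exact absurd (Set.mem_singleton_iff.mp hfc) (by simp)
    · rcases hfc with h | h | h
      · exact absurd h (by simp)
      · exact absurd h (by simp)
      · exact absurd h (by simp)
    · have h1 : f = f' := by
        rcases hfc with h | ⟨a, ha, h | h | h⟩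
        · exact Sum.inr.inj (Sum.inr.inj h)
        · exact absurd h (by simp)
        · exact absurd h (by simp)
        · exact absurd h (by simp)
      subst h1
      exact ⟨_, hc, mem_cl_edge_of_side f ha⟩

/-- tameness (all components of complements of finite subcomplexes have finitely generated
fundamental group) is equivalent to the coarse property. -/
lemma Good.tame_iff (hY : Y.Good) :
    (∀ C : Set (Y.V ⊕ Y.E ⊕ Y.F), C.Finite → Y.IsSubcomplex C → ∀ c : (Cᶜ : Set Y.sd.V),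
      Group.FG (Y.sd.Pi1 Cᶜ c)) ↔ Y.AllT2 := by
  constructor
  · intro h
    refine allT2_of_sd hY ?_
    intro C hC
    obtain ⟨C', hC', hCC', hsub⟩ := exists_subcomplex hC
    exact ⟨C', hC', hCC', (T1_of_fg (h C' hC' hsub)).mono hCC' subset_rfl⟩
  · intro h C hC _ c
    exact fg_of_T1 hY.locFin_sd ((allT2_sd hY h).allT1 hY.locFin_sd C hC) c

end TwoComplex

end Pool.Agent.Helper28.Tame
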