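import Pool.Agent.Helper28.Tame.Enrich

set_option autoImplicit false

namespace Pool.Agent.Helper28.Tame

open TwoComplex

universe u

section StepA

variable {G : Type u} [Group G] {X : Type} {val : X → G} {Ω : Type u} {act : Ω → G → Ω}
  {R : Set (List (X × Bool))}

/-- The stabiliser of a point. -/
def stab (h : IsAct act) (v : Ω) : Subgroup G where
  carrier := {g | act v g = v}
  mul_mem' := by
    intro a b ha hb
    show act v (a * b) = v
    rw [← h.mul, show act v a = v from ha, show act v b = v from hb]
  one_mem' := h.one v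
  inv_mem' := by
    intro a ha
    show act v a⁻¹ = v
    have := h.mul_inv v a
    rwa [show act v a = v from ha] at this

/-- Words with the same value give homotopic paths in any complex in which the homotopy relation
is complete. -/
def Complete (val : X → G) (act : Ω → G → Ω) (R : Set (List (X × Bool))) : Prop :=
  ∀ (v : Ω) (w w' : List (X × Bool)), wordVal val w = wordVal val w' →
    Htpy (Y := coverComplex val act R) Set.univ v (act v (wordVal val w))
      (lift val act v w) (lift val act v w')

lemma Presents.complete (hP : Presents val R) (h : IsAct act) : Complete val act R := by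
  intro v w w' hw
  obtain ⟨P, -, hP2⟩ := exists_htpy_of_eq hP hw
  exact hP2 Ω act h Set.univ v (fun _ _ => trivial)

lemma T1_empty (hC : Complete val act R) (hsurj : ∀ g, ∃ w, wordVal val w = g)
    (h : IsAct act) (v₀ : Ω) (htr : ∀ v, ∃ g, act v₀ g = v)
    (hfg : (stab h v₀).FG) : T2 (coverComplex val act R) ∅ ∅ := by
  classical
  intro E hE
  obtain ⟨S, hS⟩ := hfg
  choose gg hgg using htr
  choose W hW using hsurj
  have hinv : ∀ v, act v (gg v)⁻¹ = v₀ := fun v => by
    have := h.mul_inv v₀ (gg v)
    rwa [hgg] at this
  let D : Set Ω := (⋃ s ∈ S, (act v₀) '' preVals val (W s)) ∪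
    (⋃ u ∈ E, (act v₀) '' preVals val (W (gg u))) ∪ {v₀}
  have hD : D.Finite := ((S.finite_toSet.biUnion fun s _ => (preVals_finite _).image _).union
    (hE.biUnion fun u _ => (preVals_finite _).image _)).union (Set.finite_singleton _)
  have hkey : ∀ s ∈ stab h v₀, ∃ w, wordVal val w = s ∧
      (coverComplex val act R).IsPath D (lift val act v₀ w) v₀ v₀ := by
    intro s hs
    rw [← hS] at hs
    have hs' : ∀ s ∈ Subgroup.closure (S : Set G), act v₀ s = v₀ := by
      intro s hs
      rw [hS] at hs
      exact hs
    induction hs using Subgroup.closure_induction with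
    | mem s hs =>
      refine ⟨W s, hW s, ?_⟩
      have h1 := isPath_lift (val := val) (R := R) h (U := D) (v := v₀) (w := W s) (by
        intro g hg
        refine Or.inl (Or.inl ?_)
        simp only [Set.mem_iUnion]
        exact ⟨s, hs, g, hg, rfl⟩)
      rwa [hW, hs' s (Subgroup.subset_closure hs)] at h1
    | one => exact ⟨[], rfl, rfl, Or.inr rfl⟩
    | mul s t hs ht ih1 ih2 =>
      obtain ⟨w, h1, h2⟩ := ih1
      obtain ⟨w', h3, h4⟩ := ih2
      refine ⟨w ++ w', by simp [h1, h3], ?_⟩
      rw [lift_append h, h1, hs' s hs]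
      exact h2.append h4
    | inv s hs ih =>
      obtain ⟨w, h1, h2⟩ := ih
      refine ⟨invWord w, by simp [h1], ?_⟩
      have h3 := h2.rev
      rwa [rev_lift h, h1, hs' s hs] at h3
  refine ⟨D, hD, ?_⟩
  intro u hu v hv l hl
  obtain ⟨w, rfl, hvw⟩ := exists_word h hl
  have hs : gg u * wordVal val w * (gg v)⁻¹ ∈ stab h v₀ := by
    show act v₀ (gg u * wordVal val w * (gg v)⁻¹) = v₀
    rw [← h.mul, ← h.mul, hgg, ← hvw, hinv]
  obtain ⟨ws, h1, h2⟩ := hkey _ hs
  have hp : ∀ x ∈ E, (coverComplex val act R).IsPath D (lift val act v₀ (W (gg x))) v₀ x := by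
    intro x hx
    have h3 := isPath_lift (val := val) (R := R) h (U := D) (v := v₀) (w := W (gg x)) (by
      intro g hg
      refine Or.inl (Or.inr ?_)
      simp only [Set.mem_iUnion]
      exact ⟨x, hx, g, hg, rfl⟩)
    rwa [hW, hgg] at h3
  have h4 := (hp u hu).rev.append (h2.append (hp v hv))
  have h5 : rev (Y := coverComplex val act R) (lift val act v₀ (W (gg u))) ++
      (lift val act v₀ ws ++ lift val act v₀ (W (gg v))) =
      lift val act u (invWord (W (gg u)) ++ (ws ++ W (gg v))) := by
    rw [rev_lift h, hW, hgg, lift_append h, wordVal_inv, hW, hinv, lift_append h, h1]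
    rw [show act v₀ (gg u * wordVal val w * (gg v)⁻¹) = v₀ from hs]
  rw [h5] at h4
  refine ⟨lift val act u (invWord (W (gg u)) ++ (ws ++ W (gg v))), ?_, ?_⟩
  · refine h4.mono ?_
    intro x hx
    exact ⟨hx, by simp⟩
  · have h6 := hC u w (invWord (W (gg u)) ++ (ws ++ W (gg v))) (by
      rw [wordVal_append, wordVal_append, wordVal_inv, hW, hW, h1]
      group)
    rw [← hvw] at h6
    exact h6.mono (by simp)

end StepA

/-! ### The complex with a central generator -/

section Central

variable {G : Type u} [Group G] {X : Type} {val : X → G} {Ω : Type u} {act : Ω → G → Ω}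
  {R : Set (List (X × Bool))} {z : G} {Wz : List (X × Bool)}

/-- The new generator is sent to `z`. -/
abbrev cval (val : X → G) (z : G) : X ⊕ Unit → G := Sum.elim val (fun _ => z)

/-- commutator relators -/
def commRel (a : (X ⊕ Unit) × Bool) (s : Bool) : List ((X ⊕ Unit) × Bool) :=
  [a, (Sum.inr (), s), flipLetter a, flipLetter (Sum.inr (), s)]

/-- All relators of the enriched complex. -/
def cRel (R : Set (List (X × Bool))) (Wz : List (X × Bool)) : Set (List ((X ⊕ Unit) × Bool)) :=
  (mapWord Sum.inl '' R) ∪ {(Sum.inr (), true) :: invWord (mapWord Sum.inl Wz)} ∪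
    Set.range (fun p : ((X ⊕ Unit) × Bool) × Bool => commRel p.1 p.2)

lemma wordVal_mapWord_inl {Z : Type} (valZ : Z → G) (w : List (X × Bool)) :
    wordVal (Sum.elim val valZ) (mapWord Sum.inl w) = wordVal val w := by
  induction w with
  | nil => rfl
  | cons a w ih =>
    have : mapWord Sum.inl (a :: w) = ((Sum.inl a.1 : X ⊕ Z), a.2) :: mapWord Sum.inl w := rfl
    rw [this, wordVal_cons, wordVal_cons, ih]
    rfl

lemma letterVal_comm (hz : ∀ g, g * z = z * g) (a : (X ⊕ Unit) × Bool) (s : Bool) :
    letterVal (cval val z) a * letterVal (cval val z) (Sum.inr (), s) =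
      letterVal (cval val z) (Sum.inr (), s) * letterVal (cval val z) a := by
  have h1 : ∀ g, Commute g z := hz
  cases s with
  | false => exact (h1 _).inv_right
  | true => exact h1 _

lemma cRel_val (hz : ∀ g, g * z = z * g) (hR : ∀ r ∈ R, wordVal val r = 1)
    (hWz : wordVal val Wz = z) :
    ∀ r ∈ cRel R Wz, wordVal (cval val z) r = 1 := by
  rintro r ((⟨r, hr, rfl⟩ | rfl) | ⟨⟨a, s⟩, rfl⟩)
  · rw [cval, wordVal_mapWord_inl, hR r hr]
  · rw [wordVal_cons, wordVal_inv, cval, wordVal_mapWord_inl, hWz]
    simp [letterVal]
  · have := letterVal_comm (val := val) hz a s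
    simp only [commRel, wordVal_cons, wordVal_nil, letterVal_flip, mul_one]
    rw [← mul_assoc, this]
    group

/-- the `n`-fold move along the central generator (in direction `s`) -/
def zpath (val : X → G) (act : Ω → G → Ω) (z : G) (s : Bool) (v : Ω) (n : ℕ) :
    List ((Ω × (X ⊕ Unit)) × Bool) :=
  lift (cval val z) act v (List.replicate n (Sum.inr (), s))

/-- `z` or its inverse. -/
def zs (z : G) (s : Bool) : G := cond s z z⁻¹

lemma letterVal_z (s : Bool) : letterVal (cval val z) (Sum.inr (), s) = zs z s := by
  cases s <;> rfl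

lemma wordVal_replicate (s : Bool) (n : ℕ) :
    wordVal (cval val z) (List.replicate n (Sum.inr (), s)) = zs z s ^ n := by
  induction n with
  | zero => simp
  | succ n ih => rw [List.replicate_succ, wordVal_cons, ih, letterVal_z, pow_succ']

lemma zs_comm (hz : ∀ g, g * z = z * g) (s : Bool) (g : G) : g * zs z s = zs z s * g := by
  cases s with
  | false => exact (show Commute g z from hz g).inv_right
  | true => exact hz g

lemma zs_pow_comm (hz : ∀ g, g * z = z * g) (s : Bool) (n : ℕ) (g : G) :
    g * zs z s ^ n = zs z s ^ n * g :=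
  (show Commute g (zs z s) from zs_comm hz s g).pow_right n

lemma comm_htpy (h : IsAct act) (hz : ∀ g, g * z = z * g) {U : Set Ω} (u : Ω)
    (a : (X ⊕ Unit) × Bool) (s : Bool) (h1 : u ∈ U) (h2 : act u (letterVal (cval val z) a) ∈ U)
    (h3 : act u (zs z s) ∈ U) (h4 : act (act u (letterVal (cval val z) a)) (zs z s) ∈ U) :
    Htpy (Y := coverComplex (cval val z) act (cRel R Wz)) U u
      (act (act u (letterVal (cval val z) a)) (zs z s))
      (lift (cval val z) act u [a, (Sum.inr (), s)])
      (lift (cval val z) act u [(Sum.inr (), s), a]) := by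
  set K := coverComplex (cval val z) act (cRel R Wz)
  have hcomm : act (act u (zs z s)) (letterVal (cval val z) a) =
      act (act u (letterVal (cval val z) a)) (zs z s) := by
    rw [h.mul, h.mul, zs_comm hz]
  have p1 : K.IsPath U (lift (cval val z) act u [a, (Sum.inr (), s)]) u
      (act (act u (letterVal (cval val z) a)) (zs z s)) := by
    refine ⟨src_edgeAt _ _ h, h1, ?_⟩
    rw [tgt_edgeAt]
    refine ⟨src_edgeAt _ _ h, h2, ?_⟩
    rw [tgt_edgeAt, letterVal_z]
    exact ⟨rfl, h4⟩
  have p2 : K.IsPath U (lift (cval val z) act u [(Sum.inr (), s), a]) u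
      (act (act u (letterVal (cval val z) a)) (zs z s)) := by
    refine ⟨src_edgeAt _ _ h, h1, ?_⟩
    rw [tgt_edgeAt, letterVal_z]
    refine ⟨src_edgeAt _ _ h, h3, ?_⟩
    rw [tgt_edgeAt, hcomm]
    exact ⟨rfl, h4⟩
  -- p1 ++ rev p2 is the relator
  have hrel : lift (cval val z) act u [a, (Sum.inr (), s)] ++
      rev (Y := K) (lift (cval val z) act u [(Sum.inr (), s), a]) =
      K.bd (u, ⟨commRel a s, Or.inr ⟨(a, s), rfl⟩⟩) := by
    rw [rev_lift h]
    show _ = lift (cval val z) act u (commRel a s)
    have e1 : commRel a s = [a, (Sum.inr (), s)] ++ invWord [(Sum.inr (), s), a] := rfl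
    rw [e1, lift_append h]
    congr 2
    simp only [wordVal_cons, wordVal_nil, mul_one]
    rw [letterVal_comm hz]
  refine Htpy.cancel_right p2.rev p1 p2 ?_
  refine Htpy.trans ?_ (Htpy.self_rev p2).symm
  refine .step (p1.append p2.rev) ⟨rfl, h1⟩ ?_
  rw [hrel]
  have := Step.face (Y := K) [] (u, ⟨commRel a s, Or.inr ⟨(a, s), rfl⟩⟩) []
  simpa using this

/-- Push a path one step along the central generator. -/
lemma push_one (h : IsAct act) (hz : ∀ g, g * z = z * g) {U : Set Ω} (s : Bool)
    (w : List ((X ⊕ Unit) × Bool)) : ∀ (u : Ω),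
    (∀ g ∈ preVals (cval val z) w, act u g ∈ U ∧ act (act u g) (zs z s) ∈ U) →
    Htpy (Y := coverComplex (cval val z) act (cRel R Wz)) U u
      (act (act u (wordVal (cval val z) w)) (zs z s))
      (lift (cval val z) act u (w ++ [(Sum.inr (), s)]))
      (lift (cval val z) act u ((Sum.inr (), s) :: w)) := by
  induction w with
  | nil =>
    intro u hU
    have h1 := hU 1 ⟨[], List.nil_prefix, rfl⟩
    rw [h.one] at h1
    refine .refl ?_
    refine ⟨src_edgeAt _ _ h, h1.1, ?_⟩
    rw [tgt_edgeAt, letterVal_z, wordVal_nil, h.one]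
    exact ⟨rfl, h1.2⟩
  | cons a w ih =>
    intro u hU
    have h1 := hU 1 ⟨[], List.nil_prefix, rfl⟩
    rw [h.one] at h1
    have h2 := hU (letterVal (cval val z) a) ⟨[a], by simp, by simp⟩
    have h3 := ih (act u (letterVal (cval val z) a)) (by
      rintro g ⟨p, hp, rfl⟩
      have := hU (wordVal (cval val z) (a :: p)) ⟨a :: p, List.cons_prefix_cons.mpr ⟨rfl, hp⟩, rfl⟩
      rwa [wordVal_cons, ← h.mul] at this)
    have e1 : lift (cval val z) act u (a :: w ++ [(Sum.inr (), s)]) =
        lift (cval val z) act u [a] ++
          lift (cval val z) act (act u (letterVal (cval val z) a)) (w ++ [(Sum.inr (), s)]) := rfl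
    have pa : (coverComplex (cval val z) act (cRel R Wz)).IsPath U (lift (cval val z) act u [a]) u
        (act u (letterVal (cval val z) a)) := by
      refine ⟨src_edgeAt _ _ h, h1.1, ?_⟩
      rw [tgt_edgeAt]
      exact ⟨rfl, h2.1⟩
    have h4 := Htpy.append_left pa h3
    have h5 := comm_htpy (R := R) (Wz := Wz) h hz u a s h1.1 h2.1 h1.2 h2.2
    have e2 : act (act u (letterVal (cval val z) a)) (zs z s) =
        act (act u (zs z s)) (letterVal (cval val z) a) := by
      rw [h.mul, h.mul, zs_comm hz]
    have h6 : (coverComplex (cval val z) act (cRel R Wz)).IsPath U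
        (lift (cval val z) act (act (act u (letterVal (cval val z) a)) (zs z s)) w)
        (act (act u (letterVal (cval val z) a)) (zs z s))
        (act (act u (wordVal (cval val z) (a :: w))) (zs z s)) := by
      have := isPath_lift (val := cval val z) (R := cRel R Wz) h (U := U)
        (v := act (act u (letterVal (cval val z) a)) (zs z s)) (w := w) (by
          rintro g ⟨p, hp, rfl⟩
          have := (hU (wordVal (cval val z) (a :: p))
            ⟨a :: p, List.cons_prefix_cons.mpr ⟨rfl, hp⟩, rfl⟩).2
          rw [wordVal_cons] at this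
          rw [h.mul, h.mul]
          rw [h.mul] at this
          rwa [← zs_comm hz s (wordVal (cval val z) p), ← mul_assoc])
      have e3 : act (act (act u (letterVal (cval val z) a)) (zs z s))
          (wordVal (cval val z) w) =
          act (act u (wordVal (cval val z) (a :: w))) (zs z s) := by
        rw [h.mul, h.mul, h.mul, wordVal_cons, mul_assoc, ← zs_comm hz, ← mul_assoc]
      rwa [e3] at this
    have h7 := h5.append_right h6
    have e4 : act (act (act u (letterVal (cval val z) a)) (wordVal (cval val z) w)) (zs z s) =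
        act (act u (wordVal (cval val z) (a :: w))) (zs z s) := by
      rw [wordVal_cons, h.mul u]
    rw [e4] at h4
    rw [e1]
    refine h4.trans ?_
    have e5 : lift (cval val z) act u [a] ++ lift (cval val z) act
        (act u (letterVal (cval val z) a)) ((Sum.inr (), s) :: w) =
        lift (cval val z) act u [a, (Sum.inr (), s)] ++
        lift (cval val z) act (act (act u (letterVal (cval val z) a)) (zs z s)) w := by
      rw [lift_cons, lift_nil, lift_cons, lift_cons, lift_cons, lift_nil, letterVal_z]
      rfl
    have e6 : lift (cval val z) act u [(Sum.inr (), s), a] ++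
        lift (cval val z) act (act (act u (letterVal (cval val z) a)) (zs z s)) w =
        lift (cval val z) act u ((Sum.inr (), s) :: a :: w) := by
      rw [lift_cons, lift_cons, lift_nil, lift_cons, lift_cons, letterVal_z, e2]
      rfl
    rw [e5, ← e6]
    exact h7

/-- Push a path `n` steps along the central generator. -/
lemma push_n (h : IsAct act) (hz : ∀ g, g * z = z * g) {U : Set Ω} (s : Bool)
    (w : List ((X ⊕ Unit) × Bool)) (n : ℕ) : ∀ (u : Ω),
    (∀ g ∈ preVals (cval val z) w, ∀ k ≤ n, act (act u g) (zs z s ^ k) ∈ U) →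
    Htpy (Y := coverComplex (cval val z) act (cRel R Wz)) U u
      (act (act u (wordVal (cval val z) w)) (zs z s ^ n))
      (lift (cval val z) act u w ++ zpath val act z s (act u (wordVal (cval val z) w)) n)
      (zpath val act z s u n ++ lift (cval val z) act (act u (zs z s ^ n)) w) := by
  induction n with
  | zero =>
    intro u hU
    have := isPath_lift (val := cval val z) (R := cRel R Wz) h (U := U) (v := u) (w := w) (by
      intro g hg
      simpa [h.one] using hU g hg 0 le_rfl)
    simp only [zpath, List.replicate_zero, lift_nil, List.append_nil, pow_zero, h.one,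
      List.nil_append]
    exact .refl this
  | succ n ih =>
    intro u hU
    -- one step first
    have h1 := push_one (R := R) (Wz := Wz) h hz (U := U) s w u (by
      intro g hg
      refine ⟨by simpa [h.one] using hU g hg 0 (Nat.zero_le _),
        by simpa using hU g hg 1 (by omega)⟩)
    have h2 := ih (act u (zs z s)) (by
      intro g hg k hk
      have := hU g hg (k + 1) (by omega)
      rw [h.mul] at this
      rw [h.mul, h.mul, ← mul_assoc, ← zs_comm hz s g, mul_assoc, ← pow_succ']
      exact this)
    have e0 : act (act u (zs z s)) (wordVal (cval val z) w) =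
        act (act u (wordVal (cval val z) w)) (zs z s) := by
      rw [h.mul, h.mul, zs_comm hz]
    have e1 : lift (cval val z) act u (w ++ [(Sum.inr (), s)]) =
        lift (cval val z) act u w ++
          lift (cval val z) act (act u (wordVal (cval val z) w)) [(Sum.inr (), s)] :=
      lift_append h _ _ _
    have e2 : zpath val act z s (act u (wordVal (cval val z) w)) (n + 1) =
        lift (cval val z) act (act u (wordVal (cval val z) w)) [(Sum.inr (), s)] ++
          zpath val act z s (act (act u (wordVal (cval val z) w)) (zs z s)) n := by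
      rw [zpath, zpath, List.replicate_succ, lift_cons, lift_cons, lift_nil, letterVal_z]
      rfl
    have e3 : zpath val act z s u (n + 1) =
        lift (cval val z) act u [(Sum.inr (), s)] ++
          zpath val act z s (act u (zs z s)) n := by
      rw [zpath, zpath, List.replicate_succ, lift_cons, lift_cons, lift_nil, letterVal_z]
      rfl
    have e4 : act (act (act u (wordVal (cval val z) w)) (zs z s)) (zs z s ^ n) =
        act (act u (wordVal (cval val z) w)) (zs z s ^ (n + 1)) := by
      rw [h.mul (act u (wordVal (cval val z) w)), ← pow_succ']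
    have e5 : act (act u (zs z s)) (zs z s ^ n) = act u (zs z s ^ (n + 1)) := by
      rw [h.mul, ← pow_succ']
    rw [e0, e4, e5] at h2
    have hz1 : (coverComplex (cval val z) act (cRel R Wz)).IsPath U
        (zpath val act z s (act (act u (wordVal (cval val z) w)) (zs z s)) n)
        (act (act u (wordVal (cval val z) w)) (zs z s))
        (act (act u (wordVal (cval val z) w)) (zs z s ^ (n + 1))) := by
      obtain ⟨y, hy1, hy2⟩ := isPath_append.mp h2.left
      have := IsPath.eq_end h hy1
      rw [e0] at this
      rwa [this] at hy2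
    have h3 := h1.append_right hz1
    have hs1 : (coverComplex (cval val z) act (cRel R Wz)).IsPath U
        (lift (cval val z) act u [(Sum.inr (), s)]) u (act u (zs z s)) := by
      refine ⟨src_edgeAt _ _ h, ?_, ?_⟩
      · have := hU 1 ⟨[], List.nil_prefix, rfl⟩ 0 (Nat.zero_le _)
        simpa [h.one] using this
      · rw [tgt_edgeAt, letterVal_z]
        refine ⟨rfl, ?_⟩
        have := hU 1 ⟨[], List.nil_prefix, rfl⟩ 1 (by omega)
        simpa [h.one] using this
    have h4 := Htpy.append_left hs1 h2
    rw [e2, e3]
    rw [e1] at h3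
    have e6 : lift (cval val z) act u ((Sum.inr (), s) :: w) =
        lift (cval val z) act u [(Sum.inr (), s)] ++ lift (cval val z) act (act u (zs z s)) w := by
      rw [lift_cons, lift_cons, lift_nil, letterVal_z]
      rfl
    rw [e6] at h3
    simp only [List.append_assoc] at h3 h4 ⊢
    exact h3.trans h4

end Central

end Pool.Agent.Helper28.Tame
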