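import Pool.Agent.Helper28.Tame.Central

set_option autoImplicit false

namespace Pool.Agent.Helper28.Tame

open TwoComplex

universe u

section

variable {G : Type u} [Group G] {X : Type} {val : X → G} {Ω : Type u} {act : Ω → G → Ω}
  {R : Set (List (X × Bool))} {z : G} {Wz : List (X × Bool)}

lemma substWord_inl {Z : Type} (W : Z → List (X × Bool)) (w : List (X × Bool)) :
    substWord W (mapWord Sum.inl w) = w := by
  induction w with
  | nil => rfl
  | cons a w ih =>
    have : substWord W (mapWord Sum.inl (a :: w)) = [(a.1, a.2)] ++ substWord W (mapWord Sum.inl w) :=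
      rfl
    rw [this, ih]
    rfl

lemma mapWord_append {Z : Type} (φ : X → Z) (w w' : List (X × Bool)) :
    mapWord φ (w ++ w') = mapWord φ w ++ mapWord φ w' := by simp [mapWord]

lemma mapWord_inv {Z : Type} (φ : X → Z) (w : List (X × Bool)) :
    mapWord φ (invWord w) = invWord (mapWord φ w) := by
  simp only [mapWord, invWord, List.map_reverse, List.map_map]
  rfl

lemma htpy_substWord (h : IsAct act) (hWz : wordVal val Wz = z) (w : List ((X ⊕ Unit) × Bool)) :
    ∀ v : Ω, Htpy (Y := coverComplex (cval val z) act (cRel R Wz)) Set.univ v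
      (act v (wordVal (cval val z) w)) (lift (cval val z) act v w)
      (lift (cval val z) act v (mapWord Sum.inl (substWord (fun _ : Unit => Wz) w))) := by
  set K := coverComplex (cval val z) act (cRel R Wz)
  have hval : wordVal (cval val z) (mapWord Sum.inl Wz) = z := by
    rw [cval, wordVal_mapWord_inl, hWz]
  have hpos : ∀ v : Ω, Htpy (Y := K) Set.univ v (act v z)
      (lift (cval val z) act v [(Sum.inr (), true)])
      (lift (cval val z) act v (mapWord Sum.inl Wz)) := by
    intro v
    have p1 : K.IsPath Set.univ (lift (cval val z) act v [(Sum.inr (), true)]) v (act v z) := by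
      have := isPath_lift_univ (val := cval val z) (R := cRel R Wz) h v [(Sum.inr (), true)]
      simpa [letterVal] using this
    have p2 : K.IsPath Set.univ (lift (cval val z) act v (mapWord Sum.inl Wz)) v (act v z) := by
      have := isPath_lift_univ (val := cval val z) (R := cRel R Wz) h v (mapWord Sum.inl Wz)
      rwa [hval] at this
    refine Htpy.cancel_right p2.rev p1 p2 ?_
    refine Htpy.trans ?_ (Htpy.self_rev p2).symm
    refine .step (p1.append p2.rev) ⟨rfl, trivial⟩ ?_
    have hrel : lift (cval val z) act v [(Sum.inr (), true)] ++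
        rev (Y := K) (lift (cval val z) act v (mapWord Sum.inl Wz)) =
        K.bd (v, ⟨(Sum.inr (), true) :: invWord (mapWord Sum.inl Wz), Or.inl (Or.inr rfl)⟩) := by
      rw [rev_lift h, hval]
      rfl
    rw [hrel]
    have := Step.face (Y := K) [] (v, ⟨(Sum.inr (), true) :: invWord (mapWord Sum.inl Wz),
      Or.inl (Or.inr rfl)⟩) []
    simpa using this
  induction w with
  | nil => intro v; exact .refl ⟨by simp [h.one], trivial⟩
  | cons a w ih =>
    intro v
    have hletter : Htpy (Y := K) Set.univ v (act v (letterVal (cval val z) a))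
        (lift (cval val z) act v [a])
        (lift (cval val z) act v (mapWord Sum.inl (substLetter (fun _ : Unit => Wz) a))) := by
      rcases a with ⟨x | ⟨⟩, _ | _⟩
      · have := isPath_lift_univ (val := cval val z) (R := cRel R Wz) h v [(Sum.inl x, false)]
        simp only [wordVal_cons, wordVal_nil, mul_one] at this
        exact .refl this
      · have := isPath_lift_univ (val := cval val z) (R := cRel R Wz) h v [(Sum.inl x, true)]
        simp only [wordVal_cons, wordVal_nil, mul_one] at this
        exact .refl this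
      · have h1 := (hpos (act v z⁻¹)).rev
        rw [rev_lift h, rev_lift h, hval, h.inv_mul] at h1
        have e1 : act (act v z⁻¹) (wordVal (cval val z) [(Sum.inr (), true)]) = v := by
          simp [letterVal, h.inv_mul]
        rw [e1] at h1
        have e2 : mapWord (Sum.inl : X → X ⊕ Unit)
            (substLetter (fun _ : Unit => Wz) (Sum.inr (), false)) =
            invWord (mapWord Sum.inl Wz) := mapWord_inv _ _
        rw [e2]
        exact h1
      · exact hpos v
    have h1 := hletter.append (ih (act v (letterVal (cval val z) a)))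
    rw [h.mul, ← wordVal_cons] at h1
    have e1 : mapWord (Sum.inl : X → X ⊕ Unit) (substWord (fun _ : Unit => Wz) (a :: w)) =
        mapWord Sum.inl (substLetter (fun _ : Unit => Wz) a) ++
          mapWord Sum.inl (substWord (fun _ : Unit => Wz) w) := by
      rw [← mapWord_append]
      rfl
    have e2 : wordVal (cval val z) (mapWord Sum.inl (substLetter (fun _ : Unit => Wz) a)) =
        letterVal (cval val z) a := by
      rw [cval, wordVal_mapWord_inl, wordVal_substLetter (valZ := fun _ => z) (fun _ => hWz)]
    rw [e1, lift_append h, e2]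
    exact h1

lemma cRel_complete (hP : Presents val R) (h : IsAct act) (hWz : wordVal val Wz = z) :
    Complete (cval val z) act (cRel R Wz) := by
  intro v w w' hw
  have h1 := htpy_substWord (R := R) h hWz w v
  have h2 := htpy_substWord (R := R) h hWz w' v
  have h3 : wordVal val (substWord (fun _ : Unit => Wz) w) =
      wordVal val (substWord (fun _ : Unit => Wz) w') := by
    rw [wordVal_substWord (valZ := fun _ => z) (fun _ => hWz),
      wordVal_substWord (valZ := fun _ => z) (fun _ => hWz)]
    exact hw
  have h4 := hP.complete h v _ _ h3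
  have hf : ∀ (v : Ω) (x : X), id (act v (val x)) = act (id v) (cval val z (Sum.inl x)) :=
    fun v x => rfl
  have hm := isMap_strict (R := R) (R₂ := cRel R Wz) h h (id : Ω → Ω) (Sum.inl : X → X ⊕ Unit) hf
    (fun r hr => Or.inl (Or.inl ⟨r, hr, rfl⟩)) Set.univ Set.univ (fun _ _ => trivial)
  have h5 := hm.htpy h4
  rw [mapPath_strict (R := R) (R₂ := cRel R Wz) h h id Sum.inl hf,
    mapPath_strict (R := R) (R₂ := cRel R Wz) h h id Sum.inl hf] at h5
  have e1 : wordVal val (substWord (fun _ : Unit => Wz) w) = wordVal (cval val z) w :=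
    wordVal_substWord (valZ := fun _ => z) (fun _ => hWz) w
  rw [e1] at h5
  rw [← hw] at h2
  exact h1.trans (h5.trans h2.symm)

lemma mapWord_id (w : List (X × Bool)) : mapWord id w = w := by simp [mapWord]

/-- The shift by a power of the central element. -/
lemma shift_htpy (h : IsAct act) (hz : ∀ g, g * z = z * g) (s : Bool) (n : ℕ) {P U : Set Ω}
    (hPU : ∀ v ∈ P, act v (zs z s ^ n) ∈ U) {u v : Ω} {w w' : List ((X ⊕ Unit) × Bool)}
    (hw : Htpy (Y := coverComplex (cval val z) act (cRel R Wz)) P u v
      (lift (cval val z) act u w) (lift (cval val z) act u w')) :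
    Htpy (Y := coverComplex (cval val z) act (cRel R Wz)) U (act u (zs z s ^ n))
      (act v (zs z s ^ n)) (lift (cval val z) act (act u (zs z s ^ n)) w)
      (lift (cval val z) act (act u (zs z s ^ n)) w') := by
  have hf : ∀ (v : Ω) (x : X ⊕ Unit), act (act v (cval val z x)) (zs z s ^ n) =
      act (act v (zs z s ^ n)) (cval val z (id x)) := fun v x => by
    rw [h.mul, h.mul, zs_pow_comm hz]; rfl
  have hm := isMap_strict (R := cRel R Wz) (R₂ := cRel R Wz) h h
    (fun v => act v (zs z s ^ n)) id hf
    (fun r hr => by rwa [mapWord_id]) U P hPU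
  have h5 := hm.htpy hw
  rw [mapPath_strict (R := cRel R Wz) (R₂ := cRel R Wz) h h _ id hf,
    mapPath_strict (R := cRel R Wz) (R₂ := cRel R Wz) h h _ id hf, mapWord_id, mapWord_id] at h5
  exact h5

lemma isPath_zpath (h : IsAct act) (s : Bool) (n : ℕ) {U : Set Ω} {v : Ω}
    (hU : ∀ k ≤ n, act v (zs z s ^ k) ∈ U) :
    (coverComplex (cval val z) act (cRel R Wz)).IsPath U (zpath val act z s v n) v
      (act v (zs z s ^ n)) := by
  have := isPath_lift (val := cval val z) (R := cRel R Wz) h (U := U) (v := v)
    (w := List.replicate n (Sum.inr (), s)) (by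
      rintro g ⟨p, hp, rfl⟩
      have hp' : p = List.replicate p.length (Sum.inr (), s) := by
        rw [List.eq_replicate_iff]
        refine ⟨rfl, fun b hb => ?_⟩
        exact List.eq_of_mem_replicate (hp.subset hb)
      have hle : p.length ≤ n := by
        have := hp.length_le
        simpa using this
      rw [hp', wordVal_replicate]
      exact hU _ hle)
  rwa [wordVal_replicate] at this

/-- Half-spaces that are closed under the central move and absorbing satisfy the finiteness
property. -/
lemma half_T (h : IsAct act) (hz : ∀ g, g * z = z * g)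
    (h0 : T2 (coverComplex (cval val z) act (cRel R Wz)) ∅ ∅) (s : Bool) (U : Set Ω)
    (hU1 : ∀ v ∈ U, act v (zs z s) ∈ U) (hU2 : ∀ v : Ω, ∃ k : ℕ, act v (zs z s ^ k) ∈ U)
    (E : Set Ω) (hE : E.Finite) :
    ∃ D : Set Ω, D.Finite ∧ ∀ u ∈ E, ∀ v ∈ E, ∀ l,
      (coverComplex (cval val z) act (cRel R Wz)).IsPath U l u v →
      ∃ l', (coverComplex (cval val z) act (cRel R Wz)).IsPath (D ∩ U) l' u v ∧
        Htpy (Y := coverComplex (cval val z) act (cRel R Wz)) U u v l l' := by
  set K := coverComplex (cval val z) act (cRel R Wz)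
  have hU1' : ∀ (k : ℕ) (v : Ω), v ∈ U → act v (zs z s ^ k) ∈ U := by
    intro k
    induction k with
    | zero => intro v hv; simpa [h.one] using hv
    | succ k ih =>
      intro v hv
      have := ih _ (hU1 v hv)
      rwa [h.mul, ← pow_succ'] at this
  have hU3 : ∀ P : Set Ω, P.Finite → ∃ M : ℕ, ∀ v ∈ P, ∀ k, M ≤ k → act v (zs z s ^ k) ∈ U := by
    intro P hP
    choose kk hkk using hU2
    obtain ⟨M, hM⟩ := (hP.image kk).bddAbove
    refine ⟨M, fun v hv k hk => ?_⟩
    have h1 : kk v ≤ k := (hM ⟨v, hv, rfl⟩).trans hk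
    have h2 := hU1' (k - kk v) _ (hkk v)
    rwa [h.mul, ← pow_add, show kk v + (k - kk v) = k by omega] at h2
  obtain ⟨D₀, hD₀, hD₀2⟩ := h0 E hE
  obtain ⟨M, hM⟩ := hU3 D₀ hD₀
  refine ⟨⋃ k ∈ Set.Iic M, (fun v => act v (zs z s ^ k)) '' (D₀ ∪ E),
    (Set.finite_Iic M).biUnion fun k _ => (hD₀.union hE).image _, ?_⟩
  set D := ⋃ k ∈ Set.Iic M, (fun v => act v (zs z s ^ k)) '' (D₀ ∪ E)
  have hDmem : ∀ k ≤ M, ∀ v, v ∈ D₀ ∪ E → act v (zs z s ^ k) ∈ D := by
    intro k hk v hv
    simp only [D, Set.mem_iUnion]
    exact ⟨k, hk, v, hv, rfl⟩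
  intro u hu v hv l hl
  obtain ⟨w, rfl, hvw⟩ := exists_word h hl
  obtain ⟨l₀, h1, h2⟩ := hD₀2 u hu v hv _ (hl.mono (by simp))
  obtain ⟨w₀, rfl, hvw₀⟩ := exists_word h h1
  obtain ⟨P, hP1, -, hP2⟩ := h2.exists_finite
  obtain ⟨M', hM'⟩ := hU3 P hP1
  set m := max M M'
  have hu0 := hl.start_mem
  have hv0 := hl.end_mem
  -- the homotopy shifted up by m
  have h3 := shift_htpy (R := R) (Wz := Wz) h hz s m (P := P) (U := U)
    (fun x hx => hM' x hx m (le_max_right _ _)) hP2
  -- push l up by m
  have h4 := push_n (R := R) (Wz := Wz) h hz (U := U) s w m u (by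
    intro g hg k _
    exact hU1' k _ (IsPath.pre_mem h hl g hg))
  rw [← hvw] at h4
  -- push the path l₀, shifted by M, up by m - M
  have h5 := push_n (R := R) (Wz := Wz) h hz (U := U) s w₀ (m - M) (act u (zs z s ^ M)) (by
    intro g hg k _
    have h6 := hM _ (IsPath.pre_mem h h1 g hg).1 (M + k) (by omega)
    rw [h.mul] at h6
    rw [h.mul, h.mul, ← mul_assoc, mul_assoc, ← zs_pow_comm hz s M, mul_assoc, ← pow_add,
      add_comm k M]
    exact h6)
  have e1 : act (act u (zs z s ^ M)) (wordVal (cval val z) w₀) = act v (zs z s ^ M) := by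
    rw [hvw₀, h.mul, h.mul, zs_pow_comm hz]
  rw [e1] at h5
  have e2 : ∀ x : Ω, act (act x (zs z s ^ M)) (zs z s ^ (m - M)) = act x (zs z s ^ m) := by
    intro x
    rw [h.mul, ← pow_add, show M + (m - M) = m from Nat.add_sub_cancel' (le_max_left _ _)]
  rw [e2, e2] at h5
  -- the paths along z
  have hzu : K.IsPath U (zpath val act z s u m) u (act u (zs z s ^ m)) :=
    isPath_zpath h s m fun k _ => hU1' k _ hu0
  have hzv : K.IsPath U (zpath val act z s v m) v (act v (zs z s ^ m)) :=
    isPath_zpath h s m fun k _ => hU1' k _ hv0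
  have hzuM : K.IsPath (D ∩ U) (zpath val act z s u M) u (act u (zs z s ^ M)) :=
    isPath_zpath h s M fun k hk => ⟨hDmem k hk u (Or.inr hu), hU1' k _ hu0⟩
  have hzvM : K.IsPath (D ∩ U) (zpath val act z s v M) v (act v (zs z s ^ M)) :=
    isPath_zpath h s M fun k hk => ⟨hDmem k hk v (Or.inr hv), hU1' k _ hv0⟩
  have hsplit : ∀ x : Ω, zpath val act z s x m =
      zpath val act z s x M ++ zpath val act z s (act x (zs z s ^ M)) (m - M) := by
    intro x
    have : List.replicate m ((Sum.inr () : X ⊕ Unit), s) =
        List.replicate M (Sum.inr (), s) ++ List.replicate (m - M) (Sum.inr (), s) := by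
      rw [List.replicate_append_replicate, Nat.add_sub_cancel' (le_max_left M M')]
    rw [zpath, this, lift_append h, wordVal_replicate]
    rfl
  -- the middle path at level M
  have hmid : K.IsPath (D ∩ U) (lift (cval val z) act (act u (zs z s ^ M)) w₀)
      (act u (zs z s ^ M)) (act v (zs z s ^ M)) := by
    have := isPath_lift (val := cval val z) (R := cRel R Wz) h (U := D ∩ U)
      (v := act u (zs z s ^ M)) (w := w₀) (by
        intro g hg
        have h6 := (IsPath.pre_mem h h1 g hg).1
        have e3 : act (act u (zs z s ^ M)) g = act (act u g) (zs z s ^ M) := by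
          rw [h.mul, h.mul, zs_pow_comm hz]
        rw [e3]
        exact ⟨hDmem M le_rfl _ (Or.inl h6), hM _ h6 M le_rfl⟩)
    rwa [e1] at this
  refine ⟨zpath val act z s u M ++ (lift (cval val z) act (act u (zs z s ^ M)) w₀ ++
    rev (Y := K) (zpath val act z s v M)), hzuM.append (hmid.append hzvM.rev), ?_⟩
  -- conclude: both become homotopic after appending the z-path at v
  have hend : K.IsPath U (zpath val act z s u M ++ (lift (cval val z) act (act u (zs z s ^ M)) w₀ ++
    rev (Y := K) (zpath val act z s v M))) u v :=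
    (hzuM.append (hmid.append hzvM.rev)).mono Set.inter_subset_right
  refine Htpy.cancel_right hzv hl hend ?_
  refine h4.trans ((Htpy.append_left hzu h3).trans ?_)
  have hzuM' := hzuM.mono (Set.inter_subset_right (s := D) (t := U))
  have hzvM' := hzvM.mono (Set.inter_subset_right (s := D) (t := U))
  have hmid' := hmid.mono (Set.inter_subset_right (s := D) (t := U))
  have h7 := (Htpy.append_left hzuM' h5).symm
  rw [hsplit u, hsplit v]
  have hz2 : K.IsPath U (zpath val act z s (act v (zs z s ^ M)) (m - M)) (act v (zs z s ^ M))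
      (act v (zs z s ^ m)) := by
    have := hsplit v ▸ hzv
    obtain ⟨y, hy1, hy2⟩ := isPath_append.mp this
    have := hy1.end_unique hzvM'
    rwa [this] at hy2
  have h8 := Htpy.append_left (hzuM'.append hmid')
    ((Htpy.rev_self hzvM').append_right hz2)
  simp only [List.append_assoc, List.nil_append] at h7 h8 ⊢
  exact h7.trans h8.symm

end

end Pool.Agent.Helper28.Tame
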