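import Pool.Agent.Helper28.Tame.Central2

set_option autoImplicit false

namespace Pool.Agent.Helper28.Tame

open TwoComplex

universe u

section

variable {G : Type u} [Group G] {X : Type} {val : X → G} {Ω : Type u} {act : Ω → G → Ω}
  {R : Set (List (X × Bool))} {z : G} {Wz : List (X × Bool)}

lemma exists_height (h : IsAct act) (hfree : ∀ (v : Ω) (n : ℤ), act v (z ^ n) = v → n = 0) :
    ∃ ht : Ω → ℤ, ∀ v (n : ℤ), ht (act v (z ^ n)) = ht v + n := by
  classical
  let st : Setoid Ω :=
    { r := fun v w => ∃ n : ℤ, w = act v (z ^ n)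
      iseqv :=
        { refl := fun v => ⟨0, by simp [h.one]⟩
          symm := by
            rintro v w ⟨n, rfl⟩
            refine ⟨-n, ?_⟩
            rw [zpow_neg, h.mul_inv]
          trans := by
            rintro v w x ⟨n, rfl⟩ ⟨m, rfl⟩
            exact ⟨n + m, by rw [h.mul, zpow_add]⟩ } }
  have hrep : ∀ v : Ω, ∃ n : ℤ, v = act (Quotient.out (Quotient.mk st v)) (z ^ n) := by
    intro v
    exact Quotient.mk_out (s := st) v
  choose ht hht using hrep
  refine ⟨ht, ?_⟩
  intro v n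
  have h1 := hht (act v (z ^ n))
  have h2 : Quotient.mk st (act v (z ^ n)) = Quotient.mk st v := by
    refine Quotient.sound ?_
    exact st.symm ⟨n, rfl⟩
  rw [h2] at h1
  have h3 := hht v
  set x := Quotient.out (Quotient.mk st v)
  have h4 : act x (z ^ (ht v + n)) = act x (z ^ (ht (act v (z ^ n)))) := by
    rw [← h1, zpow_add, ← h.mul, ← h3]
  have h5 : act (act x (z ^ (ht (act v (z ^ n))))) (z ^ ((ht v + n) - ht (act v (z ^ n)))) =
      act x (z ^ (ht (act v (z ^ n)))) := by
    rw [h.mul, ← zpow_add]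
    rw [show ht (act v (z ^ n)) + (ht v + n - ht (act v (z ^ n))) = ht v + n by ring]
    exact h4
  have h6 := hfree _ _ h5
  linarith

/-- The `z`-saturation of a set. -/
def sat (act : Ω → G → Ω) (z : G) (F : Set Ω) : Set Ω := {v | ∃ c ∈ F, ∃ n : ℤ, v = act c (z ^ n)}

lemma mem_sat_act (h : IsAct act) (F : Set Ω) (v : Ω) (n : ℤ) :
    act v (z ^ n) ∈ sat act z F ↔ v ∈ sat act z F := by
  constructor
  · rintro ⟨c, hc, m, hm⟩
    refine ⟨c, hc, m - n, ?_⟩
    rw [zpow_sub, ← h.mul, ← hm, h.mul_inv]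
  · rintro ⟨c, hc, m, rfl⟩
    exact ⟨c, hc, m + n, by rw [h.mul, zpow_add]⟩

/-- sign -/
def sg (s : Bool) : ℤ := cond s 1 (-1)

lemma zs_eq (s : Bool) : zs z s = z ^ (sg s) := by cases s <;> simp [zs, sg]

lemma zs_pow_eq (s : Bool) (n : ℕ) : zs z s ^ n = z ^ (sg s * n) := by
  rw [zs_eq, zpow_mul, zpow_natCast]

/-- Main theorem on central elements: the coarse property holds when a central element acts freely. -/
theorem allT2_central [Finite X] (hP : Presents val R) (hR : R.Finite) (h : IsAct act)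
    (hz : ∀ g, g * z = z * g) (hfree : ∀ (v : Ω) (n : ℤ), act v (z ^ n) = v → n = 0)
    (v₀ : Ω) (htr : ∀ v, ∃ g, act v₀ g = v) (hfg : (stab h v₀).FG) :
    (coverComplex val act R).AllT2 := by
  classical
  obtain ⟨Wz, hWz⟩ := hP.exists_wordVal z
  have hRval : ∀ r ∈ R, wordVal val r = 1 := by
    intro r hr
    rw [← lift_mk_eq, ← MonoidHom.mem_ker, hP.ker]
    exact Subgroup.subset_normalClosure ⟨r, hr, rfl⟩
  have hfinR : (cRel R Wz).Finite := by
    refine ((hR.image _).union (Set.finite_singleton _)).union (Set.finite_range _)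
  refine AllT2.of_enrich (Z := Unit) (valZ := fun _ => z) hP h hfinR (cRel_val hz hRval hWz) ?_
  show (coverComplex (cval val z) act (cRel R Wz)).AllT2
  set K := coverComplex (cval val z) act (cRel R Wz) with hK
  have hsurj : ∀ g, ∃ w, wordVal (cval val z) w = g := by
    intro g
    obtain ⟨w, hw⟩ := hP.exists_wordVal g
    exact ⟨mapWord Sum.inl w, by rw [cval, wordVal_mapWord_inl, hw]⟩
  have h0 : T2 K ∅ ∅ := T1_empty (cRel_complete hP h hWz) hsurj h v₀ htr hfg
  obtain ⟨ht, hht⟩ := exists_height h hfree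
  intro C₀ hC₀
  -- the finite set of orbits
  let F : Set Ω := C₀ ∪ {v₀}
  have hF : F.Finite := hC₀.union (Set.finite_singleton _)
  -- the jump bound
  obtain ⟨J, hJ⟩ : ∃ J : ℤ, ∀ c ∈ F, ∀ a : (X ⊕ Unit) × Bool,
      |ht (act c (letterVal (cval val z) a)) - ht c| ≤ J := by
    have hfin : (F ×ˢ (Set.univ : Set ((X ⊕ Unit) × Bool))).Finite := hF.prod Set.finite_univ
    obtain ⟨J, hJ⟩ := (hfin.image (fun p => |ht (act p.1 (letterVal (cval val z) p.2)) - ht p.1|)).bddAbove
    exact ⟨J, fun c hc a => hJ ⟨(c, a), ⟨hc, trivial⟩, rfl⟩⟩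
  obtain ⟨M, hM⟩ : ∃ M : ℤ, ∀ c ∈ F, |ht c| ≤ M := by
    obtain ⟨M, hM⟩ := (hF.image (fun c => |ht c|)).bddAbove
    exact ⟨M, fun c hc => hM ⟨c, hc, rfl⟩⟩
  obtain ⟨N, hN0, hNJ, hNM⟩ : ∃ N : ℤ, 0 ≤ N ∧ J ≤ N ∧ M ≤ N :=
    ⟨max 0 (max J M), le_max_left _ _, (le_max_left _ _).trans (le_max_right _ _),
      (le_max_right _ _).trans (le_max_right _ _)⟩
  set S := sat act z F with hS
  have hjump : ∀ v ∈ S, ∀ a : (X ⊕ Unit) × Bool,
      |ht (act v (letterVal (cval val z) a)) - ht v| ≤ J := by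
    rintro v ⟨c, hc, n, rfl⟩ a
    have hzn : ∀ g, g * z ^ n = z ^ n * g := fun g =>
      (show Commute g z from hz g).zpow_right n
    have h1 : act (act c (z ^ n)) (letterVal (cval val z) a) =
        act (act c (letterVal (cval val z) a)) (z ^ n) := by
      rw [h.mul, h.mul, hzn]
    rw [h1, hht, hht]
    have := hJ c hc a
    rwa [show ht (act c (letterVal (cval val z) a)) + n - (ht c + n) =
      ht (act c (letterVal (cval val z) a)) - ht c by ring]
  let C : Set Ω := {v | v ∈ S ∧ |ht v| ≤ N}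
  have hCfin : C.Finite := by
    refine (hF.biUnion (t := fun c => (fun n : ℤ => act c (z ^ n)) ''
      Set.Icc (-N - ht c) (N - ht c)) fun c _ => (Set.finite_Icc _ _).image _).subset ?_
    rintro v ⟨⟨c, hc, n, rfl⟩, hv⟩
    simp only [Set.mem_iUnion]
    refine ⟨c, hc, n, ?_, rfl⟩
    rw [hht, abs_le] at hv
    exact ⟨by linarith [hv.1], by linarith [hv.2]⟩
  have hC₀C : C₀ ⊆ C := by
    intro v hv
    refine ⟨⟨v, Or.inl hv, 0, by simp [h.one]⟩, (hM v (Or.inl hv)).trans hNM⟩
  refine ⟨C, hCfin, hC₀C, ?_⟩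
  suffices hT : T2 K C C from hT.mono hC₀C subset_rfl
  -- the two half spaces
  let U : Bool → Set Ω := fun s => {v | v ∈ S → N < sg s * ht v}
  have hUC : ∀ s, U s ⊆ Cᶜ := by
    rintro s v hv ⟨hvS, hvN⟩
    have := hv hvS
    rw [abs_le] at hvN
    cases s
    · simp only [sg, cond_false] at this; linarith [hvN.1]
    · simp only [sg, cond_true] at this; linarith [hvN.2]
  have hcover : ∀ v ∈ Cᶜ, ∃ s, v ∈ U s := by
    intro v hv
    by_cases hvS : v ∈ S
    · have : ¬ |ht v| ≤ N := fun hle => hv ⟨hvS, hle⟩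
      rw [not_le, lt_abs] at this
      rcases this with h1 | h1
      · exact ⟨true, fun _ => by simpa [sg] using h1⟩
      · exact ⟨false, fun _ => by simpa [sg] using h1⟩
    · exact ⟨true, fun h => absurd h hvS⟩
  have hSU : ∀ s, Sᶜ ⊆ U s := fun s v hv hvS => absurd hvS hv
  have hsgsq : ∀ s, sg s * sg s = 1 := by intro s; cases s <;> simp [sg]
  have hU1 : ∀ s, ∀ v ∈ U s, act v (zs z s) ∈ U s := by
    intro s v hv hvS
    rw [zs_eq] at hvS ⊢
    rw [mem_sat_act h] at hvS
    have := hv hvS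
    rw [hht, mul_add, hsgsq]
    linarith
  have hU2 : ∀ s, ∀ v : Ω, ∃ k : ℕ, act v (zs z s ^ k) ∈ U s := by
    intro s v
    refine ⟨(N - sg s * ht v).toNat + 1, ?_⟩
    intro _
    rw [zs_pow_eq, hht, mul_add, ← mul_assoc, hsgsq]
    have := Int.self_le_toNat (N - sg s * ht v)
    push_cast
    linarith
  -- finitely many components of the complement of S
  let B : Set Ω := (fun p : Ω × ((X ⊕ Unit) × Bool) => act p.1 (letterVal (cval val z) p.2)) ''
    (F ×ˢ Set.univ)
  have hB : B.Finite := (hF.prod Set.finite_univ).image _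
  have hreps : ∀ x ∈ Sᶜ, ∃ β ∈ B, ∃ σ, K.IsPath Sᶜ σ β x := by
    intro x hx
    obtain ⟨g, hg⟩ := htr x
    obtain ⟨w, hw⟩ := hsurj g
    have hpath : K.IsPath Set.univ (rev (Y := K) (lift (cval val z) act v₀ w)) x v₀ := by
      have := (isPath_lift_univ (val := cval val z) (R := cRel R Wz) h v₀ w).rev
      rwa [hw, hg] at this
    have hv₀ : v₀ ∈ S := ⟨v₀, Or.inr rfl, 0, by simp [h.one]⟩
    rcases hpath.split (A := Sᶜ) hx with h1 | ⟨l₁, b, l₃, -, h5, h6, h7, h8⟩
    · exact absurd hv₀ h1.end_mem.2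
    · have h6' : K.tgt b ∈ S := by simpa using h6
      obtain ⟨c, hc, n, hcn⟩ := h6'
      obtain ⟨a', ha'⟩ := exists_edgeAt (val := cval val z) (act := act) (R := cRel R Wz)
        (K.flip b) h
      have hsb : K.src b = act (K.tgt b) (letterVal (cval val z) a') := by
        have e1 : K.tgt (K.flip b) = act (K.src (K.flip b)) (letterVal (cval val z) a') := by
          conv_lhs => rw [ha']
          rw [tgt_edgeAt]
        rwa [tgt_flip, src_flip] at e1
      have hzn : ∀ g, g * z ^ n = z ^ n * g := fun g =>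
        (show Commute g z from hz g).zpow_right n
      have hsb2 : K.src b = act (act c (letterVal (cval val z) a')) (z ^ n) := by
        rw [hsb, hcn, h.mul, h.mul, hzn]
      set β := act c (letterVal (cval val z) a')
      have hβS : β ∉ S := by
        intro hβ
        have := h5.end_mem.2
        rw [hsb2] at this
        exact this ((mem_sat_act h _ _ _).mpr hβ)
      have hzp : ∃ σ, K.IsPath Sᶜ σ β (act β (z ^ n)) := by
        obtain ⟨s, k, hk⟩ : ∃ s : Bool, ∃ k : ℕ, n = sg s * k := by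
          rcases Int.le_total 0 n with h0 | h0
          · exact ⟨true, n.toNat, by simp [sg, h0]⟩
          · exact ⟨false, (-n).toNat, by simp [sg, h0]⟩
        refine ⟨zpath val act z s β k, ?_⟩
        have := isPath_zpath (val := val) (R := R) (z := z) (Wz := Wz) h s k (U := Sᶜ) (v := β) (by
          intro j _ hj
          rw [zs_pow_eq, mem_sat_act h] at hj
          exact hβS hj)
        rwa [zs_pow_eq, ← hk] at this
      obtain ⟨σ, hσ⟩ := hzp
      refine ⟨β, ⟨(c, a'), ⟨hc, trivial⟩, rfl⟩, σ ++ rev (Y := K) l₁, ?_⟩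
      rw [← hsb2] at hσ
      exact hσ.append (h5.mono Set.inter_subset_right).rev
  choose! β hβB σ hσ using hreps
  -- the half space property
  intro E hE
  let E₁ : Set Ω := E ∪ B
  have hE₁ : E₁.Finite := hE.union hB
  have hhalf := fun s => half_T (R := R) (Wz := Wz) h hz h0 s (U s) (hU1 s) (hU2 s) E₁ hE₁
  choose D hD1 hD2 using hhalf
  refine ⟨D true ∪ D false, (hD1 true).union (hD1 false), ?_⟩
  have hDs : ∀ s, D s ⊆ D true ∪ D false := by
    intro s; cases s
    · exact Set.subset_union_right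
    · exact Set.subset_union_left
  have key : ∀ l : List (K.E × Bool), ∀ x y, K.IsPath Cᶜ l x y → y ∈ E₁ → ∀ s, x ∈ U s →
      ∀ e ∈ E₁, ∀ p, K.IsPath (U s) p e x →
      ∃ l', K.IsPath ((D true ∪ D false) ∩ Cᶜ) l' e y ∧ Htpy (Y := K) Cᶜ e y (p ++ l) l' := by
    intro l
    induction l with
    | nil =>
      rintro x y ⟨rfl, hx⟩ hy s hxs e he p hp
      obtain ⟨l', h1, h2⟩ := hD2 s e he x hy p hp
      refine ⟨l', h1.mono (Set.inter_subset_inter (hDs s) (hUC s)), ?_⟩
      rw [List.append_nil]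
      exact h2.mono (hUC s)
    | cons a l ih =>
      rintro x y ⟨rfl, hx, hl⟩ hy s hxs e he p hp
      by_cases hx2 : K.tgt a ∈ U s
      · obtain ⟨l', h1, h2⟩ := ih (K.tgt a) y hl hy s hx2 e he (p ++ [a])
          (hp.append (isPath_single.mpr ⟨rfl, rfl, hxs, hx2⟩))
        exact ⟨l', h1, by simpa using h2⟩
      · obtain ⟨s', hs'⟩ := hcover _ hl.start_mem
        have hss' : s' = !s := by
          cases s <;> cases s' <;> simp_all
        have hx2S : K.tgt a ∈ S := by
          by_contra hcon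
          exact hx2 (hSU s hcon)
        have hxS : K.src a ∉ S := by
          intro hxS
          obtain ⟨b, hb⟩ := exists_edgeAt (val := cval val z) (act := act) (R := cRel R Wz) a h
          have e1 : K.tgt a = act (K.src a) (letterVal (cval val z) b) := by
            conv_lhs => rw [hb]
            rw [tgt_edgeAt]
          have h1 := hjump _ hxS b
          rw [← e1, abs_le] at h1
          have h2 := hxs hxS
          have h3 := hs' hx2S
          rw [hss'] at h3
          cases s
          · simp only [sg, cond_false, Bool.not_false, cond_true] at h2 h3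
            linarith [h1.1, h1.2]
          · simp only [sg, cond_false, Bool.not_true, cond_true] at h2 h3
            linarith [h1.1, h1.2]
        have hσx := hσ _ hxS
        have hβE : β (K.src a) ∈ E₁ := Or.inr (hβB _ hxS)
        obtain ⟨l₁, h1, h2⟩ := hD2 s e he _ hβE (p ++ rev (Y := K) (σ (K.src a)))
          (hp.append (hσx.mono (hSU s)).rev)
        obtain ⟨l₂, h3, h4⟩ := ih (K.tgt a) y hl hy s' hs' _ hβE (σ (K.src a) ++ [a])
          ((hσx.mono (hSU s')).append
            (isPath_single.mpr ⟨rfl, rfl, hSU s' hxS, hs'⟩))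
        refine ⟨l₁ ++ l₂, (h1.mono (Set.inter_subset_inter (hDs s) (hUC s))).append h3, ?_⟩
        have h5 := Htpy.insert (U := Cᶜ) (hp.mono (hUC s))
          (show K.IsPath Cᶜ (a :: l) (K.src a) y from ⟨rfl, hx, hl⟩)
          (hσx.mono ((hSU s).trans (hUC s)))
        have h6 := (h2.mono (hUC s)).append h4
        simp only [List.append_assoc, List.cons_append, List.nil_append] at h5 h6 ⊢
        exact h5.trans h6
  intro u hu v hv l hl
  obtain ⟨s, hs⟩ := hcover u hl.start_mem
  obtain ⟨l', h1, h2⟩ := key l u v hl (Or.inl hv) s hs u (Or.inl hu) [] ⟨rfl, hs⟩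
  exact ⟨l', h1, h2⟩

end

end Pool.Agent.Helper28.Tame
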