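import Pool.Agent.Helper28.Tame.Group

set_option autoImplicit false

namespace Pool.Agent.Helper28.Tame

universe u

namespace TwoComplex

variable {Y : TwoComplex.{u}}

/-- Paths outside `C'` with endpoints in a finite set can be pushed, outside `C`, into a
finite set. -/
def T2 (Y : TwoComplex.{u}) (C C' : Set Y.V) : Prop :=
  ∀ E : Set Y.V, E.Finite → ∃ D : Set Y.V, D.Finite ∧
    ∀ u ∈ E, ∀ v ∈ E, ∀ l, Y.IsPath C'ᶜ l u v →
      ∃ l', Y.IsPath (D ∩ Cᶜ) l' u v ∧ Htpy Cᶜ u v l l'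

def AllT1 (Y : TwoComplex.{u}) : Prop := ∀ C : Set Y.V, C.Finite → T2 Y C C

def AllT2 (Y : TwoComplex.{u}) : Prop :=
  ∀ C : Set Y.V, C.Finite → ∃ C' : Set Y.V, C'.Finite ∧ C ⊆ C' ∧ T2 Y C C'

/-- Every vertex is the start of finitely many oriented edges. -/
def LocFin (Y : TwoComplex.{u}) : Prop := ∀ v : Y.V, {a : Y.E × Bool | Y.src a = v}.Finite

/-- Neighbours of a set. -/
def nbr (Y : TwoComplex.{u}) (C : Set Y.V) : Set Y.V := {v | ∃ a, Y.src a ∈ C ∧ Y.tgt a = v}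

lemma LocFin.nbr (h : Y.LocFin) {C : Set Y.V} (hC : C.Finite) : (Y.nbr C).Finite := by
  have : Y.nbr C = ⋃ v ∈ C, Y.tgt '' {a | Y.src a = v} := by
    ext v
    simp only [TwoComplex.nbr, Set.mem_setOf_eq, Set.mem_iUnion, Set.mem_image]
    constructor
    · rintro ⟨a, h1, h2⟩
      exact ⟨_, h1, a, rfl, h2⟩
    · rintro ⟨w, h1, a, rfl, h2⟩
      exact ⟨a, h1, h2⟩
  rw [this]
  exact hC.biUnion fun v _ => (h v).image _

lemma IsPath.split {U A : Set Y.V} {l : List (Y.E × Bool)} {u v : Y.V}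
    (h : Y.IsPath U l u v) (hu : u ∈ A) :
    Y.IsPath (U ∩ A) l u v ∨ ∃ l₁ b l₃, l = l₁ ++ b :: l₃ ∧
      Y.IsPath (U ∩ A) l₁ u (Y.src b) ∧ Y.tgt b ∉ A ∧ Y.tgt b ∈ U ∧
      Y.IsPath U l₃ (Y.tgt b) v := by
  induction l generalizing u with
  | nil => left; exact ⟨h.1, h.2, hu⟩
  | cons a l ih =>
    obtain ⟨rfl, h2, h3⟩ := h
    by_cases ha : Y.tgt a ∈ A
    · rcases ih h3 ha with h4 | ⟨l₁, b, l₃, rfl, h5, h6, h7, h8⟩
      · left; exact ⟨rfl, ⟨h2, hu⟩, h4⟩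
      · right
        exact ⟨a :: l₁, b, l₃, rfl, ⟨rfl, ⟨h2, hu⟩, h5⟩, h6, h7, h8⟩
    · right
      exact ⟨[], a, l, rfl, ⟨rfl, h2, hu⟩, ha, h3.start_mem, h3⟩

lemma AllT2.allT1 (hY : Y.LocFin) (h : Y.AllT2) : Y.AllT1 := by
  intro C hC E hE
  obtain ⟨C', hC', hCC', h2⟩ := h C hC
  let E' := E ∪ C' ∪ Y.nbr C'
  have hE' : E'.Finite := (hE.union hC').union (hY.nbr hC')
  obtain ⟨D, hD, hD2⟩ := h2 E' hE'
  refine ⟨D ∪ E', hD.union hE', ?_⟩
  have key : ∀ n : ℕ, ∀ l : List (Y.E × Bool), l.length = n → ∀ u ∈ E', ∀ v ∈ E',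
      Y.IsPath Cᶜ l u v → ∃ l', Y.IsPath ((D ∪ E') ∩ Cᶜ) l' u v ∧ Htpy Cᶜ u v l l' := by
    intro n
    induction n using Nat.strong_induction_on with
    | _ n ih =>
      intro l hl u hu v hv hp
      by_cases huC : u ∈ C'
      · cases l with
        | nil =>
          refine ⟨[], ⟨hp.1, ?_⟩, .refl hp⟩
          exact ⟨Or.inr hu, hp.2⟩
        | cons a l =>
          obtain ⟨rfl, h3, h4⟩ := hp
          have h5 : Y.tgt a ∈ E' := Or.inr ⟨a, huC, rfl⟩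
          obtain ⟨l', h6, h7⟩ := ih l.length (by simp at hl; omega) l rfl _ h5 v hv h4
          refine ⟨a :: l', ⟨rfl, ⟨Or.inr hu, h3⟩, h6⟩, ?_⟩
          have h8 : Y.IsPath Cᶜ [a] (Y.src a) (Y.tgt a) := ⟨rfl, h3, rfl, h4.start_mem⟩
          exact Htpy.append_left h8 h7
      · rcases hp.split (A := C'ᶜ) huC with h3 | ⟨l₁, b, l₃, rfl, h5, h6, h7, h8⟩
        · obtain ⟨l', h4, h5⟩ := hD2 u hu v hv l (h3.mono Set.inter_subset_right)
          exact ⟨l', h4.mono (Set.inter_subset_inter_left _ Set.subset_union_left), h5⟩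
        · have hb : Y.tgt b ∈ C' := by simpa using h6
          have hb2 : Y.src b ∈ E' := Or.inr ⟨Y.flip b, by simpa using hb, by simp⟩
          have hb3 : Y.tgt b ∈ E' := Or.inl (Or.inr hb)
          obtain ⟨m₁, h9, h10⟩ := hD2 u hu _ hb2 l₁ (h5.mono Set.inter_subset_right)
          obtain ⟨m₂, h11, h12⟩ := ih l₃.length (by simp at hl; omega) l₃ rfl _ hb3 v hv h8
          refine ⟨m₁ ++ b :: m₂, ?_, ?_⟩
          · refine (h9.mono (Set.inter_subset_inter_left _ Set.subset_union_left)).append ?_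
            exact ⟨rfl, ⟨Or.inr hb2, h5.end_mem.1⟩, h11⟩
          · refine h10.append ?_
            have h13 : Y.IsPath Cᶜ [b] (Y.src b) (Y.tgt b) := ⟨rfl, h5.end_mem.1, rfl, h7⟩
            exact Htpy.append_left h13 h12
  intro u hu v hv l hp
  exact key _ l rfl u (Or.inl (Or.inl hu)) v (Or.inl (Or.inl hv)) hp

lemma AllT1.allT2 (h : Y.AllT1) : Y.AllT2 := fun C hC => ⟨C, hC, subset_rfl, h C hC⟩

lemma T2.mono {C C₁ C₂ C₃ : Set Y.V} (h : T2 Y C₁ C₂) (h1 : C ⊆ C₁) (h2 : C₂ ⊆ C₃) :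
    T2 Y C C₃ := by
  intro E hE
  obtain ⟨D, hD, hD2⟩ := h E hE
  refine ⟨D, hD, fun u hu v hv l hl => ?_⟩
  obtain ⟨l', h3, h4⟩ := hD2 u hu v hv l (hl.mono (Set.compl_subset_compl.mpr h2))
  exact ⟨l', h3.mono (Set.inter_subset_inter_right _ (Set.compl_subset_compl.mpr h1)),
    h4.mono (Set.compl_subset_compl.mpr h1)⟩

/-- Finitely many components of the complement of a finite set. -/
lemma exists_finite_reps (hY : Y.LocFin) {B₀ C : Set Y.V} (hB₀ : B₀.Finite) (hC : C.Finite)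
    (hconn : ∀ v, ∃ b ∈ B₀, ∃ l, Y.IsPath Set.univ l v b) :
    ∃ B : Set Y.V, B.Finite ∧ B ⊆ Cᶜ ∧ ∀ v ∈ Cᶜ, ∃ b ∈ B, ∃ l, Y.IsPath Cᶜ l b v := by
  refine ⟨(B₀ ∪ Y.nbr C) \ C, (hB₀.union (hY.nbr hC)).diff, ?_, ?_⟩
  · intro x hx; exact hx.2
  · intro v hv
    obtain ⟨b, hb, l, hl⟩ := hconn v
    rcases hl.split (A := Cᶜ) hv with h1 | ⟨l₁, b', l₃, rfl, h5, h6, h7, h8⟩
    · refine ⟨b, ⟨Or.inl hb, h1.end_mem.2⟩, rev l, ?_⟩
      exact (h1.mono Set.inter_subset_right).rev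
    · have hb' : Y.tgt b' ∈ C := by simpa using h6
      refine ⟨Y.src b', ⟨Or.inr ⟨Y.flip b', by simpa using hb', by simp⟩, h5.end_mem.2⟩,
        rev l₁, (h5.mono Set.inter_subset_right).rev⟩

/-- The tail criterion. -/
lemma T2.of_tails {C C' : Set Y.V} (hCC : C ⊆ C') (τ : Y.V → List (Y.E × Bool)) (b : Y.V → Y.V)
    (D : Set Y.V) (hD : D.Finite) (hτ : ∀ v ∈ C'ᶜ, Y.IsPath Cᶜ (τ v) (b v) v)
    (hb : ∀ v ∈ C'ᶜ, b v ∈ D)
    (he : ∀ e, Y.ini e ∈ C'ᶜ → Y.ter e ∈ C'ᶜ →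
      ∃ l', Y.IsPath (D ∩ Cᶜ) l' (b (Y.ini e)) (b (Y.ter e)) ∧
        Htpy Cᶜ (b (Y.ini e)) (b (Y.ter e)) (τ (Y.ini e) ++ ((e, true) :: rev (τ (Y.ter e)))) l') :
    T2 Y C C' := by
  have he' : ∀ a : Y.E × Bool, Y.src a ∈ C'ᶜ → Y.tgt a ∈ C'ᶜ →
      ∃ l', Y.IsPath (D ∩ Cᶜ) l' (b (Y.src a)) (b (Y.tgt a)) ∧
        Htpy Cᶜ (b (Y.src a)) (b (Y.tgt a)) (τ (Y.src a) ++ (a :: rev (τ (Y.tgt a)))) l' := by
    rintro ⟨e, _ | _⟩ h1 h2
    · simp only [src, tgt, Bool.false_eq_true, if_false] at h1 h2 ⊢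
      obtain ⟨l', h3, h4⟩ := he e h2 h1
      refine ⟨rev l', h3.rev, ?_⟩
      have := h4.rev
      simpa [flip] using this
    · simpa [src, tgt] using he e h1 h2
  have key : ∀ l : List (Y.E × Bool), ∀ u v, Y.IsPath C'ᶜ l u v →
      ∃ l', Y.IsPath (D ∩ Cᶜ) l' (b u) (b v) ∧
        Htpy Cᶜ (b u) (b v) (τ u ++ (l ++ rev (τ v))) l' := by
    intro l
    induction l with
    | nil =>
      rintro u v ⟨rfl, hu⟩
      refine ⟨[], ⟨rfl, hb u hu, (hτ u hu).start_mem⟩, ?_⟩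
      exact Htpy.self_rev (hτ u hu)
    | cons a l ih =>
      rintro u v ⟨rfl, hu, hl⟩
      obtain ⟨l₁, h1, h2⟩ := he' a hu hl.start_mem
      obtain ⟨l₂, h3, h4⟩ := ih _ _ hl
      refine ⟨l₁ ++ l₂, h1.append h3, ?_⟩
      have hs : Cᶜ ⊇ C'ᶜ := Set.compl_subset_compl.mpr hCC
      have h5 : Y.IsPath Cᶜ (τ (Y.src a) ++ [a]) (b (Y.src a)) (Y.tgt a) :=
        (hτ _ hu).append ⟨rfl, hs hu, rfl, hs hl.start_mem⟩
      have h6 := Htpy.insert h5 ((hl.mono hs).append (hτ v hl.end_mem).rev)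
        (hτ _ hl.start_mem)
      have h7 := h2.append h4
      simp only [List.append_assoc, List.cons_append, List.nil_append] at h6 h7 ⊢
      exact h6.trans h7
  intro E hE
  -- supports of the tails
  have hs : ∀ v : Y.V, ∃ P : Set Y.V, P.Finite ∧ (v ∈ C'ᶜ → Y.IsPath (P ∩ Cᶜ) (τ v) (b v) v) := by
    intro v
    by_cases hv : v ∈ C'ᶜ
    · obtain ⟨P, h1, h2, h3⟩ := (hτ v hv).exists_finite
      exact ⟨P, h1, fun _ => h3.mono (Set.subset_inter subset_rfl h2)⟩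
    · exact ⟨∅, Set.finite_empty, fun h => absurd h hv⟩
  choose P hP1 hP2 using hs
  refine ⟨D ∪ ⋃ v ∈ E, P v, hD.union (hE.biUnion fun v _ => hP1 v), ?_⟩
  intro u hu v hv l hl
  obtain ⟨l', h1, h2⟩ := key l u v hl
  have hu1 : Y.IsPath ((D ∪ ⋃ v ∈ E, P v) ∩ Cᶜ) (τ u) (b u) u := by
    refine (hP2 u hl.start_mem).mono (Set.inter_subset_inter_left _ ?_)
    exact Set.subset_union_of_subset_right (Set.subset_biUnion_of_mem hu) _
  have hv1 : Y.IsPath ((D ∪ ⋃ v ∈ E, P v) ∩ Cᶜ) (τ v) (b v) v := by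
    refine (hP2 v hl.end_mem).mono (Set.inter_subset_inter_left _ ?_)
    exact Set.subset_union_of_subset_right (Set.subset_biUnion_of_mem hv) _
  have h1' := h1.mono (Set.inter_subset_inter_left Cᶜ (Set.subset_union_left (s := D)
    (t := ⋃ v ∈ E, P v)))
  refine ⟨rev (τ u) ++ (l' ++ τ v), hu1.rev.append (h1'.append hv1), ?_⟩
  have hs : Cᶜ ⊇ C'ᶜ := Set.compl_subset_compl.mpr hCC
  have hl' := hl.mono hs
  have hτu := hτ u hl.start_mem
  have hτv := hτ v hl.end_mem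
  -- l ~ rev τu ++ τu ++ l ++ rev τv ++ τv
  have h3 : Htpy Cᶜ u v l (rev (τ u) ++ (τ u ++ l)) := by
    have := (Htpy.rev_self hτu).symm.append_right hl'
    simpa using this
  have h4 : Htpy Cᶜ u v (rev (τ u) ++ (τ u ++ l)) (rev (τ u) ++ (τ u ++ l) ++ (rev (τ v) ++ τ v)) := by
    have := Htpy.append_left (hτu.rev.append (hτu.append hl')) (Htpy.rev_self hτv).symm
    simpa using this
  have h5 : Htpy Cᶜ u v (rev (τ u) ++ (τ u ++ l) ++ (rev (τ v) ++ τ v))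
      (rev (τ u) ++ (l' ++ τ v)) := by
    have := Htpy.append_left hτu.rev (h2.append_right hτv)
    simpa using this
  exact h3.trans (h4.trans h5)

/-- Transfer of the coarse property along a coarse equivalence. -/
lemma AllT2.transfer {Y Z : TwoComplex.{u}} (hY : Y.AllT2) (hloc : Y.LocFin)
    (f : Y.V → Z.V) (g : Z.V → Y.V) (θ : Y.E → List (Z.E × Bool))
    (θ' : Z.E → List (Y.E × Bool)) (h : Z.V → List (Z.E × Bool))
    (H1 : ∀ C : Set Z.V, C.Finite → ∃ C₁ : Set Y.V, C₁.Finite ∧ IsMap C₁ᶜ Cᶜ f θ)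
    (H2 : ∀ (C : Set Z.V) (C₁ : Set Y.V), C.Finite → C₁.Finite → ∃ C₂ : Set Z.V, C₂.Finite ∧
      (∀ v ∈ C₂ᶜ, Z.IsPath Cᶜ (h v) v (f (g v))) ∧
      (∀ v ∈ C₂ᶜ, g v ∈ C₁ᶜ) ∧
      (∀ e, Z.ini e ∈ C₂ᶜ → Z.ter e ∈ C₂ᶜ →
        Y.IsPath C₁ᶜ (θ' e) (g (Z.ini e)) (g (Z.ter e)) ∧
        Htpy Cᶜ (Z.ini e) (f (g (Z.ter e))) ((e, true) :: h (Z.ter e))
          (h (Z.ini e) ++ mapPath θ (θ' e)))) : Z.AllT2 := by
  intro C hC
  obtain ⟨C₁, hC₁, hmap⟩ := H1 C hC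
  obtain ⟨C₁', hC₁', hCC, hT⟩ := hY C₁ hC₁
  obtain ⟨C₂, hC₂, hh, hg, he⟩ := H2 C C₁' hC hC₁'
  have hsub : C₁'ᶜ ⊆ C₁ᶜ := Set.compl_subset_compl.mpr hCC
  refine ⟨C₂ ∪ C, hC₂.union hC, Set.subset_union_right, ?_⟩
  -- paths outside C₂
  have he' : ∀ a : Z.E × Bool, Z.src a ∈ C₂ᶜ → Z.tgt a ∈ C₂ᶜ →
      Y.IsPath C₁'ᶜ (ext θ' a) (g (Z.src a)) (g (Z.tgt a)) ∧
      Htpy Cᶜ (Z.src a) (f (g (Z.tgt a))) (a :: h (Z.tgt a))
          (h (Z.src a) ++ mapPath θ (ext θ' a)) := by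
    rintro ⟨e, _ | _⟩ h1 h2
    · simp only [src, tgt, Bool.false_eq_true, if_false] at h1 h2 ⊢
      obtain ⟨h3, h4⟩ := he e h2 h1
      refine ⟨by simpa [ext] using h3.rev, ?_⟩
      have hm := hmap.path (h3.mono hsub)
      have a1 : Htpy Cᶜ (Z.ter e) (f (g (Z.ini e))) ((e, false) :: h (Z.ini e))
          (((e, false) :: h (Z.ini e)) ++ (mapPath θ (θ' e) ++ rev (mapPath θ (θ' e)))) := by
        have h5 : Z.IsPath Cᶜ ((e, false) :: h (Z.ini e)) (Z.ter e) (f (g (Z.ini e))) :=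
          ⟨rfl, (hh _ h1).start_mem, (hh _ h2)⟩
        have := Htpy.append_left h5 (Htpy.self_rev hm).symm
        simpa using this
      have a2 : Htpy Cᶜ (Z.ter e) (f (g (Z.ini e)))
          (((e, false) :: h (Z.ini e)) ++ (mapPath θ (θ' e) ++ rev (mapPath θ (θ' e))))
          ((e, false) :: ((e, true) :: h (Z.ter e)) ++ rev (mapPath θ (θ' e))) := by
        have h5 : Z.IsPath Cᶜ [(e, false)] (Z.ter e) (Z.ini e) :=
          ⟨rfl, (hh _ h1).start_mem, rfl, (hh _ h2).start_mem⟩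
        have := Htpy.append_left h5 (h4.symm.append_right hm.rev)
        simpa using this
      have a3 : Htpy Cᶜ (Z.ter e) (f (g (Z.ini e)))
          ((e, false) :: ((e, true) :: h (Z.ter e)) ++ rev (mapPath θ (θ' e)))
          (h (Z.ter e) ++ rev (mapPath θ (θ' e))) := by
        refine .step ?_ ?_ ?_
        · exact ⟨rfl, (hh _ h1).start_mem, rfl, (hh _ h2).start_mem,
            (hh _ h1).append hm.rev⟩
        · exact (hh _ h1).append hm.rev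
        · have := Step.cancel (Y := Z) [] (e, false) (h (Z.ter e) ++ rev (mapPath θ (θ' e)))
          simpa [flip] using this
      have := a1.trans (a2.trans a3)
      simpa [ext, mapPath_rev] using this
    · simpa [src, tgt, ext] using he e h1 h2
  have key : ∀ l : List (Z.E × Bool), ∀ u v, Z.IsPath C₂ᶜ l u v →
      Y.IsPath C₁'ᶜ (mapPath θ' l) (g u) (g v) ∧
      Htpy Cᶜ u (f (g v)) (l ++ h v) (h u ++ mapPath θ (mapPath θ' l)) := by
    intro l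
    induction l with
    | nil =>
      rintro u v ⟨rfl, hu⟩
      refine ⟨⟨rfl, hg u hu⟩, ?_⟩
      simpa using Htpy.refl (hh u hu)
    | cons a l ih =>
      rintro u v ⟨rfl, hu, hl⟩
      obtain ⟨h1, h2⟩ := he' a hu hl.start_mem
      obtain ⟨h3, h4⟩ := ih _ _ hl
      refine ⟨h1.append h3, ?_⟩
      have h5 : Z.IsPath Cᶜ [a] (Z.src a) (Z.tgt a) :=
        ⟨rfl, (hh _ hu).start_mem, rfl, (hh _ hl.start_mem).start_mem⟩
      have h6 := Htpy.append_left h5 h4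
      have h7 := h2.append_right (hmap.path (h3.mono hsub))
      simp only [List.append_assoc, List.cons_append, List.nil_append, mapPath_cons,
        mapPath_append] at h6 h7 ⊢
      exact h6.trans h7
  intro E hE
  obtain ⟨D, hD, hD2⟩ := hT (g '' E) (hE.image g)
  -- support of θ-images of edges in D
  have hs : ∀ e : Y.E, ∃ P : Set Z.V, P.Finite ∧ (Y.ini e ∈ C₁ᶜ → Y.ter e ∈ C₁ᶜ →
      Z.IsPath (P ∩ Cᶜ) (θ e) (f (Y.ini e)) (f (Y.ter e))) := by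
    intro e
    by_cases hv : Y.ini e ∈ C₁ᶜ ∧ Y.ter e ∈ C₁ᶜ
    · obtain ⟨P, h1, h2, h3⟩ := (hmap.edge e hv.1 hv.2).exists_finite
      exact ⟨P, h1, fun _ _ => h3.mono (Set.subset_inter subset_rfl h2)⟩
    · exact ⟨∅, Set.finite_empty, fun h1 h2 => absurd ⟨h1, h2⟩ hv⟩
  choose P hP1 hP2 using hs
  have hsh : ∀ v : Z.V, ∃ P : Set Z.V, P.Finite ∧ (v ∈ C₂ᶜ →
      Z.IsPath (P ∩ Cᶜ) (h v) v (f (g v))) := by
    intro v
    by_cases hv : v ∈ C₂ᶜ
    · obtain ⟨P, h1, h2, h3⟩ := (hh v hv).exists_finite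
      exact ⟨P, h1, fun _ => h3.mono (Set.subset_inter subset_rfl h2)⟩
    · exact ⟨∅, Set.finite_empty, fun h => absurd h hv⟩
  choose Q hQ1 hQ2 using hsh
  let ED : Set Y.E := {e | Y.ini e ∈ D}
  have hED : ED.Finite := by
    have h1 : (⋃ v ∈ D, {a : Y.E × Bool | Y.src a = v}).Finite := hD.biUnion fun v _ => hloc v
    refine (h1.image Prod.fst).subset ?_
    intro e he
    refine ⟨(e, true), ?_, rfl⟩
    simp only [Set.mem_iUnion, Set.mem_setOf_eq]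
    exact ⟨Y.ini e, he, rfl⟩
  let D' : Set Z.V := (⋃ e ∈ ED, P e) ∪ f '' D ∪ ⋃ v ∈ E, Q v
  have hD' : D'.Finite :=
    ((hED.biUnion fun e _ => hP1 e).union (hD.image f)).union (hE.biUnion fun v _ => hQ1 v)
  refine ⟨D', hD', ?_⟩
  intro u hu v hv l hl
  have hl2 : Z.IsPath C₂ᶜ l u v := hl.mono (Set.compl_subset_compl.mpr Set.subset_union_left)
  obtain ⟨h1, h2⟩ := key l u v hl2
  obtain ⟨m, h3, h4⟩ := hD2 (g u) ⟨u, hu, rfl⟩ (g v) ⟨v, hv, rfl⟩ _ h1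
  have h5 : Z.IsPath (D' ∩ Cᶜ) (mapPath θ m) (f (g u)) (f (g v)) := by
    refine isPath_mapPath (U := D ∩ C₁ᶜ) ?_ ?_ h3
    · intro x hx
      exact ⟨Or.inl (Or.inr ⟨x, hx.1, rfl⟩), hmap.mem x hx.2⟩
    · intro e he1 he2
      refine (hP2 e he1.2 he2.2).mono (Set.inter_subset_inter_left _ ?_)
      have : P e ⊆ ⋃ e ∈ ED, P e := Set.subset_biUnion_of_mem (u := P) (show e ∈ ED from he1.1)
      exact fun x hx => Or.inl (Or.inl (this hx))
  have hQu : Z.IsPath (D' ∩ Cᶜ) (h u) u (f (g u)) := by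
    refine (hQ2 u hl2.start_mem).mono (Set.inter_subset_inter_left _ ?_)
    have : Q u ⊆ ⋃ v ∈ E, Q v := Set.subset_biUnion_of_mem (u := Q) hu
    exact fun x hx => Or.inr (this hx)
  have hQv : Z.IsPath (D' ∩ Cᶜ) (h v) v (f (g v)) := by
    refine (hQ2 v hl2.end_mem).mono (Set.inter_subset_inter_left _ ?_)
    have : Q v ⊆ ⋃ v ∈ E, Q v := Set.subset_biUnion_of_mem (u := Q) hv
    exact fun x hx => Or.inr (this hx)
  refine ⟨h u ++ (mapPath θ m ++ rev (h v)), hQu.append (h5.append hQv.rev), ?_⟩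
  have hhu := hh u hl2.start_mem
  have hhv := hh v hl2.end_mem
  have hlC : Z.IsPath Cᶜ l u v := hl.mono (Set.compl_subset_compl.mpr Set.subset_union_right)
  have e1 : Htpy Cᶜ u v l (l ++ (h v ++ rev (h v))) := by
    have := Htpy.append_left hlC (Htpy.self_rev hhv).symm
    simpa using this
  have e2 : Htpy Cᶜ u v (l ++ (h v ++ rev (h v)))
      (h u ++ (mapPath θ (mapPath θ' l) ++ rev (h v))) := by
    have := h2.append_right hhv.rev
    simpa using this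
  have e3 : Htpy Cᶜ u v (h u ++ (mapPath θ (mapPath θ' l) ++ rev (h v)))
      (h u ++ (mapPath θ m ++ rev (h v))) :=
    Htpy.append_left hhu ((hmap.htpy h4).append_right hhv.rev)
  exact e1.trans (e2.trans e3)

/-! ### The coarse property and finite generation of fundamental groups -/

lemma LocFin.edges (hY : Y.LocFin) {D : Set Y.V} (hD : D.Finite) :
    {a : Y.E × Bool | Y.src a ∈ D}.Finite := by
  have h1 : (⋃ v ∈ D, {a : Y.E × Bool | Y.src a = v}).Finite := hD.biUnion fun v _ => hY v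
  refine h1.subset ?_
  intro a ha
  simp only [Set.mem_iUnion, Set.mem_setOf_eq]
  exact ⟨_, ha, rfl⟩

lemma fg_of_T1 (hY : Y.LocFin) {C : Set Y.V} (h : T2 Y C C) (u : (Cᶜ : Set Y.V)) :
    Group.FG (Y.Pi1 Cᶜ u) := by
  classical
  obtain ⟨D, hD, hD2⟩ := h {(u : Y.V)} (Set.finite_singleton _)
  -- tails inside D ∩ Cᶜ
  have ht : ∀ v : Y.V, ∃ τ : List (Y.E × Bool),
      (∃ l, Y.IsPath (D ∩ Cᶜ) l u v) → Y.IsPath (D ∩ Cᶜ) τ u v := by
    intro v
    by_cases hv : ∃ l, Y.IsPath (D ∩ Cᶜ) l u v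
    · obtain ⟨l, hl⟩ := hv
      exact ⟨l, fun _ => hl⟩
    · exact ⟨[], fun h => absurd h hv⟩
  choose τ hτ using ht
  let gen : Y.E × Bool → Y.Pi1 Cᶜ u := fun a =>
    if hp : Y.IsPath Cᶜ (τ (Y.src a) ++ (a :: rev (τ (Y.tgt a)))) u u then cls hp else 1
  let g0 : Y.Pi1 Cᶜ u := if hp : Y.IsPath Cᶜ (τ u) u u then cls hp else 1
  let S : Set (Y.Pi1 Cᶜ u) := (gen '' {a | Y.src a ∈ D}) ∪ {g0}
  have hS : S.Finite := ((hY.edges hD).image gen).union (Set.finite_singleton _)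
  rw [Group.fg_iff]
  refine ⟨S, ?_, hS⟩
  rw [eq_top_iff]
  -- every path in D
  have key : ∀ l : List (Y.E × Bool), ∀ x y, Y.IsPath (D ∩ Cᶜ) l x y →
      Y.IsPath (D ∩ Cᶜ) (τ x) u x →
      ∃ hp : Y.IsPath Cᶜ (τ x ++ (l ++ rev (τ y))) u u, cls hp ∈ Subgroup.closure S := by
    intro l
    induction l with
    | nil =>
      rintro x y ⟨rfl, hx⟩ hτx
      have hp := (hτx.append hτx.rev).mono (Set.inter_subset_right)
      refine ⟨hp, ?_⟩
      have : cls hp = (1 : Y.Pi1 Cᶜ u) := by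
        rw [cls_nil, cls_eq_iff]
        exact Htpy.self_rev (hτx.mono (Set.inter_subset_right))
      exact this ▸ one_mem _
    | cons a l ih =>
      rintro x y ⟨rfl, hx, hl⟩ hτx
      have hτa : Y.IsPath (D ∩ Cᶜ) (τ (Y.tgt a)) u (Y.tgt a) := by
        refine hτ _ ⟨τ (Y.src a) ++ [a], hτx.append ?_⟩
        exact isPath_single.mpr ⟨rfl, rfl, hx, hl.start_mem⟩
      obtain ⟨hp, hm⟩ := ih _ _ hl hτa
      have hal : Y.IsPath (D ∩ Cᶜ) (a :: l) (Y.src a) y := ⟨rfl, hx, hl⟩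
      have hτy : Y.IsPath (D ∩ Cᶜ) (τ y) u y := hτ _ ⟨τ (Y.src a) ++ (a :: l), hτx.append hal⟩
      have hq : Y.IsPath Cᶜ (τ (Y.src a) ++ (a :: rev (τ (Y.tgt a)))) u u :=
        (hτx.append (show Y.IsPath (D ∩ Cᶜ) (a :: rev (τ (Y.tgt a))) _ _ from
          ⟨rfl, hx, hτa.rev⟩)).mono (Set.inter_subset_right)
      have hr : Y.IsPath Cᶜ (τ (Y.src a) ++ ((a :: l) ++ rev (τ y))) u u :=
        (hτx.append (hal.append hτy.rev)).mono (Set.inter_subset_right)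
      refine ⟨hr, ?_⟩
      have hprod : cls hr = cls hq * cls hp := by
        rw [cls_mul, cls_eq_iff]
        have h5 : Y.IsPath Cᶜ (τ (Y.src a) ++ [a]) u (Y.tgt a) :=
          (hτx.append (isPath_single.mpr ⟨rfl, rfl, hx, hl.start_mem⟩)).mono
            (Set.inter_subset_right)
        have h6 := Htpy.insert h5 ((hl.append hτy.rev).mono (Set.inter_subset_right))
          (hτa.mono Set.inter_subset_right)
        simpa using h6
      rw [hprod]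
      refine mul_mem ?_ hm
      refine Subgroup.subset_closure (Or.inl ⟨a, hx.1, ?_⟩)
      simp only [gen]
      rw [dif_pos hq]
  intro s _
  obtain ⟨l, hl, rfl⟩ := exists_cls s
  obtain ⟨l', h1, h2⟩ := hD2 u rfl u rfl l hl
  have hτu : Y.IsPath (D ∩ Cᶜ) (τ u) u u := hτ _ ⟨l', h1⟩
  obtain ⟨hp, hm⟩ := key l' u u h1 hτu
  have hτu' : Y.IsPath Cᶜ (τ u) u u := hτu.mono Set.inter_subset_right
  have htu : cls hτu' ∈ Subgroup.closure S := by
    refine Subgroup.subset_closure (Or.inr ?_)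
    rw [Set.mem_singleton_iff]
    simp only [g0]
    rw [dif_pos hτu']
  have heq : cls hl = (cls hτu')⁻¹ * cls hp * cls hτu' := by
    rw [cls_inv, cls_mul, cls_mul, cls_eq_iff]
    have a1 := (Htpy.rev_self hτu').symm.append_right (h2.right)
    have a2 := Htpy.append_left (h2.right) (Htpy.rev_self hτu').symm
    have a3 := Htpy.append_left (hτu'.rev.append hτu') a2
    simp only [List.append_assoc, List.nil_append, List.append_nil] at a1 a2 a3 ⊢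
    exact h2.trans (a1.trans a3)
  rw [heq]
  exact mul_mem (mul_mem (inv_mem htu) hm) htu

lemma T1_of_fg {C : Set Y.V} (h : ∀ u : (Cᶜ : Set Y.V), Group.FG (Y.Pi1 Cᶜ u)) : T2 Y C C := by
  classical
  intro E hE
  -- supports of generating loops
  have hg : ∀ u : Y.V, ∃ P : Set Y.V, P.Finite ∧ ∀ l, Y.IsPath Cᶜ l u u →
      ∃ l', Y.IsPath (P ∩ Cᶜ) l' u u ∧ Htpy Cᶜ u u l l' := by
    intro u
    by_cases hu : u ∈ Cᶜ
    · have hfg := h ⟨u, hu⟩
      rw [Group.fg_iff] at hfg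
      obtain ⟨S, hS1, hS2⟩ := hfg
      have hrep : ∀ s : Y.Pi1 Cᶜ ⟨u, hu⟩, ∃ P : Set Y.V, P.Finite ∧ ∃ l,
          Y.IsPath (P ∩ Cᶜ) l u u ∧ ∃ hl : Y.IsPath Cᶜ l u u,
            s = cls (u := ⟨u, hu⟩) hl := by
        intro s
        obtain ⟨l, hl, rfl⟩ := exists_cls s
        obtain ⟨P, h1, h2, h3⟩ := hl.exists_finite
        exact ⟨P, h1, l, h3.mono (Set.subset_inter subset_rfl h2), hl, rfl⟩
      choose P hP1 L hP2 hP3 hP4 using hrep
      refine ⟨{u} ∪ ⋃ s ∈ S, P s, (Set.finite_singleton _).union (hS2.biUnion fun s _ => hP1 s), ?_⟩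
      set PP := {u} ∪ ⋃ s ∈ S, P s
      have hall : ∀ s : Y.Pi1 Cᶜ ⟨u, hu⟩, s ∈ Subgroup.closure S → ∃ l,
          Y.IsPath (PP ∩ Cᶜ) l u u ∧ ∃ hl : Y.IsPath Cᶜ l u u, s = cls (u := ⟨u, hu⟩) hl := by
        intro s hs
        induction hs using Subgroup.closure_induction with
        | mem s hs =>
          refine ⟨L s, (hP2 s).mono (Set.inter_subset_inter_left _ ?_), hP3 s, hP4 s⟩
          have : P s ⊆ ⋃ s ∈ S, P s := Set.subset_biUnion_of_mem (u := P) hs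
          exact fun x hx => Or.inr (this hx)
        | one => exact ⟨[], ⟨rfl, Or.inl rfl, hu⟩, ⟨rfl, hu⟩, rfl⟩
        | mul s t _ _ ih1 ih2 =>
          obtain ⟨l, h1, h2, rfl⟩ := ih1
          obtain ⟨m, h3, h4, rfl⟩ := ih2
          exact ⟨l ++ m, h1.append h3, h2.append h4, rfl⟩
        | inv s _ ih =>
          obtain ⟨l, h1, h2, rfl⟩ := ih
          exact ⟨rev l, h1.rev, h2.rev, rfl⟩
      intro l hl
      obtain ⟨l', h1, h2, h3⟩ := hall (cls (u := ⟨u, hu⟩) hl) (by rw [hS1]; trivial)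
      exact ⟨l', h1, (cls_eq_iff (u := ⟨u, hu⟩) _ _).mp h3⟩
    · exact ⟨∅, Set.finite_empty, fun l hl => absurd hl.start_mem hu⟩
  choose P hP1 hP2 using hg
  have hc : ∀ p : Y.V × Y.V, ∃ Q : Set Y.V, Q.Finite ∧ ∃ m, (∃ l, Y.IsPath Cᶜ l p.1 p.2) →
      Y.IsPath (Q ∩ Cᶜ) m p.1 p.2 := by
    intro p
    by_cases hp : ∃ l, Y.IsPath Cᶜ l p.1 p.2
    · obtain ⟨l, hl⟩ := hp
      obtain ⟨Q, h1, h2, h3⟩ := hl.exists_finite
      exact ⟨Q, h1, l, fun _ => h3.mono (Set.subset_inter subset_rfl h2)⟩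
    · exact ⟨∅, Set.finite_empty, [], fun h => absurd h hp⟩
  choose Q hQ1 m hQ2 using hc
  refine ⟨(⋃ u ∈ E, P u) ∪ ⋃ p ∈ E ×ˢ E, Q p,
    (hE.biUnion fun u _ => hP1 u).union ((hE.prod hE).biUnion fun p _ => hQ1 p), ?_⟩
  intro u hu v hv l hl
  have hm := hQ2 (u, v) ⟨l, hl⟩
  have hm' : Y.IsPath Cᶜ (m (u, v)) u v := hm.mono Set.inter_subset_right
  obtain ⟨l', h1, h2⟩ := hP2 u (l ++ rev (m (u, v))) (hl.append hm'.rev)
  refine ⟨l' ++ m (u, v), ?_, ?_⟩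
  · refine (h1.mono (Set.inter_subset_inter_left _ ?_)).append
      (hm.mono (Set.inter_subset_inter_left _ ?_))
    · have : P u ⊆ ⋃ u ∈ E, P u := Set.subset_biUnion_of_mem (u := P) hu
      exact fun x hx => Or.inl (this hx)
    · have : Q (u, v) ⊆ ⋃ p ∈ E ×ˢ E, Q p :=
        Set.subset_biUnion_of_mem (u := Q) (show (u, v) ∈ E ×ˢ E from ⟨hu, hv⟩)
      exact fun x hx => Or.inr (this hx)
  · have a1 := Htpy.append_left hl (Htpy.rev_self hm').symm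
    have a2 := h2.append_right hm'
    simp only [List.append_assoc, List.append_nil] at a1 a2
    exact a1.trans a2

end TwoComplex

end Pool.Agent.Helper28.Tame
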