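import Mathlib

set_option autoImplicit false

namespace Pool.Agent.Helper28.Tame

universe u

/-- A combinatorial 2-complex: vertices, edges with an initial and a terminal vertex, and 2-cells,
each attached along a list of oriented edges (`(e, true)` is `e` run forwards and `(e, false)`
is `e` run backwards). -/
structure TwoComplex where
  V : Type u
  E : Type u
  F : Type u
  ini : E → V
  ter : E → V
  bd : F → List (E × Bool)

namespace TwoComplex

variable (Y : TwoComplex.{u})

/-- The starting vertex of an oriented edge. -/
def src (a : Y.E × Bool) : Y.V := if a.2 then Y.ini a.1 else Y.ter a.1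

/-- The final vertex of an oriented edge. -/
def tgt (a : Y.E × Bool) : Y.V := if a.2 then Y.ter a.1 else Y.ini a.1

/-- The oriented edge run in the opposite direction. -/
def flip (a : Y.E × Bool) : Y.E × Bool := (a.1, !a.2)

/-- `IsPath Y U l u v`: the list `l` of oriented edges is an edge path from `u` to `v` all of
whose vertices lie in the set `U`. -/
def IsPath (U : Set Y.V) : List (Y.E × Bool) → Y.V → Y.V → Prop
  | [], u, v => u = v ∧ u ∈ U
  | a :: l, u, v => Y.src a = u ∧ u ∈ U ∧ IsPath U l (Y.tgt a) v

/-- The reversed path. -/
def rev {Y : TwoComplex.{u}} (l : List (Y.E × Bool)) : List (Y.E × Bool) :=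
  (l.map Y.flip).reverse

/-- Elementary homotopy: delete a backtrack `a a⁻¹` or the boundary of a 2-cell. -/
inductive Step : List (Y.E × Bool) → List (Y.E × Bool) → Prop
  | cancel (l₁ : List (Y.E × Bool)) (a : Y.E × Bool) (l₂ : List (Y.E × Bool)) :
      Step (l₁ ++ [a, Y.flip a] ++ l₂) (l₁ ++ l₂)
  | face (l₁ : List (Y.E × Bool)) (f : Y.F) (l₂ : List (Y.E × Bool)) :
      Step (l₁ ++ Y.bd f ++ l₂) (l₁ ++ l₂)

/-- The closed edge paths at `u` in the full subcomplex spanned by the vertex set `U`. -/
def Loop (U : Set Y.V) (u : U) : Type u := {l : List (Y.E × Bool) // Y.IsPath U l u u}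

/-- Homotopy of closed edge paths at `u` inside the full subcomplex spanned by `U`. -/
def loopSetoid (U : Set Y.V) (u : U) : Setoid (Y.Loop U u) :=
  Relation.EqvGen.setoid (fun p q => Y.Step p.1 q.1)

/-- The (edge path) fundamental group, at the vertex `u`, of the full subcomplex of `Y` spanned by
the vertex set `U`. -/
def Pi1 (U : Set Y.V) (u : U) : Type u := Quotient (Y.loopSetoid U u)

/-- The edges of the barycentric subdivision: from the barycentre of an edge `e` to its initial
(`false`) or terminal (`true`) vertex; from the barycentre of a 2-cell `f` to the barycentre of its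
`i`-th side; from the barycentre of a 2-cell `f` to its `i`-th corner, i.e. to the starting vertex
of the `i`-th side. -/
inductive SdEdge : Type u
  | half (e : Y.E) (b : Bool)
  | side (f : Y.F) (i : Fin (Y.bd f).length)
  | corner (f : Y.F) (i : Fin (Y.bd f).length)

/-- The 2-cells of the barycentric subdivision: for each 2-cell `f` and each side `i` of `f`, the
two triangles spanned by `f`, its `i`-th side, and the starting (`false`) or final (`true`) vertex
of that side. -/
inductive SdFace : Type u
  | tri (f : Y.F) (i : Fin (Y.bd f).length) (b : Bool)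

/-- The cyclically next index. -/
def next {n : ℕ} (i : Fin n) : Fin n := ⟨(i + 1) % n, Nat.mod_lt _ i.pos⟩

/-- The barycentric subdivision of a 2-complex. Its vertices are the cells (vertices, edges,
2-cells) of the complex. -/
def sd : TwoComplex.{u} where
  V := Y.V ⊕ Y.E ⊕ Y.F
  E := Y.SdEdge
  F := Y.SdFace
  ini
    | .half e _ => .inr (.inl e)
    | .side f _ => .inr (.inr f)
    | .corner f _ => .inr (.inr f)
  ter
    | .half e b => .inl (Y.tgt (e, b))
    | .side f i => .inr (.inl ((Y.bd f).get i).1)
    | .corner f i => .inl (Y.src ((Y.bd f).get i))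
  bd
    | .tri f i false => [(.side f i, true),
        (.half ((Y.bd f).get i).1 (!((Y.bd f).get i).2), true), (.corner f i, false)]
    | .tri f i true => [(.side f i, true),
        (.half ((Y.bd f).get i).1 ((Y.bd f).get i).2, true), (.corner f (next i), false)]

/-- A set of cells is a subcomplex if it contains the endpoints of its edges and the sides of its
2-cells. -/
def IsSubcomplex (C : Set (Y.V ⊕ Y.E ⊕ Y.F)) : Prop :=
  (∀ e : Y.E, .inr (.inl e) ∈ C → .inl (Y.ini e) ∈ C ∧ .inl (Y.ter e) ∈ C) ∧
  (∀ f : Y.F, .inr (.inr f) ∈ C → ∀ a ∈ Y.bd f, .inr (.inl a.1) ∈ C)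

end TwoComplex

section Cover

variable {G : Type*} [Group G] {X : Type} (val : X → G)

/-- The value in `G` of a letter `x` or `x⁻¹`. -/
def letterVal (a : X × Bool) : G := cond a.2 (val a.1) (val a.1)⁻¹

/-- The value in `G` of a word in the letters `x`, `x⁻¹`. -/
def wordVal (w : List (X × Bool)) : G := (w.map (letterVal val)).prod

variable {Ω : Type u} (act : Ω → G → Ω)

/-- The oriented edge with label `a` starting at `v`, in the complex whose (positive) edges are
the pairs `(v, x)`, running from `v` to `v · x`. -/
def edgeAt (v : Ω) (a : X × Bool) : (Ω × X) × Bool :=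
  if a.2 then ((v, a.1), true) else ((act v (val a.1)⁻¹, a.1), false)

/-- The edge path starting at `v` and labelled by the word `w`. -/
def lift : Ω → List (X × Bool) → List ((Ω × X) × Bool)
  | _, [] => []
  | v, a :: w => edgeAt val act v a :: lift (act v (letterVal val a)) w

/-- The 2-complex with vertex set `Ω`, an edge from `v` to `v · x` for each vertex `v` and each
generator `x`, and, for each vertex `v` and each relator `r`, a 2-cell attached along the path that
starts at `v` and reads `r`. -/
abbrev coverComplex (R : Set (List (X × Bool))) : TwoComplex.{u} where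
  V := Ω
  E := Ω × X
  F := Ω × R
  ini e := e.1
  ter e := act e.1 (val e.2)
  bd f := lift val act f.1 f.2

end Cover

section Groups

variable {G : Type u} [Group G]

variable (G) in
/-- A finite presentation of `G`: finitely many generators, finitely many nonempty words (in the
generators and their inverses) as relators, such that the generators generate `G` and the kernel of
the map from the free group is the normal closure of the relators. -/
structure FinPres where
  X : Type
  finX : Finite X
  val : X → G
  R : Set (List (X × Bool))
  finR : R.Finite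
  ne : ∀ r ∈ R, r ≠ []
  surj : Function.Surjective (FreeGroup.lift val)
  ker : (FreeGroup.lift val).ker = Subgroup.normalClosure (FreeGroup.mk '' R)

/-- The set `S \ G` of right cosets `S g`. -/
def RCoset (S : Subgroup G) : Type u := Quotient (QuotientGroup.rightRel S)

/-- The coset `S g`. -/
def RCoset.mk (S : Subgroup G) (g : G) : RCoset S := Quotient.mk _ g

/-- The coset `(S x) g = S (x g)`. -/
def RCoset.mul (S : Subgroup G) (c : RCoset S) (g : G) : RCoset S :=
  Quotient.map (· * g) (by
    intro a b h
    have h1 : b * a⁻¹ ∈ S := QuotientGroup.rightRel_apply.mp h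
    refine QuotientGroup.rightRel_apply.mpr ?_
    show b * g * (a * g)⁻¹ ∈ S
    rwa [mul_inv_rev, mul_assoc, mul_inv_cancel_left]) c

/-- The complex `Cayley₂(G, S)`: the covering, corresponding to the subgroup `S`, of the presentation
2-complex. Its vertices are the right cosets of `S`. -/
def Cayley2 (P : FinPres G) (S : Subgroup G) : TwoComplex.{u} :=
  coverComplex P.val (RCoset.mul S) P.R

end Groups

end Pool.Agent.Helper28.Tame
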