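import Pool.Agent.Helper28.Tame.Schreier

set_option autoImplicit false

namespace Pool.Agent.Helper28.Tame

open TwoComplex

universe u

lemma finite_shift {G : Type*} [Group G] {Ω : Type*} {act : Ω → G → Ω} (h : IsAct act)
    {P : Set G} (hP : P.Finite) {C : Set Ω} (hC : C.Finite) :
    {v | ∃ g ∈ P, act v g ∈ C}.Finite := by
  refine (hP.biUnion (t := fun g => (fun c => act c g⁻¹) '' C) fun g _ => hC.image _).subset ?_
  rintro v ⟨g, hg, hv⟩
  simp only [Set.mem_iUnion]
  exact ⟨g, hg, act v g, hv, h.mul_inv v g⟩

lemma start_of_lift {G : Type*} [Group G] {X : Type} {val : X → G} {Ω : Type u}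
    {act : Ω → G → Ω} {R : Set (List (X × Bool))} (h : IsAct act) {U : Set Ω} {v u w : Ω}
    {r : List (X × Bool)} (hr : r ≠ [])
    (hp : (coverComplex val act R).IsPath U (lift val act v r) u w) : u = v := by
  cases r with
  | nil => exact absurd rfl hr
  | cons a r =>
    have := hp.1
    rw [src_edgeAt _ _ h] at this
    exact this.symm

section

variable {G : Type u} [Group G] {X Z : Type} {val : X → G} {Ω : Type u} {act : Ω → G → Ω}
  {R : Set (List (X × Bool))} {valZ : Z → G} {W : Z → List (X × Bool)}

/-- substitute words for the new letters -/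
def substLetter (W : Z → List (X × Bool)) (a : (X ⊕ Z) × Bool) : List (X × Bool) :=
  match a with
  | (Sum.inl x, b) => [(x, b)]
  | (Sum.inr z, true) => W z
  | (Sum.inr z, false) => invWord (W z)

def substWord (W : Z → List (X × Bool)) (w : List ((X ⊕ Z) × Bool)) : List (X × Bool) :=
  w.flatMap (substLetter W)

lemma wordVal_substLetter (hW : ∀ z, wordVal val (W z) = valZ z) (a : (X ⊕ Z) × Bool) :
    wordVal val (substLetter W a) = letterVal (Sum.elim val valZ) a := by
  rcases a with ⟨x | z, _ | _⟩ <;> simp [substLetter, letterVal, hW]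

lemma wordVal_substWord (hW : ∀ z, wordVal val (W z) = valZ z) (w : List ((X ⊕ Z) × Bool)) :
    wordVal val (substWord W w) = wordVal (Sum.elim val valZ) w := by
  induction w with
  | nil => rfl
  | cons a w ih =>
    rw [wordVal_cons, ← ih, ← wordVal_substLetter hW]
    simp [substWord]

/-- the edge map of the substitution -/
def substEdge (val : X → G) (act : Ω → G → Ω) (W : Z → List (X × Bool)) (e : Ω × (X ⊕ Z)) :
    List ((Ω × X) × Bool) := lift val act e.1 (substLetter W (e.2, true))

lemma ext_substEdge (h : IsAct act) (hW : ∀ z, wordVal val (W z) = valZ z)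
    {R' : Set (List ((X ⊕ Z) × Bool))} (v : Ω) (a : (X ⊕ Z) × Bool) :
    TwoComplex.ext (Y := coverComplex (Sum.elim val valZ) act R') (Z := coverComplex val act R)
      (substEdge val act W) (edgeAt (Sum.elim val valZ) act v a) =
      lift val act v (substLetter W a) := by
  rcases a with ⟨z, _ | _⟩
  · have h1 : TwoComplex.ext (Y := coverComplex (Sum.elim val valZ) act R')
        (Z := coverComplex val act R) (substEdge val act W)
        (edgeAt (Sum.elim val valZ) act v (z, false)) =
        rev (Y := coverComplex val act R)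
          (lift val act (act v (Sum.elim val valZ z)⁻¹) (substLetter W (z, true))) := rfl
    rw [h1, rev_lift h, wordVal_substLetter hW]
    have h2 : act (act v (Sum.elim val valZ z)⁻¹) (letterVal (Sum.elim val valZ) (z, true)) = v := by
      simp [letterVal, h.inv_mul]
    rw [h2]
    congr 1
    rcases z with x | z
    · rfl
    · rfl
  · rfl

lemma mapPath_substEdge (h : IsAct act) (hW : ∀ z, wordVal val (W z) = valZ z)
    {R' : Set (List ((X ⊕ Z) × Bool))} (v : Ω) (w : List ((X ⊕ Z) × Bool)) :
    TwoComplex.mapPath (Y := coverComplex (Sum.elim val valZ) act R')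
      (Z := coverComplex val act R)
      (substEdge val act W) (lift (Sum.elim val valZ) act v w) =
      lift val act v (substWord W w) := by
  induction w generalizing v with
  | nil => rfl
  | cons a w ih =>
    rw [lift_cons, mapPath_cons, ext_substEdge h hW, ih]
    simp only [substWord, List.flatMap_cons]
    rw [lift_append h, wordVal_substLetter hW]

/-- Coarse tameness may be checked in a complex with additional generators and any finite set of
(valid) relators. -/
lemma AllT2.of_enrich [Finite X] [Finite Z] (hP : Presents val R) (h : IsAct act)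
    {R' : Set (List ((X ⊕ Z) × Bool))} (hR' : R'.Finite)
    (hR1 : ∀ r ∈ R', wordVal (Sum.elim val valZ) r = 1)
    (hT : (coverComplex (Sum.elim val valZ) act R').AllT2) :
    (coverComplex val act R).AllT2 := by
  classical
  choose W hW using fun z => hP.exists_wordVal (valZ z)
  have hnull : ∀ r : List ((X ⊕ Z) × Bool), ∃ P : Set G, P.Finite ∧ (r ∈ R' →
      ∀ (U : Set Ω) (v : Ω), (∀ g ∈ P, act v g ∈ U) →
      Htpy (Y := coverComplex val act R) U v v (lift val act v (substWord W r)) []) := by
    intro r
    by_cases hr : r ∈ R'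
    · have h1 : wordVal val (substWord W r) = 1 := by rw [wordVal_substWord hW, hR1 r hr]
      obtain ⟨P, hP1, hP2⟩ := exists_null hP h1
      exact ⟨P, hP1, fun _ => hP2 Ω act h⟩
    · exact ⟨∅, Set.finite_empty, fun h => absurd h hr⟩
  choose P hP1 hP2 using hnull
  let PP : Set G := {1} ∪ (⋃ r ∈ R', P r) ∪ ⋃ z : X ⊕ Z, preVals val (substLetter W (z, true))
  have hPP : PP.Finite := ((Set.finite_singleton _).union (hR'.biUnion fun r _ => hP1 r)).union
    (Set.finite_iUnion fun z => preVals_finite _)
  refine AllT2.transfer hT (locFin_cover h) id id (substEdge val act W)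
    (strictEdge id Sum.inl) (fun _ => []) ?_ ?_
  · intro C hC
    refine ⟨{v | ∃ g ∈ PP, act v g ∈ C}, finite_shift h hPP hC, ?_, ?_, ?_⟩
    · intro v hv hvC
      exact hv ⟨1, Or.inl (Or.inl rfl), by rwa [h.one]⟩
    · rintro ⟨v, z⟩ h1 h2
      have h3 := isPath_lift (val := val) (R := R) h (U := Cᶜ) (v := v)
        (w := substLetter W (z, true)) (by
          intro g hg hgC
          exact h1 ⟨g, Or.inr (Set.mem_iUnion.mpr ⟨z, hg⟩), hgC⟩)
      rw [wordVal_substLetter hW] at h3
      exact h3
    · rintro ⟨v, r⟩ u hu
      have hu2 : u ∈ (C : Set Ω)ᶜ := by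
        intro huC
        exact hu.start_mem ⟨1, Or.inl (Or.inl rfl), by rwa [h.one]⟩
      rcases eq_or_ne r.1 [] with hr | hr
      · have : (coverComplex (Sum.elim val valZ) act R').bd (v, r) = [] := by
          show lift (Sum.elim val valZ) act v r.1 = []
          rw [hr]; rfl
        rw [this, mapPath_nil]
        exact .refl ⟨rfl, hu2⟩
      · have huv : u = v := start_of_lift h hr hu
        subst huv
        have h3 : TwoComplex.mapPath (Y := coverComplex (Sum.elim val valZ) act R')
          (Z := coverComplex val act R) (substEdge val act W)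
          ((coverComplex (Sum.elim val valZ) act R').bd (u, r)) =
            lift val act u (substWord W r) := mapPath_substEdge h hW u r.1
        rw [h3]
        refine hP2 r.1 r.2 Cᶜ u ?_
        intro g hg hgC
        refine hu.start_mem ⟨g, Or.inl (Or.inr ?_), hgC⟩
        simp only [Set.mem_iUnion]
        exact ⟨r.1, r.2, hg⟩
  · intro C C₁ hC hC₁
    refine ⟨C ∪ C₁, hC.union hC₁, ?_, ?_, ?_⟩
    · intro v hv
      exact ⟨rfl, fun h => hv (Or.inl h)⟩
    · intro v hv h
      exact hv (Or.inr h)
    · rintro ⟨v, x⟩ h1 h2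
      refine ⟨isPath_single.mpr ⟨rfl, rfl, fun h => h1 (Or.inr h), fun h => h2 (Or.inr h)⟩, ?_⟩
      have h3 : TwoComplex.mapPath (Y := coverComplex (Sum.elim val valZ) act R')
          (Z := coverComplex val act R) (substEdge val act W)
          (strictEdge (Ω₂ := Ω) id Sum.inl (v, x)) = [((v, x), true)] := rfl
      rw [h3]
      exact .refl (isPath_single.mpr ⟨rfl, rfl, fun h => h1 (Or.inl h), fun h => h2 (Or.inl h)⟩)

end

end Pool.Agent.Helper28.Tame
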