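import Pool.Agent.Helper28.Tame.Central2

set_option autoImplicit false

namespace Pool.Agent.Helper28.Tame

open TwoComplex

universe u

lemma Htpy.square {Y : TwoComplex.{u}} {U : Set Y.V} {p q r s : Y.V}
    {a b c d : List (Y.E × Bool)} (ha : Y.IsPath U a p q) (hb : Y.IsPath U b q r)
    (hc : Y.IsPath U c p s) (hd : Y.IsPath U d s r) (h : Htpy U p r (a ++ b) (c ++ d)) :
    Htpy U q s (rev a ++ c) (b ++ rev d) := by
  -- rev a ++ c ~ rev a ++ c ++ d ++ rev d ~ rev a ++ a ++ b ++ rev d ~ b ++ rev d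
  have h1 := Htpy.append_left (ha.rev.append hc) (Htpy.self_rev hd).symm
  have h2 := Htpy.append_left ha.rev (h.symm.append_right hd.rev)
  have h3 := (Htpy.rev_self ha).append_right (hb.append hd.rev)
  simp only [List.append_assoc, List.append_nil, List.nil_append] at h1 h2 h3
  exact h1.trans (h2.trans h3)

section

variable {G : Type u} [Group G] {X : Type} {val : X → G} {Ω : Type u} {act : Ω → G → Ω}
  {R : Set (List (X × Bool))} {H : Subgroup G} {XH : Type} {valH : XH → H}
  {RH : Set (List (XH × Bool))}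

/-- restriction of the action -/
abbrev actH (act : Ω → G → Ω) (H : Subgroup G) : Ω → H → Ω := fun v h => act v h

lemma isAct_H (h : IsAct act) : IsAct (actH act H) :=
  ⟨fun v => h.one v, fun v a b => h.mul v a b⟩

/-- values of the letters of the enriched complex -/
abbrev nval (val : X → G) (valH : XH → H) : X ⊕ XH → G := Sum.elim val (fun a => (valH a : G))

lemma wordVal_inr (w : List (XH × Bool)) :
    wordVal (nval val valH) (mapWord Sum.inr w) = ((wordVal valH w : H) : G) := by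
  induction w with
  | nil => rfl
  | cons a w ih =>
    have h1 : mapWord Sum.inr (a :: w) = ((Sum.inr a.1 : X ⊕ XH), a.2) :: mapWord Sum.inr w := rfl
    rw [h1, wordVal_cons, wordVal_cons, ih]
    rcases a with ⟨a, _ | _⟩ <;> simp [letterVal]

/-- the relators of the enriched complex -/
def nRel (RH : Set (List (XH × Bool))) (W : XH → X → List (XH × Bool)) :
    Set (List ((X ⊕ XH) × Bool)) :=
  (mapWord Sum.inr '' RH) ∪ Set.range (fun p : XH × X =>
    [(Sum.inr p.1, true), (Sum.inl p.2, true)] ++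
      invWord ((Sum.inl p.2, true) :: mapWord Sum.inr (W p.1 p.2)))

/-- Main theorem on normal subgroups with finitely many orbits. -/
theorem allT2_normal [Finite X] [Finite XH] [hN : H.Normal] (hP : Presents val R)
    (hPH : Presents valH RH) (hRH : RH.Finite) (h : IsAct act)
    (B₀ : Set Ω) (hB₀ : B₀.Finite) (hB₀2 : ∀ v, ∃ b ∈ B₀, ∃ g : H, act b g = v)
    (hT : (coverComplex valH (actH act H) RH).AllT1) :
    (coverComplex val act R).AllT2 := by
  classical
  have hH : IsAct (actH act H) := isAct_H h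
  -- the words for the conjugates
  have hWex : ∀ (a : XH) (x : X), ∃ w : List (XH × Bool),
      ((wordVal valH w : H) : G) = (val x)⁻¹ * (valH a : G) * val x := by
    intro a x
    have hmem : (val x)⁻¹ * (valH a : G) * val x ∈ H := by
      have := hN.conj_mem (valH a : G) (valH a).2 (val x)⁻¹
      simpa using this
    obtain ⟨w, hw⟩ := hPH.exists_wordVal ⟨_, hmem⟩
    exact ⟨w, by rw [hw]⟩
  choose W hW using hWex
  have hRHval : ∀ r ∈ RH, wordVal valH r = 1 := by
    intro r hr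
    rw [← lift_mk_eq, ← MonoidHom.mem_ker, hPH.ker]
    exact Subgroup.subset_normalClosure ⟨r, hr, rfl⟩
  have hRfin : (nRel (X := X) RH W).Finite := (hRH.image _).union (Set.finite_range _)
  have hRval : ∀ r ∈ nRel RH W, wordVal (nval val valH) r = 1 := by
    rintro r (⟨r, hr, rfl⟩ | ⟨⟨a, x⟩, rfl⟩)
    · rw [wordVal_inr, hRHval r hr]; rfl
    · simp only [wordVal_append, wordVal_inv, wordVal_cons, wordVal_nil, mul_one, wordVal_inr, hW]
      simp only [letterVal, Sum.elim_inl, Sum.elim_inr, cond_true]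
      group
  refine AllT2.of_enrich (Z := XH) (valZ := fun a => (valH a : G)) hP h hRfin hRval ?_
  show (coverComplex (nval val valH) act (nRel RH W)).AllT2
  set K := coverComplex (nval val valH) act (nRel RH W) with hK
  set KH := coverComplex valH (actH act H) RH with hKH
  -- the inclusion of the H-complex
  have hf : ∀ (v : Ω) (a : XH), id (actH act H v (valH a)) = act (id v) (nval val valH (Sum.inr a)) :=
    fun v a => rfl
  have hincl : ∀ U : Set Ω, TwoComplex.IsMap (Y := KH) (Z := K) U U id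
      (strictEdge (Ω := Ω) id Sum.inr) := fun U =>
    isMap_strict (R := RH) (R₂ := nRel RH W) hH h id Sum.inr hf (fun r hr => Or.inl ⟨r, hr, rfl⟩) U U
      (fun v hv => hv)
  set ι : List (KH.E × Bool) → List (K.E × Bool) :=
    TwoComplex.mapPath (Y := KH) (Z := K) (strictEdge (Ω := Ω) id Sum.inr) with hι
  have hιpath : ∀ {U : Set Ω} {l : List (KH.E × Bool)} {u v : Ω}, KH.IsPath U l u v →
      K.IsPath U (ι l) u v := fun hl => (hincl _).path hl
  have hιhtpy : ∀ {U : Set Ω} {l l' : List (KH.E × Bool)} {u v : Ω}, Htpy (Y := KH) U u v l l' →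
      Htpy (Y := K) U u v (ι l) (ι l') := fun hl => (hincl _).htpy hl
  have hιapp : ∀ l l' : List (KH.E × Bool), ι (l ++ l') = ι l ++ ι l' := fun l l' =>
    mapPath_append _ l l'
  have hιrev : ∀ l : List (KH.E × Bool), ι (rev l) = rev (ι l) := fun l => mapPath_rev _ l
  have hιlift : ∀ (v : Ω) (w : List (XH × Bool)), ι (lift valH (actH act H) v w) =
      lift (nval val valH) act v (mapWord Sum.inr w) := fun v w =>
    mapPath_strict (R := RH) (R₂ := nRel RH W) hH h id Sum.inr hf v w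
  intro C hC
  let PP : Set G := {1} ∪ ⋃ p : XH × X, (fun g => val p.2 * g) ''
    ((fun g : H => (g : G)) '' preVals valH (W p.1 p.2))
  have hPP : PP.Finite := (Set.finite_singleton _).union
    (Set.finite_iUnion fun p => ((preVals_finite _).image _).image _)
  let C' : Set Ω := {v | ∃ g ∈ PP, act v g ∈ C}
  have hC'fin : C'.Finite := finite_shift h hPP hC
  have hCC' : C ⊆ C' := fun v hv => ⟨1, Or.inl rfl, by rwa [h.one]⟩
  refine ⟨C', hC'fin, hCC', ?_⟩
  have hsub : C'ᶜ ⊆ Cᶜ := Set.compl_subset_compl.mpr hCC'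
  -- connectivity of the H-complex
  have hconn : ∀ v : Ω, ∃ b ∈ B₀, ∃ l, KH.IsPath Set.univ l v b := by
    intro v
    obtain ⟨b, hb, g, hg⟩ := hB₀2 v
    obtain ⟨w, hw⟩ := hPH.exists_wordVal g
    refine ⟨b, hb, rev (Y := KH) (lift valH (actH act H) b w), ?_⟩
    have := (isPath_lift_univ (val := valH) (R := RH) hH b w).rev
    rw [hw] at this
    have e1 : actH act H b g = v := hg
    rwa [e1] at this
  have hKHfin : KH.LocFin := locFin_cover hH
  obtain ⟨B, hB1, hB2, hB3⟩ := exists_finite_reps hKHfin hB₀ hC'fin hconn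
  -- components of the set where the vertical edge x is available
  let CX : X → Set Ω := fun x => C' ∪ {v | act v (val x) ∈ C'}
  have hCX : ∀ x, (CX x).Finite := fun x => hC'fin.union (by
    have := finite_shift h (Set.finite_singleton (val x)) hC'fin
    simpa using this)
  have hBX := fun x => exists_finite_reps hKHfin hB₀ (hCX x) hconn
  choose BX hBX1 hBX2 hBX3 using hBX
  let E₀ : Set Ω := B ∪ (⋃ x, BX x) ∪ ⋃ x, (fun v => act v (val x)) '' BX x
  have hE₀ : E₀.Finite := (hB1.union (Set.finite_iUnion fun x => hBX1 x)).union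
    (Set.finite_iUnion fun x => (hBX1 x).image _)
  obtain ⟨D₁, hD₁, hD₁2⟩ := hT C' hC'fin E₀ hE₀
  obtain ⟨D₂, hD₂, hD₂2⟩ := hT C hC E₀ hE₀
  let D : Set Ω := D₁ ∪ D₂ ∪ E₀
  choose! b hbB lv hlv using hB3
  refine T2.of_tails hCC' (fun v => ι (lv v)) b D ((hD₁.union hD₂).union hE₀) ?_ ?_ ?_
  · intro v hv
    exact (hιpath (hlv v hv)).mono hsub
  · intro v hv
    exact Or.inr (Or.inl (Or.inl (hbB v hv)))
  rintro ⟨v, x | a⟩ hv1 hv2
  · -- vertical edge
    replace hv1 : v ∈ C'ᶜ := hv1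
    replace hv2 : act v (val x) ∈ C'ᶜ := hv2
    have hvx : v ∈ (CX x)ᶜ := by
      rintro (h1 | h1)
      · exact hv1 h1
      · exact hv2 h1
    obtain ⟨b', hb', ρ, hρ⟩ := hBX3 x v hvx
    have hb'C : b' ∈ (CX x)ᶜ := hBX2 x hb'
    -- pushing paths along x
    let θ : KH.E → List (KH.E × Bool) := fun e => lift valH (actH act H) (act e.1 (val x)) (W e.2 x)
    let f : Ω → Ω := fun p => act p (val x)
    have hmem : ∀ p ∈ (CX x)ᶜ, f p ∈ Cᶜ := fun p hp => hsub fun h1 => hp (Or.inr h1)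
    have hPPmem : ∀ p ∈ C'ᶜ, ∀ a : XH, ∀ g ∈ preVals valH (W a x),
        act (act p (val x)) (g : G) ∈ Cᶜ := by
      intro p hp a g hg hgC
      refine hp ⟨val x * g, Or.inr ?_, by rwa [← h.mul]⟩
      simp only [Set.mem_iUnion]
      exact ⟨(a, x), g, ⟨g, hg, rfl⟩, rfl⟩
    have hedge : ∀ e, KH.ini e ∈ (CX x)ᶜ → KH.ter e ∈ (CX x)ᶜ →
        KH.IsPath Cᶜ (θ e) (f (KH.ini e)) (f (KH.ter e)) := by
      rintro ⟨p, a⟩ h1 h2
      have h3 := isPath_lift (val := valH) (R := RH) hH (U := Cᶜ) (v := act p (val x))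
        (w := W a x) (fun g hg => hPPmem p (fun hp => h1 (Or.inl hp)) a g hg)
      have e1 : actH act H (act p (val x)) (wordVal valH (W a x)) = f (KH.ter (p, a)) := by
        show act (act p (val x)) ((wordVal valH (W a x) : H) : G) = act (act p (valH a)) (val x)
        rw [hW, h.mul, h.mul]
        congr 1
        group
      rwa [e1] at h3
    -- single positive edge
    have hsq : ∀ e, KH.ini e ∈ (CX x)ᶜ → KH.ter e ∈ (CX x)ᶜ →
        Htpy (Y := K) Cᶜ (KH.ini e) (f (KH.ter e))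
          (ι [(e, true)] ++ [((KH.ter e, Sum.inl x), true)])
          ([((KH.ini e, Sum.inl x), true)] ++ ι (θ e)) := by
      rintro ⟨p, a⟩ h1 h2
      have hp : p ∈ Cᶜ := hsub fun hp => h1 (Or.inl hp)
      have hpa : act p (valH a) ∈ Cᶜ := hsub fun hp => h2 (Or.inl hp)
      have hpx : act p (val x) ∈ Cᶜ := hmem p h1
      have hpax : act (act p (valH a)) (val x) ∈ Cᶜ := hmem _ h2
      have p1 : K.IsPath Cᶜ (ι [((p, a), true)] ++ [((act p (valH a), Sum.inl x), true)]) p
          (act (act p (valH a)) (val x)) := by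
        refine IsPath.append (Y := K) (hιpath (show KH.IsPath Cᶜ [((p, a), true)] p
          (act p (valH a)) from isPath_single.mpr ⟨rfl, rfl, hp, hpa⟩)) ?_
        exact isPath_single.mpr ⟨rfl, rfl, hpa, hpax⟩
      have p2 : K.IsPath Cᶜ ([((p, Sum.inl x), true)] ++ ι (θ (p, a))) p
          (act (act p (valH a)) (val x)) := by
        refine IsPath.append (isPath_single.mpr ⟨rfl, rfl, hp, hpx⟩) ?_
        exact hιpath (hedge (p, a) h1 h2)
      refine Htpy.cancel_right p2.rev p1 p2 ?_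
      refine Htpy.trans ?_ (Htpy.self_rev p2).symm
      refine .step (p1.append p2.rev) ⟨rfl, hp⟩ ?_
      have hrel : (ι [((p, a), true)] ++ [((act p (valH a), Sum.inl x), true)]) ++
          rev (Y := K) ([((p, Sum.inl x), true)] ++ ι (θ (p, a))) =
          K.bd (p, ⟨_, Or.inr ⟨(a, x), rfl⟩⟩) := by
        have e1 : ([((p, Sum.inl x), true)] ++ ι (θ (p, a)) : List (K.E × Bool)) =
            lift (nval val valH) act p ((Sum.inl x, true) :: mapWord Sum.inr (W a x)) := by
          show ((p, Sum.inl x), true) :: ι (lift valH (actH act H) (act p (val x)) (W a x)) = _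
          rw [hιlift]
          rfl
        rw [e1, rev_lift h]
        show _ = lift (nval val valH) act p ([(Sum.inr a, true), (Sum.inl x, true)] ++
          invWord ((Sum.inl x, true) :: mapWord Sum.inr (W a x)))
        rw [lift_append h]
        congr 1
        congr 1
        rw [wordVal_cons, wordVal_inr, hW]
        simp only [wordVal_cons, wordVal_nil, mul_one]
        simp only [letterVal, Sum.elim_inl, Sum.elim_inr, cond_true]
        congr 1
        group
      rw [hrel]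
      have := Step.face (Y := K) [] (p, ⟨_, Or.inr ⟨(a, x), rfl⟩⟩) []
      simpa using this
    have hsq' : ∀ a : KH.E × Bool, KH.src a ∈ (CX x)ᶜ → KH.tgt a ∈ (CX x)ᶜ →
        Htpy (Y := K) Cᶜ (KH.src a) (f (KH.tgt a))
          (ι [a] ++ [((KH.tgt a, Sum.inl x), true)])
          ([((KH.src a, Sum.inl x), true)] ++ ι (ext θ a)) := by
      rintro ⟨e, _ | _⟩ h1 h2
      · have h1' : KH.ter e ∈ (CX x)ᶜ := h1
        have h2' : KH.ini e ∈ (CX x)ᶜ := h2
        have h3 := hsq e h2' h1'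
        have pa : K.IsPath Cᶜ (ι [(e, true)]) (KH.ini e) (KH.ter e) :=
          hιpath (isPath_single.mpr ⟨rfl, rfl, hsub fun h => h2' (Or.inl h),
            hsub fun h => h1' (Or.inl h)⟩)
        have pb : K.IsPath Cᶜ [((KH.ter e, Sum.inl x), true)] (KH.ter e) (f (KH.ter e)) :=
          isPath_single.mpr ⟨rfl, rfl, hsub fun h => h1' (Or.inl h), hmem _ h1'⟩
        have pc : K.IsPath Cᶜ [((KH.ini e, Sum.inl x), true)] (KH.ini e) (f (KH.ini e)) :=
          isPath_single.mpr ⟨rfl, rfl, hsub fun h => h2' (Or.inl h), hmem _ h2'⟩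
        have pd : K.IsPath Cᶜ (ι (θ e)) (f (KH.ini e)) (f (KH.ter e)) :=
          hιpath (hedge e h2' h1')
        have h4 := Htpy.square pa pb pc pd h3
        rw [← hιrev, ← hιrev] at h4
        exact h4
      · exact hsq e h1 h2
    have hpush : ∀ (l : List (KH.E × Bool)) (p q : Ω), KH.IsPath (CX x)ᶜ l p q →
        Htpy (Y := K) Cᶜ p (f q) (ι l ++ [((q, Sum.inl x), true)])
          ([((p, Sum.inl x), true)] ++ ι (mapPath θ l)) := by
      intro l
      induction l with
      | nil =>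
        rintro p q ⟨rfl, hp⟩
        exact .refl (isPath_single.mpr ⟨rfl, rfl, hsub fun h => hp (Or.inl h), hmem _ hp⟩)
      | cons a l ih =>
        rintro p q ⟨rfl, hp, hl⟩
        have h1 := ih _ _ hl
        have h2 := hsq' a hp hl.start_mem
        have h3 : K.IsPath Cᶜ (ι [a]) (KH.src a) (KH.tgt a) :=
          hιpath (isPath_single.mpr ⟨rfl, rfl, hsub fun h => hp (Or.inl h),
            hsub fun h => hl.start_mem (Or.inl h)⟩)
        have h4 := Htpy.append_left h3 h1
        have h5 : K.IsPath Cᶜ (ι (mapPath θ l)) (f (KH.tgt a)) (f q) :=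
          hιpath (isPath_mapPath hmem hedge hl)
        have h6 := h2.append_right h5
        have e1 : ι (a :: l) = ι [a] ++ ι l := hιapp [a] l
        have e2 : ι (mapPath θ (a :: l)) = ι (ext θ a) ++ ι (mapPath θ l) := hιapp _ _
        rw [e1, e2]
        simp only [List.append_assoc] at h4 h6 ⊢
        exact h4.trans h6
    -- assemble
    have hbE : b v ∈ E₀ := Or.inl (Or.inl (hbB v hv1))
    have hbE2 : b (act v (val x)) ∈ E₀ := Or.inl (Or.inl (hbB _ hv2))
    have hb'E : b' ∈ E₀ := Or.inl (Or.inr (Set.mem_iUnion.mpr ⟨x, hb'⟩))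
    have hb'E2 : act b' (val x) ∈ E₀ := Or.inr (Set.mem_iUnion.mpr ⟨x, b', hb', rfl⟩)
    have hCXC : (CX x)ᶜ ⊆ C'ᶜ := fun p hp h1 => hp (Or.inl h1)
    have hρ' : KH.IsPath C'ᶜ ρ b' v := hρ.mono hCXC
    have hs1 : D₁ ∩ C'ᶜ ⊆ Cᶜ := fun p hp => hsub hp.2
    have hs2 : D₁ ∩ C'ᶜ ⊆ D ∩ Cᶜ := fun p hp => ⟨Or.inl (Or.inl hp.1), hsub hp.2⟩
    have hs3 : D₂ ∩ Cᶜ ⊆ D ∩ Cᶜ := fun p hp => ⟨Or.inl (Or.inr hp.1), hp.2⟩
    obtain ⟨m₁, h1, h2⟩ := hD₁2 _ hbE _ hb'E (lv v ++ rev ρ) ((hlv v hv1).append hρ'.rev)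
    have hpρ : KH.IsPath Cᶜ (mapPath θ ρ) (act b' (val x)) (act v (val x)) :=
      isPath_mapPath hmem hedge hρ
    obtain ⟨m₃, h3, h4⟩ := hD₂2 _ hb'E2 _ hbE2 (mapPath θ ρ ++ rev (lv (act v (val x))))
      (hpρ.append ((hlv _ hv2).mono hsub).rev)
    have hb'C2 : b' ∈ Cᶜ := hsub fun h => hb'C (Or.inl h)
    refine ⟨ι m₁ ++ ([((b', Sum.inl x), true)] ++ ι m₃), ?_, ?_⟩
    · have q1 : K.IsPath (D ∩ Cᶜ) (ι m₁) (b v) b' := IsPath.mono (Y := K) hs2 (hιpath h1)
      have q2 : K.IsPath (D ∩ Cᶜ) [((b', Sum.inl x), true)] b' (act b' (val x)) :=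
        isPath_single.mpr ⟨rfl, rfl, ⟨Or.inr hb'E, hb'C2⟩, ⟨Or.inr hb'E2, hmem _ hb'C⟩⟩
      have q3 : K.IsPath (D ∩ Cᶜ) (ι m₃) (act b' (val x)) (b (act v (val x))) :=
        IsPath.mono (Y := K) hs3 (hιpath h3)
      exact q1.append (q2.append q3)
    · have hτv : K.IsPath Cᶜ (ι (lv v)) (b v) v := IsPath.mono (Y := K) hsub (hιpath (hlv v hv1))
      have hτvx : K.IsPath Cᶜ (ι (lv (act v (val x)))) (b (act v (val x))) (act v (val x)) :=
        IsPath.mono (Y := K) hsub (hιpath (hlv _ hv2))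
      have hιρ : K.IsPath Cᶜ (ι ρ) b' v := IsPath.mono (Y := K) hsub (hιpath hρ')
      have hvC := hsub hv1
      have hvxC := hsub hv2
      have a1 := Htpy.insert hτv (show K.IsPath Cᶜ (((v, Sum.inl x), true) ::
        rev (ι (lv (act v (val x))))) v (b (act v (val x))) from ⟨rfl, hvC, hτvx.rev⟩) hιρ
      have a2 := (Htpy.mono (Y := K) hsub (hιhtpy h2)).append_right (hιρ.append (show K.IsPath Cᶜ
        (((v, Sum.inl x), true) :: rev (ι (lv (act v (val x))))) v (b (act v (val x))) from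
          ⟨rfl, hvC, hτvx.rev⟩))
      have hm1C : K.IsPath Cᶜ (ι m₁) (b v) b' := IsPath.mono (Y := K) hs1 (hιpath h1)
      have a3 := (Htpy.append_left hm1C (hpush ρ b' v hρ)).append_right hτvx.rev
      have hmid : K.IsPath Cᶜ [((b', Sum.inl x), true)] b' (act b' (val x)) :=
        isPath_single.mpr ⟨rfl, rfl, hb'C2, hmem _ hb'C⟩
      have a4 := Htpy.append_left (hm1C.append hmid) (hιhtpy h4)
      rw [hιapp, hιrev] at a2 a4
      simp only [List.append_assoc, List.cons_append, List.nil_append] at a1 a2 a3 a4 ⊢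
      exact a1.trans (a2.trans (a3.trans a4))
  · -- horizontal edge
    replace hv1 : v ∈ C'ᶜ := hv1
    replace hv2 : act v (valH a) ∈ C'ᶜ := hv2
    have hbE : b v ∈ E₀ := Or.inl (Or.inl (hbB v hv1))
    have hbE2 : b (act v (valH a)) ∈ E₀ := Or.inl (Or.inl (hbB _ hv2))
    obtain ⟨m, h1, h2⟩ := hD₁2 _ hbE _ hbE2 (lv v ++ (((v, a), true) :: rev (lv (act v (valH a)))))
      ((hlv v hv1).append (show KH.IsPath C'ᶜ (((v, a), true) :: rev (lv (act v (valH a)))) v _ from
        ⟨rfl, hv1, (hlv _ hv2).rev⟩))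
    have hs2 : D₁ ∩ C'ᶜ ⊆ D ∩ Cᶜ := fun p hp => ⟨Or.inl (Or.inl hp.1), hsub hp.2⟩
    refine ⟨ι m, IsPath.mono (Y := K) hs2 (hιpath h1), ?_⟩
    have h3 := Htpy.mono (Y := K) hsub (hιhtpy h2)
    have e1 : ι (lv v ++ (((v, a), true) :: rev (lv (act v (valH a))))) =
        ι (lv v) ++ (((v, Sum.inr a), true) :: rev (ι (lv (act v (valH a))))) := by
      rw [hιapp, ← hιrev]
      rfl
    rw [e1] at h3
    exact h3

end

end Pool.Agent.Helper28.Tame
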