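import Pool.Agent.Helper28.Tame.TameDefs
import Pool.Agent.Helper28.Tame.Bridge
import Pool.Agent.Helper28.Tame.Central3
import Pool.Agent.Helper28.Tame.Normal

set_option autoImplicit false

namespace Pool.Agent.Helper28.Tame

open TwoComplex

universe u

section

variable {G : Type u} [Group G]

lemma FinPres.presents (P : FinPres G) : Presents P.val P.R := ⟨P.surj, P.ker⟩

lemma FinPres.rel_val (P : FinPres G) : ∀ r ∈ P.R, wordVal P.val r = 1 := by
  intro r hr
  rw [← lift_mk_eq, ← MonoidHom.mem_ker, P.ker]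
  exact Subgroup.subset_normalClosure ⟨r, hr, rfl⟩

lemma mem_lift {X : Type} {val : X → G} {Ω : Type u} {act : Ω → G → Ω}
    {R : Set (List (X × Bool))} (h : IsAct act) {v : Ω} {w : List (X × Bool)}
    {a : (Ω × X) × Bool} (ha : a ∈ lift val act v w) :
    ∃ g ∈ preVals val w, act v g = (coverComplex val act R).src a := by
  induction w generalizing v with
  | nil => simp at ha
  | cons b w ih =>
    rw [lift_cons, List.mem_cons] at ha
    rcases ha with rfl | ha
    · exact ⟨1, ⟨[], List.nil_prefix, rfl⟩, by rw [h.one, src_edgeAt _ _ h]⟩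
    · obtain ⟨g, ⟨p, hp, rfl⟩, hg⟩ := ih ha
      refine ⟨letterVal val b * wordVal val p, ⟨b :: p, List.cons_prefix_cons.mpr ⟨rfl, hp⟩, by simp⟩,
        ?_⟩
      rw [← h.mul, hg]

lemma good_cover {X : Type} [Finite X] {val : X → G} {Ω : Type u} {act : Ω → G → Ω}
    {R : Set (List (X × Bool))} (h : IsAct act) (hR : R.Finite) (hne : ∀ r ∈ R, r ≠ [])
    (hval : ∀ r ∈ R, wordVal val r = 1) : (coverComplex val act R).Good where
  loc := locFin_cover h
  ne := by
    rintro ⟨v, r⟩ hbd
    have : r.1 ≠ [] := hne r.1 r.2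
    have h1 : lift val act v r.1 = [] := hbd
    cases hr : r.1 with
    | nil => exact this hr
    | cons a w => rw [hr] at h1; simp at h1
  closed := by
    rintro ⟨v, r⟩
    refine ⟨v, ?_⟩
    have := isPath_lift_univ (val := val) (R := R) h v r.1
    rwa [hval r.1 r.2, h.one] at this
  face := by
    intro v
    have hfin : (⋃ r ∈ R, (fun g : G => act v g⁻¹) '' preVals val r).Finite :=
      hR.biUnion fun r _ => (preVals_finite r).image _
    have hR' : (Set.univ : Set R).Finite := by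
      have := hR.to_subtype
      exact Set.finite_univ
    refine (hfin.prod hR').subset ?_
    rintro ⟨v', r⟩ ⟨a, ha, hav⟩
    refine ⟨?_, trivial⟩
    obtain ⟨g, hg, hg2⟩ := mem_lift (R := R) h ha
    simp only [Set.mem_iUnion]
    refine ⟨r.1, r.2, g, hg, ?_⟩
    show act v g⁻¹ = v'
    have : act v' g = v := hg2.trans hav
    rw [← this, h.mul_inv]

lemma isAct_coset (S : Subgroup G) : IsAct (RCoset.mul S) where
  one := by
    rintro ⟨g⟩
    show RCoset.mk S (g * 1) = RCoset.mk S g
    rw [mul_one]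
  mul := by
    rintro ⟨x⟩ g h
    show RCoset.mk S (x * g * h) = RCoset.mk S (x * (g * h))
    rw [mul_assoc]

lemma RCoset.mul_mk (S : Subgroup G) (x g : G) :
    RCoset.mul S (RCoset.mk S x) g = RCoset.mk S (x * g) := rfl

lemma RCoset.mk_eq_iff (S : Subgroup G) (x y : G) :
    RCoset.mk S x = RCoset.mk S y ↔ y * x⁻¹ ∈ S := by
  exact (Quotient.eq (r := QuotientGroup.rightRel S)).trans QuotientGroup.rightRel_apply

lemma RCoset.exists_mk (S : Subgroup G) (c : RCoset S) : ∃ g, c = RCoset.mk S g := by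
  obtain ⟨g⟩ := c
  exact ⟨g, rfl⟩

lemma tameIn_iff (P : FinPres G) (S : Subgroup G) :
    TameIn P S ↔ (coverComplex P.val (RCoset.mul S) P.R).AllT2 := by
  have := P.finX
  exact (good_cover (isAct_coset S) P.finR P.ne P.rel_val).tame_iff

/-- The coarse property of a set with an action follows from that of the orbits. -/
lemma allT1_of_orbits {X : Type} [Finite X] {val : X → G} {Ω : Type u} {act : Ω → G → Ω}
    {R : Set (List (X × Bool))} (h : IsAct act)
    (horb : ∀ v : Ω, (coverComplex val (RCoset.mul (stab h v)) R).AllT1) :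
    (coverComplex val act R).AllT1 := by
  classical
  intro C hC E hE
  -- orbit maps
  let f : ∀ u : Ω, RCoset (stab h u) → Ω := fun u => Quotient.lift (fun g => act u g) (by
    intro a b hab
    have h1 : act u (b * a⁻¹) = u := QuotientGroup.rightRel_apply.mp hab
    have h2 : act (act u (b * a⁻¹)) a = act u a := by rw [h1]
    rw [h.mul, inv_mul_cancel_right] at h2
    exact h2.symm)
  have hfmk : ∀ u g, f u (RCoset.mk _ g) = act u g := fun u g => rfl
  have hinj : ∀ u, Function.Injective (f u) := by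
    rintro u ⟨a⟩ ⟨b⟩ hab
    have hab' : act u a = act u b := hab
    refine (RCoset.mk_eq_iff _ a b).mpr ?_
    show act u (b * a⁻¹) = u
    rw [← h.mul, ← hab', h.mul_inv]
  have hfmul : ∀ u (c : RCoset (stab h u)) (x : X), f u (RCoset.mul _ c (val x)) =
      act (f u c) (val (id x)) := by
    rintro u ⟨g⟩ x
    show act u (g * val x) = act (act u g) (val x)
    rw [h.mul]
  have key : ∀ u : Ω, ∃ D : Set Ω, D.Finite ∧ (u ∈ E → ∀ v ∈ E, ∀ l,
      (coverComplex val act R).IsPath Cᶜ l u v → ∃ l',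
        (coverComplex val act R).IsPath (D ∩ Cᶜ) l' u v ∧
        Htpy (Y := coverComplex val act R) Cᶜ u v l l') := by
    intro u
    have hact := isAct_coset (stab h u)
    obtain ⟨D, hD, hD2⟩ := horb u (f u ⁻¹' C) (hC.preimage (hinj u).injOn) (f u ⁻¹' E)
      (hE.preimage (hinj u).injOn)
    refine ⟨f u '' D, hD.image _, ?_⟩
    intro hu v hv l hl
    obtain ⟨w, rfl, hvw⟩ := exists_word h hl
    have h1 : (coverComplex val (RCoset.mul (stab h u)) R).IsPath (f u ⁻¹' C)ᶜ
        (lift val (RCoset.mul (stab h u)) (RCoset.mk _ 1) w) (RCoset.mk _ 1)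
        (RCoset.mk _ (wordVal val w)) := by
      have := isPath_lift (val := val) (R := R) hact (U := (f u ⁻¹' C)ᶜ) (v := RCoset.mk _ 1)
        (w := w) (by
          intro g hg hgC
          have h2 := IsPath.pre_mem h hl g hg
          refine h2 ?_
          have h3 : f u (RCoset.mul (stab h u) (RCoset.mk _ 1) g) ∈ C := hgC
          rwa [RCoset.mul_mk, one_mul, hfmk] at h3)
      rwa [RCoset.mul_mk, one_mul] at this
    have hu' : RCoset.mk (stab h u) 1 ∈ f u ⁻¹' E := by
      show f u _ ∈ E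
      rw [hfmk, h.one]; exact hu
    have hv' : RCoset.mk (stab h u) (wordVal val w) ∈ f u ⁻¹' E := by
      show f u _ ∈ E
      rw [hfmk, ← hvw]; exact hv
    obtain ⟨l', h2, h3⟩ := hD2 _ hu' _ hv' _ h1
    obtain ⟨w', rfl, -⟩ := exists_word hact h2
    have hm1 := isMap_strict (R := R) (R₂ := R) hact h (f u) id (hfmul u)
      (fun r hr => by rwa [mapWord_id]) Cᶜ (f u ⁻¹' C)ᶜ (fun v hv => hv)
    have hm2 := isMap_strict (R := R) (R₂ := R) hact h (f u) id (hfmul u)
      (fun r hr => by rwa [mapWord_id]) (f u '' D ∩ Cᶜ) (D ∩ (f u ⁻¹' C)ᶜ)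
      (fun v hv => ⟨⟨v, hv.1, rfl⟩, hv.2⟩)
    have h4 := hm2.path h2
    have h5 := hm1.htpy h3
    rw [mapPath_strict (R := R) (R₂ := R) hact h (f u) id (hfmul u), mapWord_id, hfmk, hfmk,
      h.one, ← hvw] at h4
    rw [mapPath_strict (R := R) (R₂ := R) hact h (f u) id (hfmul u),
      mapPath_strict (R := R) (R₂ := R) hact h (f u) id (hfmul u), mapWord_id, mapWord_id, hfmk,
      hfmk, h.one, ← hvw] at h5
    exact ⟨_, h4, h5⟩
  choose D hD1 hD2 using key
  refine ⟨⋃ u ∈ E, D u, hE.biUnion fun u _ => hD1 u, ?_⟩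
  intro u hu v hv l hl
  obtain ⟨l', h1, h2⟩ := hD2 u hu v hv l hl
  refine ⟨l', h1.mono (Set.inter_subset_inter_left _ ?_), h2⟩
  exact Set.subset_biUnion_of_mem (u := D) hu

end

section Central

variable {G : Type u} [Group G]

/-- A finitely generated subgroup meeting an infinite cyclic central subgroup trivially is tame. -/
theorem tame_of_central (P : FinPres G) (z : G) (hz : z ∈ Subgroup.center G) (S : Subgroup G)
    (hS : S.FG) (hzS : ∀ n : ℕ, 0 < n → z ^ n ∉ S) : TameIn P S := by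
  rw [tameIn_iff]
  have := P.finX
  have hz' : ∀ g, g * z = z * g := fun g => Subgroup.mem_center_iff.mp hz g
  have hact := isAct_coset S
  refine allT2_central P.presents P.finR hact hz' ?_ (RCoset.mk S 1) ?_ ?_
  · intro v n hv
    obtain ⟨g, rfl⟩ := RCoset.exists_mk S v
    rw [RCoset.mul_mk, RCoset.mk_eq_iff, mul_inv_rev, ← mul_assoc] at hv
    have h1 : g * (z ^ n)⁻¹ * g⁻¹ = (z ^ n)⁻¹ := by
      have hc : Commute g (z ^ n)⁻¹ := ((show Commute g z from hz' g).zpow_right n).inv_right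
      rw [hc.eq, mul_inv_cancel_right]
    rw [h1] at hv
    have h2 : z ^ n ∈ S := by simpa using hv
    by_contra hn
    rcases lt_or_gt_of_ne hn with h3 | h3
    · refine hzS (-n).toNat (by omega) ?_
      rw [← zpow_natCast, Int.toNat_of_nonneg (by omega), zpow_neg]
      exact inv_mem h2
    · refine hzS n.toNat (by omega) ?_
      rw [← zpow_natCast, Int.toNat_of_nonneg (by omega)]
      exact h2
  · intro v
    obtain ⟨g, rfl⟩ := RCoset.exists_mk S v
    exact ⟨g, by rw [RCoset.mul_mk, one_mul]⟩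
  · have : stab hact (RCoset.mk S 1) = S := by
      ext g
      show RCoset.mul S (RCoset.mk S 1) g = RCoset.mk S 1 ↔ _
      rw [RCoset.mul_mk, one_mul, RCoset.mk_eq_iff, one_mul]
      exact inv_mem_iff
    rw [this]
    exact hS

/-- If `H` is normal, `S H` has finite index and all the subgroups `H ∩ g⁻¹ S g` are tame in `H`,
then `S` is tame in `G`. -/
theorem tame_of_normal (P : FinPres G) (H : Subgroup G) [H.Normal] (PH : FinPres H)
    (S : Subgroup G) (hfin : (S ⊔ H).FiniteIndex)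
    (hT : ∀ g : G, TameIn PH ((S.comap (MulAut.conj g).toMonoidHom).subgroupOf H)) :
    TameIn P S := by
  classical
  rw [tameIn_iff]
  have := P.finX
  have := PH.finX
  have hact := isAct_coset S
  have hactH : IsAct (actH (RCoset.mul S) H) := isAct_H hact
  refine allT2_normal (H := H) P.presents PH.presents PH.finR hact
    (Set.range fun q : G ⧸ (S ⊔ H) => RCoset.mk S (q.out)⁻¹) ?_ ?_ ?_
  · have : Finite (G ⧸ (S ⊔ H)) := inferInstance
    exact Set.finite_range _
  · intro v
    obtain ⟨g, rfl⟩ := RCoset.exists_mk S v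
    set q : G ⧸ (S ⊔ H) := QuotientGroup.mk g⁻¹ with hq
    refine ⟨_, ⟨q, rfl⟩, ?_⟩
    -- q.out = g⁻¹ * n with n ∈ S ⊔ H
    have h1 : (QuotientGroup.mk q.out : G ⧸ (S ⊔ H)) = QuotientGroup.mk g⁻¹ := by
      rw [← hq]; exact QuotientGroup.out_eq' _
    have h2 : (q.out)⁻¹ * g⁻¹ ∈ S ⊔ H := QuotientGroup.eq.mp h1
    have h3 : (q.out)⁻¹ * g⁻¹ ∈ (↑(S ⊔ H) : Set G) := h2
    rw [Subgroup.mul_normal] at h3
    obtain ⟨s, hs, n, hn, hsn⟩ := h3
    -- (q.out)⁻¹ = s n g, so S (q.out)⁻¹ = S n g = S g (g⁻¹ n g)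
    have h4 : (q.out)⁻¹ = s * n * g := by
      have : s * n = (q.out)⁻¹ * g⁻¹ := hsn
      rw [this, inv_mul_cancel_right]
    refine ⟨⟨g⁻¹ * n⁻¹ * g, ?_⟩, ?_⟩
    · have := ‹H.Normal›.conj_mem n⁻¹ (inv_mem hn) g⁻¹
      simpa using this
    · show RCoset.mul S (RCoset.mk S (q.out)⁻¹) (g⁻¹ * n⁻¹ * g) = RCoset.mk S g
      rw [h4, RCoset.mul_mk, RCoset.mk_eq_iff]
      have : g * (s * n * g * (g⁻¹ * n⁻¹ * g))⁻¹ = s⁻¹ := by group
      rw [this]
      exact inv_mem hs
  · refine allT1_of_orbits hactH ?_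
    intro v
    obtain ⟨g, rfl⟩ := RCoset.exists_mk S v
    have hst : stab hactH (RCoset.mk S g) =
        (S.comap (MulAut.conj g).toMonoidHom).subgroupOf H := by
      ext x
      show RCoset.mul S (RCoset.mk S g) (x : G) = RCoset.mk S g ↔ g * (x : G) * g⁻¹ ∈ S
      rw [RCoset.mul_mk, RCoset.mk_eq_iff, ← inv_mem_iff]
      have : (g * (g * (x : G))⁻¹)⁻¹ = g * x * g⁻¹ := by group
      rw [this]
    rw [hst]
    have h1 := (tameIn_iff PH _).mp (hT g)
    exact h1.allT1 (locFin_cover (isAct_coset _))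

end Central

end Pool.Agent.Helper28.Tame
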