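import Pool.Agent.Helper28.Tame.Basic

set_option autoImplicit false

namespace Pool.Agent.Helper28.Tame

universe u

namespace TwoComplex

variable (Y : TwoComplex.{u}) (U : Set Y.V) (u : U)

/-- Concatenation of closed paths. -/
def Loop.mul (p q : Y.Loop U u) : Y.Loop U u := ⟨p.1 ++ q.1, IsPath.append p.2 q.2⟩

/-- The constant closed path. -/
def Loop.one : Y.Loop U u := ⟨[], rfl, u.2⟩

/-- The reversed closed path. -/
def Loop.inv (p : Y.Loop U u) : Y.Loop U u := ⟨rev p.1, IsPath.rev p.2⟩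

/-- The group structure on the fundamental group: the product is concatenation of closed edge
paths, the inverse is reversal. -/
instance : Group (Y.Pi1 U u) where
  mul := Quotient.map₂ (Loop.mul Y U u) (by
    intro p p' hp q q' hq
    have h1 := (pi1_rel_iff Y U u p p').mp hp
    have h2 := (pi1_rel_iff Y U u q q').mp hq
    exact (pi1_rel_iff Y U u _ _).mpr (h1.append h2))
  one := Quotient.mk _ (Loop.one Y U u)
  inv := Quotient.map (Loop.inv Y U u) (by
    intro p p' hp
    have h1 := (pi1_rel_iff Y U u p p').mp hp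
    exact (pi1_rel_iff Y U u _ _).mpr h1.rev)
  mul_assoc := by
    rintro ⟨p⟩ ⟨q⟩ ⟨r⟩
    refine Quotient.sound ((pi1_rel_iff Y U u _ _).mpr ?_)
    show Htpy U _ _ ((p.1 ++ q.1) ++ r.1) (p.1 ++ (q.1 ++ r.1))
    rw [List.append_assoc]
    exact .refl (IsPath.append p.2 (IsPath.append q.2 r.2))
  one_mul := by
    rintro ⟨p⟩
    exact Quotient.sound ((pi1_rel_iff Y U u _ _).mpr (.refl p.2))
  mul_one := by
    rintro ⟨p⟩
    refine Quotient.sound ((pi1_rel_iff Y U u _ _).mpr ?_)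
    show Htpy U _ _ (p.1 ++ []) p.1
    rw [List.append_nil]
    exact .refl p.2
  inv_mul_cancel := by
    rintro ⟨p⟩
    exact Quotient.sound ((pi1_rel_iff Y U u _ _).mpr (Htpy.rev_self p.2))

variable {Y U u}

/-- The class of a closed path. -/
def cls {l : List (Y.E × Bool)} (hl : Y.IsPath U l u u) : Y.Pi1 U u := Quotient.mk _ ⟨l, hl⟩

lemma cls_eq_iff {l l' : List (Y.E × Bool)} (hl : Y.IsPath U l u u) (hl' : Y.IsPath U l' u u) :
    cls hl = cls hl' ↔ Htpy U (u : Y.V) u l l' :=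
  Quotient.eq.trans (pi1_rel_iff Y U u _ _)

lemma cls_mul {l l' : List (Y.E × Bool)} (hl : Y.IsPath U l u u) (hl' : Y.IsPath U l' u u) :
    cls hl * cls hl' = cls (hl.append hl') := rfl

lemma cls_inv {l : List (Y.E × Bool)} (hl : Y.IsPath U l u u) :
    (cls hl)⁻¹ = cls hl.rev := rfl

lemma cls_nil : (1 : Y.Pi1 U u) = cls (l := []) ⟨rfl, u.2⟩ := rfl

lemma exists_cls (s : Y.Pi1 U u) : ∃ l, ∃ hl : Y.IsPath U l u u, s = cls hl := by
  obtain ⟨p⟩ := s
  exact ⟨p.1, p.2, rfl⟩

end TwoComplex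

end Pool.Agent.Helper28.Tame
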