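import Pool.Agent.Helper28.Tame.Pres

set_option autoImplicit false

namespace Pool.Agent.Helper28.Tame

open TwoComplex

universe u

variable {G : Type u} [Group G]

/-- Cyclic extensions with a central element of infinite order modulo `H`. -/
theorem locallyTame_of_central (H : Subgroup G) [H.Normal] [IsCyclic (G ⧸ H)] (z : G)
    (hz : z ∈ Subgroup.center G) (hzn : ∀ n : ℕ, 0 < n → z ^ n ∉ H) (hH : IsLocallyTame H) :
    IsLocallyTame G := by
  obtain ⟨⟨PH⟩, hPH⟩ := hH
  refine ⟨finPres_of_cyclic H PH, ?_⟩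
  intro P S hS
  by_cases h : ∃ n : ℕ, 0 < n ∧ z ^ n ∈ S
  · obtain ⟨n, hn, hnS⟩ := h
    have hy : ∀ k : ℕ, 0 < k → (z ^ n) ^ k ∉ H := by
      intro k hk
      rw [← pow_mul]
      exact hzn _ (Nat.mul_pos hn hk)
    have hyc : z ^ n ∈ Subgroup.center G := pow_mem hz n
    have hfin := finiteIndex_zpowers_sup H (z ^ n) hy
    refine tame_of_normal P H PH S ?_ ?_
    · exact Subgroup.finiteIndex_of_le (sup_le_sup_right ((Subgroup.zpowers_le).mpr hnS) H)
    · intro g
      refine hPH PH _ (fg_subgroupOf_of_central H (z ^ n) hyc hy _ (fg_comap_conj S hS g) ?_ hfin)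
      show g * z ^ n * g⁻¹ ∈ S
      rw [Subgroup.mem_center_iff.mp hyc g, mul_inv_cancel_right]
      exact hnS
  · push_neg at h
    exact tame_of_central P z hz S hS h

end Pool.Agent.Helper28.Tame
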