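import Pool.Agent.Helper28.Tame.Final
import Pool.Agent.Helper28.Tame.Alg

set_option autoImplicit false

namespace Pool.Agent.Helper28.Tame

open TwoComplex

universe u

variable {G : Type u} [Group G]

lemma mk_mapWord {X Z : Type} (φ : X → Z) (w : List (X × Bool)) :
    FreeGroup.mk (mapWord φ w) = FreeGroup.map φ (FreeGroup.mk w) := by
  rw [FreeGroup.map.mk]; rfl

lemma mk_invWord {X : Type} (w : List (X × Bool)) :
    FreeGroup.mk (invWord w) = (FreeGroup.mk w)⁻¹ := by
  rw [FreeGroup.inv_mk]; rfl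

lemma mk_append {X : Type} (w w' : List (X × Bool)) :
    FreeGroup.mk (w ++ w') = FreeGroup.mk w * FreeGroup.mk w' := by
  rw [FreeGroup.mul_mk]

lemma mk_replicate {X : Type} (x : X) (n : ℕ) :
    FreeGroup.mk (List.replicate n (x, true)) = FreeGroup.of x ^ n := by
  induction n with
  | zero => rfl
  | succ n ih =>
    rw [List.replicate_succ', mk_append, ih, pow_succ]
    rfl

/-- A cyclic extension of a finitely presented group is finitely presented. -/
theorem finPres_of_cyclic (H : Subgroup G) [hN : H.Normal] [hcyc : IsCyclic (G ⧸ H)]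
    (PH : FinPres H) : Nonempty (FinPres G) := by
  classical
  have hfX := PH.finX
  obtain ⟨t', ht'⟩ := hcyc.exists_zpow_surjective
  obtain ⟨t, rfl⟩ := QuotientGroup.mk_surjective t'
  have hex : ∀ h : H, ∃ w, wordVal PH.val w = h := fun h => PH.presents.exists_wordVal h
  choose W hW using hex
  have hc1 : ∀ h : H, t⁻¹ * (h : G) * t ∈ H := fun h => by
    have := hN.conj_mem h.1 h.2 t⁻¹
    simpa using this
  have hc2 : ∀ h : H, t * (h : G) * t⁻¹ ∈ H := fun h => hN.conj_mem h.1 h.2 t
  set m := orderOf (QuotientGroup.mk t : G ⧸ H) with hm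
  have htm : t ^ m ∈ H := by
    have h1 : (QuotientGroup.mk t : G ⧸ H) ^ m = 1 := pow_orderOf_eq_one _
    have h2 : (QuotientGroup.mk (t ^ m) : G ⧸ H) = 1 := by simpa using h1
    exact (QuotientGroup.eq_one_iff _).mp h2
  let tt : PH.X ⊕ Unit := Sum.inr ()
  let W1 : PH.X → List (PH.X × Bool) := fun x => W ⟨_, hc1 (PH.val x)⟩
  let W2 : PH.X → List (PH.X × Bool) := fun x => W ⟨_, hc2 (PH.val x)⟩
  let Wm : List (PH.X × Bool) := W ⟨_, htm⟩
  let val : PH.X ⊕ Unit → G := Sum.elim (fun x => (PH.val x : G)) (fun _ => t)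
  let R : Set (List ((PH.X ⊕ Unit) × Bool)) :=
    (mapWord Sum.inl '' PH.R) ∪
    (Set.range fun x : PH.X => [(tt, false), (Sum.inl x, true), (tt, true)] ++
      invWord (mapWord Sum.inl (W1 x))) ∪
    (Set.range fun x : PH.X => [(tt, true), (Sum.inl x, true), (tt, false)] ++
      invWord (mapWord Sum.inl (W2 x))) ∪
    {w | 0 < m ∧ w = List.replicate m (tt, true) ++ invWord (mapWord Sum.inl Wm)}
  have hval_inl : ∀ w : List (PH.X × Bool), wordVal val (mapWord Sum.inl w) =
      ((wordVal PH.val w : H) : G) := by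
    intro w
    induction w with
    | nil => rfl
    | cons a w ih =>
      have h1 : mapWord Sum.inl (a :: w) = ((Sum.inl a.1 : PH.X ⊕ Unit), a.2) :: mapWord Sum.inl w :=
        rfl
      rw [h1, wordVal_cons, wordVal_cons, ih]
      rcases a with ⟨a, _ | _⟩ <;> simp [letterVal, val]
  have hval_rep : ∀ n, wordVal val (List.replicate n (tt, true)) = t ^ n := by
    intro n
    induction n with
    | zero => simp
    | succ n ih => rw [List.replicate_succ, wordVal_cons, ih, pow_succ']; rfl
  have hRval : ∀ r ∈ R, wordVal val r = 1 := by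
    rintro r (((⟨r, hr, rfl⟩ | ⟨x, rfl⟩) | ⟨x, rfl⟩) | ⟨_, rfl⟩)
    · rw [hval_inl, PH.rel_val r hr]; rfl
    · simp only [wordVal_append, wordVal_inv, hval_inl, W1, hW, wordVal_cons, wordVal_nil]
      simp [letterVal, val, tt]
      group
    · simp only [wordVal_append, wordVal_inv, hval_inl, W2, hW, wordVal_cons, wordVal_nil]
      simp [letterVal, val, tt]
      group
    · rw [wordVal_append, wordVal_inv, hval_inl, hval_rep]
      simp only [Wm, hW]
      group
  have hle : Subgroup.normalClosure (FreeGroup.mk '' R) ≤ (FreeGroup.lift val).ker := by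
    refine Subgroup.normalClosure_le_normal ?_
    rintro _ ⟨r, hr, rfl⟩
    show FreeGroup.mk r ∈ (FreeGroup.lift val).ker
    rw [MonoidHom.mem_ker, lift_mk_eq]
    exact hRval r hr
  set N := Subgroup.normalClosure (FreeGroup.mk '' R) with hNdef
  -- the quotient
  let q : FreeGroup (PH.X ⊕ Unit) →* FreeGroup (PH.X ⊕ Unit) ⧸ N := QuotientGroup.mk' N
  have hq : ∀ r ∈ R, q (FreeGroup.mk r) = 1 := by
    intro r hr
    exact (QuotientGroup.eq_one_iff _).mpr (Subgroup.subset_normalClosure ⟨r, hr, rfl⟩)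
  let ι : FreeGroup PH.X →* FreeGroup (PH.X ⊕ Unit) := FreeGroup.map Sum.inl
  let J : FreeGroup PH.X →* FreeGroup (PH.X ⊕ Unit) ⧸ N := q.comp ι
  let T := q (FreeGroup.of tt)
  have hJ1 : ∀ u : FreeGroup PH.X, ∃ v, T⁻¹ * J u * T = J v := by
    intro u
    refine ⟨FreeGroup.lift (fun x => FreeGroup.mk (W1 x)) u, ?_⟩
    have h1 : (MulAut.conj T⁻¹).toMonoidHom.comp J =
        J.comp (FreeGroup.lift (fun x => FreeGroup.mk (W1 x))) := by
      refine FreeGroup.ext_hom _ _ ?_
      intro x
      have h2 := hq _ (Or.inl (Or.inl (Or.inr ⟨x, rfl⟩)))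
      rw [mk_append, mk_invWord, mk_mapWord, map_mul, map_inv, mul_inv_eq_one] at h2
      have h3 : (FreeGroup.mk [(tt, false), (Sum.inl x, true), (tt, true)] :
          FreeGroup (PH.X ⊕ Unit)) = (FreeGroup.of tt)⁻¹ * FreeGroup.of (Sum.inl x) *
            FreeGroup.of tt := rfl
      rw [h3, map_mul, map_mul, map_inv] at h2
      show T⁻¹ * J (FreeGroup.of x) * T⁻¹⁻¹ = J (FreeGroup.lift _ (FreeGroup.of x))
      rw [inv_inv, FreeGroup.lift_apply_of]
      exact h2
    have h2 := DFunLike.congr_fun h1 u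
    show T⁻¹ * J u * T = _
    have h3 : (MulAut.conj T⁻¹).toMonoidHom.comp J u = T⁻¹ * J u * T⁻¹⁻¹ := rfl
    rw [h3, inv_inv] at h2
    exact h2
  have hJ2 : ∀ u : FreeGroup PH.X, ∃ v, T * J u * T⁻¹ = J v := by
    intro u
    refine ⟨FreeGroup.lift (fun x => FreeGroup.mk (W2 x)) u, ?_⟩
    have h1 : (MulAut.conj T).toMonoidHom.comp J =
        J.comp (FreeGroup.lift (fun x => FreeGroup.mk (W2 x))) := by
      refine FreeGroup.ext_hom _ _ ?_
      intro x
      have h2 := hq _ (Or.inl (Or.inr ⟨x, rfl⟩))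
      rw [mk_append, mk_invWord, mk_mapWord, map_mul, map_inv, mul_inv_eq_one] at h2
      have h3 : (FreeGroup.mk [(tt, true), (Sum.inl x, true), (tt, false)] :
          FreeGroup (PH.X ⊕ Unit)) = FreeGroup.of tt * FreeGroup.of (Sum.inl x) *
            (FreeGroup.of tt)⁻¹ := rfl
      rw [h3, map_mul, map_mul, map_inv] at h2
      show T * J (FreeGroup.of x) * T⁻¹ = J (FreeGroup.lift _ (FreeGroup.of x))
      rw [FreeGroup.lift_apply_of]
      exact h2
    exact DFunLike.congr_fun h1 u
  -- every element is T^k J u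
  have hTJ : ∀ (k : ℤ) (u : FreeGroup PH.X), ∃ v, J u * T ^ k = T ^ k * J v := by
    have hpos : ∀ (n : ℕ) (u : FreeGroup PH.X), ∃ v, J u * T ^ n = T ^ n * J v := by
      intro n
      induction n with
      | zero => intro u; exact ⟨u, by simp⟩
      | succ n ih =>
        intro u
        obtain ⟨v, hv⟩ := ih u
        obtain ⟨w, hw⟩ := hJ1 v
        refine ⟨w, ?_⟩
        rw [pow_succ, ← mul_assoc, hv, ← hw]
        group
    have hneg : ∀ (n : ℕ) (u : FreeGroup PH.X), ∃ v, J u * (T⁻¹) ^ n = (T⁻¹) ^ n * J v := by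
      intro n
      induction n with
      | zero => intro u; exact ⟨u, by simp⟩
      | succ n ih =>
        intro u
        obtain ⟨v, hv⟩ := ih u
        obtain ⟨w, hw⟩ := hJ2 v
        refine ⟨w, ?_⟩
        rw [pow_succ, ← mul_assoc, hv, ← hw]
        group
    intro k u
    rcases Int.le_total 0 k with hk | hk
    · obtain ⟨n, rfl⟩ := Int.eq_ofNat_of_zero_le hk
      obtain ⟨v, hv⟩ := hpos n u
      exact ⟨v, by simpa using hv⟩
    · obtain ⟨n, hn⟩ := Int.eq_ofNat_of_zero_le (neg_nonneg.mpr hk)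
      obtain ⟨v, hv⟩ := hneg n u
      refine ⟨v, ?_⟩
      have : k = -(n : ℤ) := by omega
      rw [this, zpow_neg, zpow_natCast, ← inv_pow]
      exact hv
  have hall : ∀ g : FreeGroup (PH.X ⊕ Unit), ∃ (k : ℤ) (u : FreeGroup PH.X), q g = T ^ k * J u := by
    have hstep : ∀ (a b : FreeGroup (PH.X ⊕ Unit)),
        (∃ (k : ℤ) (u : FreeGroup PH.X), q a = T ^ k * J u) →
        (∃ (k : ℤ) (u : FreeGroup PH.X), q b = T ^ k * J u) →
        ∃ (k : ℤ) (u : FreeGroup PH.X), q (a * b) = T ^ k * J u := by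
      rintro a b ⟨k, u, h1⟩ ⟨l, v, h2⟩
      obtain ⟨w, hw⟩ := hTJ l u
      refine ⟨k + l, w * v, ?_⟩
      rw [map_mul, h1, h2, map_mul, zpow_add]
      calc T ^ k * J u * (T ^ l * J v) = T ^ k * (J u * T ^ l) * J v := by group
        _ = T ^ k * T ^ l * (J w * J v) := by rw [hw]; group
    intro g
    induction g using FreeGroup.induction_on with
    | C1 => exact ⟨0, 1, by simp⟩
    | of x =>
      rcases x with x | ⟨⟩
      · exact ⟨0, FreeGroup.of x, by rw [zpow_zero, one_mul]; rfl⟩
      · exact ⟨1, 1, by rw [zpow_one, map_one, mul_one]⟩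
    | inv_of x _ =>
      rcases x with x | ⟨⟩
      · exact ⟨0, (FreeGroup.of x)⁻¹, by rw [zpow_zero, one_mul]; rfl⟩
      · exact ⟨-1, 1, by rw [zpow_neg, zpow_one, map_one, mul_one]; rfl⟩
    | mul a b ha hb => exact hstep a b ha hb
  have hval_ι : ∀ u : FreeGroup PH.X, FreeGroup.lift val (ι u) =
      ((FreeGroup.lift PH.val u : H) : G) := by
    have h1 : (FreeGroup.lift val).comp ι = H.subtype.comp (FreeGroup.lift PH.val) := by
      refine FreeGroup.ext_hom _ _ ?_
      intro x
      simp [ι, val]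
    intro u
    exact DFunLike.congr_fun h1 u
  have hJker : ∀ u : FreeGroup PH.X, FreeGroup.lift PH.val u = 1 → J u = 1 := by
    intro u hu
    have h1 : u ∈ Subgroup.normalClosure (FreeGroup.mk '' PH.R) := by
      rw [← PH.ker]; exact hu
    have h2 : Subgroup.normalClosure (FreeGroup.mk '' PH.R) ≤ J.ker := by
      refine Subgroup.normalClosure_le_normal ?_
      rintro _ ⟨r, hr, rfl⟩
      show J (FreeGroup.mk r) = 1
      have := hq (mapWord Sum.inl r) (Or.inl (Or.inl (Or.inl ⟨r, hr, rfl⟩)))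
      rw [mk_mapWord] at this
      exact this
    exact h2 h1
  refine ⟨FinPres.mk (PH.X ⊕ Unit) inferInstance val R ?_ ?_ ?_ ?_⟩
  · refine (((PH.finR.image _).union (Set.finite_range _)).union (Set.finite_range _)).union ?_
    refine (Set.finite_singleton (List.replicate m (tt, true) ++
      invWord (mapWord Sum.inl Wm))).subset ?_
    rintro w ⟨_, hw⟩
    exact hw
  · rintro r (((⟨r, hr, rfl⟩ | ⟨x, rfl⟩) | ⟨x, rfl⟩) | ⟨hm0, rfl⟩)
    · intro h
      have : r = [] := by
        cases r with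
        | nil => rfl
        | cons a r => simp [mapWord] at h
      exact PH.ne r hr this
    · simp
    · simp
    · intro h
      rw [List.append_eq_nil_iff] at h
      have := h.1
      rw [List.replicate_eq_nil_iff] at this
      omega
  · -- surjectivity
    intro g
    obtain ⟨a, ha⟩ := ht' (QuotientGroup.mk g)
    have ha' : (QuotientGroup.mk (t ^ a) : G ⧸ H) = QuotientGroup.mk g := by simpa using ha
    have h1 := QuotientGroup.eq.mp ha'
    refine ⟨FreeGroup.of tt ^ a * FreeGroup.mk (mapWord Sum.inl (W ⟨_, h1⟩)), ?_⟩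
    rw [map_mul, map_zpow, FreeGroup.lift_apply_of, lift_mk_eq, hval_inl, hW]
    show t ^ a * ((t ^ a)⁻¹ * g) = g
    group
  · refine le_antisymm ?_ hle
    intro g hg
    obtain ⟨k, u, hku⟩ := hall g
    have hg1 : FreeGroup.lift val g = 1 := hg
    -- g = tt^k ι u mod N, so t^k * val u = 1
    have h1 : (FreeGroup.of tt ^ k * ι u)⁻¹ * g ∈ N := by
      have : q (FreeGroup.of tt ^ k * ι u) = q g := by
        rw [hku, map_mul, map_zpow]; rfl
      exact QuotientGroup.eq.mp this
    have h2 : FreeGroup.lift val ((FreeGroup.of tt ^ k * ι u)⁻¹ * g) = 1 := hle h1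
    rw [map_mul, hg1, mul_one, map_inv, inv_eq_one, map_mul, map_zpow, FreeGroup.lift_apply_of,
      hval_ι] at h2
    have h2' : t ^ k * ((FreeGroup.lift PH.val u : H) : G) = 1 := h2
    have h3 : t ^ k ∈ H := by
      have : t ^ k = ((FreeGroup.lift PH.val u : H) : G)⁻¹ := eq_inv_of_mul_eq_one_left h2'
      rw [this]; exact inv_mem (FreeGroup.lift PH.val u).2
    -- k is a multiple of m
    have h4 : (m : ℤ) ∣ k := by
      rw [hm, orderOf_dvd_iff_zpow_eq_one]
      have : (QuotientGroup.mk (t ^ k) : G ⧸ H) = 1 := (QuotientGroup.eq_one_iff _).mpr h3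
      simpa using this
    obtain ⟨j, rfl⟩ := h4
    -- T^(m j) = J (Wm^j)
    have h5 : T ^ ((m : ℤ) * j) = J (FreeGroup.mk Wm ^ j) := by
      by_cases hm0 : 0 < m
      · have h6 := hq _ (Or.inr ⟨hm0, rfl⟩)
        rw [mk_append, mk_invWord, mk_mapWord, map_mul, map_inv, mul_inv_eq_one, mk_replicate,
          map_pow] at h6
        rw [zpow_mul, zpow_natCast, map_zpow]
        congr 1
      · have hm0' : m = 0 := by omega
        have hWm : FreeGroup.lift PH.val (FreeGroup.mk Wm ^ j) = 1 := by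
          rw [map_zpow, lift_mk_eq]
          simp only [Wm, hW]
          have : (⟨t ^ m, htm⟩ : H) = 1 := by
            ext; simp [hm0']
          rw [this, one_zpow]
        rw [hJker _ hWm, hm0']
        simp
    rw [h5, ← map_mul] at hku
    have h7 : FreeGroup.lift PH.val (FreeGroup.mk Wm ^ j * u) = 1 := by
      have h8 : ((FreeGroup.lift PH.val (FreeGroup.mk Wm ^ j * u) : H) : G) = 1 := by
        rw [map_mul, map_zpow, lift_mk_eq]
        simp only [Wm, hW, Subgroup.coe_mul, Subgroup.coe_zpow]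
        rw [← zpow_natCast, ← zpow_mul]
        exact h2'
      exact Subtype.ext h8
    rw [hJker _ h7] at hku
    exact (QuotientGroup.eq_one_iff _).mp hku

end Pool.Agent.Helper28.Tame
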