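import Pool.Agent.Helper28.Tame.Coarse

set_option autoImplicit false

namespace Pool.Agent.Helper28.Tame

open TwoComplex

universe u

/-- `act` is a right action. -/
structure IsAct {G : Type*} [Group G] {Ω : Type*} (act : Ω → G → Ω) : Prop where
  one : ∀ v, act v 1 = v
  mul : ∀ v g h, act (act v g) h = act v (g * h)

section

variable {G : Type*} [Group G] {X : Type} {val : X → G} {Ω : Type u} {act : Ω → G → Ω}
  {R : Set (List (X × Bool))}

lemma IsAct.mul_inv (h : IsAct act) (v : Ω) (g : G) : act (act v g) g⁻¹ = v := by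
  rw [h.mul, mul_inv_cancel, h.one]

lemma IsAct.inv_mul (h : IsAct act) (v : Ω) (g : G) : act (act v g⁻¹) g = v := by
  rw [h.mul, inv_mul_cancel, h.one]

/-- inverse letter -/
def flipLetter (a : X × Bool) : X × Bool := (a.1, !a.2)

/-- formal inverse of a word -/
def invWord (w : List (X × Bool)) : List (X × Bool) := (w.map flipLetter).reverse

@[simp] lemma flipLetter_flipLetter (a : X × Bool) : flipLetter (flipLetter a) = a := by
  simp [flipLetter]

@[simp] lemma invWord_invWord (w : List (X × Bool)) : invWord (invWord w) = w := by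
  have : flipLetter ∘ flipLetter = (id : X × Bool → X × Bool) := by
    funext a; simp
  simp [invWord, List.map_reverse, this]

@[simp] lemma wordVal_nil : wordVal val [] = 1 := rfl

@[simp] lemma wordVal_cons (a : X × Bool) (w : List (X × Bool)) :
    wordVal val (a :: w) = letterVal val a * wordVal val w := by simp [wordVal]

@[simp] lemma wordVal_append (w w' : List (X × Bool)) :
    wordVal val (w ++ w') = wordVal val w * wordVal val w' := by simp [wordVal]

@[simp] lemma letterVal_flip (a : X × Bool) :
    letterVal val (flipLetter a) = (letterVal val a)⁻¹ := by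
  rcases a with ⟨x, _ | _⟩ <;> simp [letterVal, flipLetter]

@[simp] lemma invWord_nil : invWord ([] : List (X × Bool)) = [] := rfl

@[simp] lemma invWord_cons (a : X × Bool) (w : List (X × Bool)) :
    invWord (a :: w) = invWord w ++ [flipLetter a] := by simp [invWord]

@[simp] lemma wordVal_inv (w : List (X × Bool)) :
    wordVal val (invWord w) = (wordVal val w)⁻¹ := by
  induction w with
  | nil => simp
  | cons a w ih => simp [ih]

lemma src_edgeAt (v : Ω) (a : X × Bool) (h : IsAct act) :
    (coverComplex val act R).src (edgeAt val act v a) = v := by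
  rcases a with ⟨x, _ | _⟩
  · simp [edgeAt, src, coverComplex, h.inv_mul]
  · simp [edgeAt, src, coverComplex]

lemma tgt_edgeAt (v : Ω) (a : X × Bool) :
    (coverComplex val act R).tgt (edgeAt val act v a) = act v (letterVal val a) := by
  rcases a with ⟨x, _ | _⟩
  · simp [edgeAt, tgt, coverComplex, letterVal]
  · simp [edgeAt, tgt, coverComplex, letterVal]

lemma flip_edgeAt (v : Ω) (a : X × Bool) (h : IsAct act) :
    (coverComplex val act R).flip (edgeAt val act v a) =
      edgeAt val act (act v (letterVal val a)) (flipLetter a) := by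
  rcases a with ⟨x, _ | _⟩
  · simp [edgeAt, TwoComplex.flip, flipLetter, letterVal]
  · simp [edgeAt, TwoComplex.flip, flipLetter, letterVal, h.mul_inv]

lemma exists_edgeAt (a : (Ω × X) × Bool) (h : IsAct act) :
    ∃ b : X × Bool, a = edgeAt val act ((coverComplex val act R).src a) b := by
  rcases a with ⟨⟨v, x⟩, _ | _⟩
  · exact ⟨(x, false), by simp [edgeAt, src, coverComplex, h.mul_inv]⟩
  · exact ⟨(x, true), by simp [edgeAt, src, coverComplex]⟩

lemma locFin_cover [Finite X] (h : IsAct act) : (coverComplex val act R).LocFin := by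
  intro v
  refine ((Set.finite_range (edgeAt val act v)).subset ?_)
  rintro a rfl
  obtain ⟨b, hb⟩ := exists_edgeAt (val := val) (act := act) (R := R) a h
  exact ⟨b, hb.symm⟩

@[simp] lemma lift_nil (v : Ω) : lift val act v [] = [] := rfl

@[simp] lemma lift_cons (v : Ω) (a : X × Bool) (w : List (X × Bool)) :
    lift val act v (a :: w) = edgeAt val act v a :: lift val act (act v (letterVal val a)) w := rfl

lemma lift_append (h : IsAct act) (v : Ω) (w w' : List (X × Bool)) :
    lift val act v (w ++ w') = lift val act v w ++ lift val act (act v (wordVal val w)) w' := by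
  induction w generalizing v with
  | nil => simp [h.one]
  | cons a w ih => simp [ih, h.mul]

lemma rev_lift (h : IsAct act) (v : Ω) (w : List (X × Bool)) :
    TwoComplex.rev (Y := coverComplex val act R) (lift val act v w) =
      lift val act (act v (wordVal val w)) (invWord w) := by
  induction w generalizing v with
  | nil => rfl
  | cons a w ih =>
    rw [lift_cons, rev_cons, ih, flip_edgeAt v a h, invWord_cons, lift_append h, wordVal_inv,
      wordVal_cons, h.mul, h.mul, mul_assoc, mul_inv_cancel, mul_one, lift_cons, lift_nil]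

lemma isPath_lift_univ (h : IsAct act) (v : Ω) (w : List (X × Bool)) :
    (coverComplex val act R).IsPath Set.univ (lift val act v w) v (act v (wordVal val w)) := by
  induction w generalizing v with
  | nil => exact ⟨by simp [h.one], trivial⟩
  | cons a w ih =>
    refine ⟨src_edgeAt v a h, trivial, ?_⟩
    rw [tgt_edgeAt, wordVal_cons, ← h.mul]
    exact ih _

/-- The set of values of prefixes of a word. -/
def preVals (val : X → G) (w : List (X × Bool)) : Set G := {g | ∃ p, p <+: w ∧ wordVal val p = g}

lemma preVals_finite (w : List (X × Bool)) : (preVals val w).Finite := by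
  have : preVals val w = (fun p => wordVal val p) '' {p | p <+: w} := by
    ext g; simp [preVals]
  rw [this]
  refine Set.Finite.image _ ?_
  have : {p | p <+: w} = {p | p ∈ w.inits} := by ext p; simp [List.mem_inits]
  rw [this]
  exact List.finite_toSet _

lemma isPath_lift (h : IsAct act) {U : Set Ω} {v : Ω} {w : List (X × Bool)}
    (hU : ∀ g ∈ preVals val w, act v g ∈ U) :
    (coverComplex val act R).IsPath U (lift val act v w) v (act v (wordVal val w)) := by
  induction w generalizing v with
  | nil =>
    refine ⟨by simp [h.one], ?_⟩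
    have := hU 1 ⟨[], List.nil_prefix, rfl⟩
    rwa [h.one] at this
  | cons a w ih =>
    refine ⟨src_edgeAt v a h, ?_, ?_⟩
    · have := hU 1 ⟨[], List.nil_prefix, rfl⟩
      rwa [h.one] at this
    · rw [tgt_edgeAt, wordVal_cons, ← h.mul]
      refine ih ?_
      rintro g ⟨p, hp, rfl⟩
      have := hU (wordVal val (a :: p)) ⟨a :: p, List.cons_prefix_cons.mpr ⟨rfl, hp⟩, rfl⟩
      rwa [wordVal_cons, ← h.mul] at this

lemma IsPath.eq_end (h : IsAct act) {U : Set Ω} {v x : Ω} {w : List (X × Bool)}
    (hp : (coverComplex val act R).IsPath U (lift val act v w) v x) :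
    x = act v (wordVal val w) := hp.end_unique (isPath_lift_univ h v w)

lemma IsPath.pre_mem (h : IsAct act) {U : Set Ω} {v x : Ω} {w : List (X × Bool)}
    (hp : (coverComplex val act R).IsPath U (lift val act v w) v x) :
    ∀ g ∈ preVals val w, act v g ∈ U := by
  rintro g ⟨p, ⟨q, rfl⟩, rfl⟩
  rw [lift_append h] at hp
  obtain ⟨y, h1, h2⟩ := isPath_append.mp hp
  have := IsPath.eq_end h h1
  rw [← this]
  exact h1.end_mem

lemma exists_word (h : IsAct act) {U : Set Ω} {u v : Ω} {l : List ((Ω × X) × Bool)}
    (hp : (coverComplex val act R).IsPath U l u v) :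
    ∃ w, l = lift val act u w ∧ v = act u (wordVal val w) := by
  induction l generalizing u with
  | nil => exact ⟨[], rfl, by rw [wordVal_nil, h.one]; exact hp.1.symm⟩
  | cons a l ih =>
    obtain ⟨rfl, h2, h3⟩ := hp
    obtain ⟨b, hb⟩ := exists_edgeAt (val := val) (act := act) (R := R) a h
    have ht : (coverComplex val act R).tgt a =
        act ((coverComplex val act R).src a) (letterVal val b) := by
      conv_lhs => rw [hb]
      rw [tgt_edgeAt]
    obtain ⟨w, h4, h5⟩ := ih h3
    refine ⟨b :: w, ?_, ?_⟩
    · rw [lift_cons, ← hb, ← ht, ← h4]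
    · rw [h5, wordVal_cons, ← h.mul, ht]

/-! ### Strict morphisms -/

section Morphism

variable {G₂ : Type*} [Group G₂] {X₂ : Type} {val₂ : X₂ → G₂} {Ω₂ : Type u}
  {act₂ : Ω₂ → G₂ → Ω₂} {R₂ : Set (List (X₂ × Bool))}

/-- apply a map of alphabets to a word -/
def mapWord (φ : X → X₂) (w : List (X × Bool)) : List (X₂ × Bool) :=
  w.map fun a => (φ a.1, a.2)

/-- the induced map on edges -/
def strictEdge (f : Ω → Ω₂) (φ : X → X₂) (e : Ω × X) : List ((Ω₂ × X₂) × Bool) :=
  [((f e.1, φ e.2), true)]

lemma ext_strictEdge (h : IsAct act) (h₂ : IsAct act₂) (f : Ω → Ω₂) (φ : X → X₂)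
    (hf : ∀ v x, f (act v (val x)) = act₂ (f v) (val₂ (φ x))) (v : Ω) (a : X × Bool) :
    TwoComplex.ext (Y := coverComplex val act R) (Z := coverComplex val₂ act₂ R₂)
      (strictEdge f φ) (edgeAt val act v a) = [edgeAt val₂ act₂ (f v) (φ a.1, a.2)] := by
  rcases a with ⟨x, _ | _⟩
  · have : f (act v (val x)⁻¹) = act₂ (f v) (val₂ (φ x))⁻¹ := by
      have h3 := hf (act v (val x)⁻¹) x
      rw [h.inv_mul] at h3
      rw [h3, h₂.mul_inv]
    simp only [TwoComplex.ext, edgeAt, strictEdge, Bool.false_eq_true, if_false, this]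
    rfl
  · simp [TwoComplex.ext, edgeAt, strictEdge]

lemma strict_letter (h : IsAct act) (h₂ : IsAct act₂) (f : Ω → Ω₂) (φ : X → X₂)
    (hf : ∀ v x, f (act v (val x)) = act₂ (f v) (val₂ (φ x))) (v : Ω) (a : X × Bool) :
    f (act v (letterVal val a)) = act₂ (f v) (letterVal val₂ (φ a.1, a.2)) := by
  rcases a with ⟨x, _ | _⟩
  · have h3 := hf (act v (val x)⁻¹) x
    rw [h.inv_mul] at h3
    simp only [letterVal, cond_false]
    rw [h3, h₂.mul_inv]
  · simpa [letterVal] using hf v x

lemma mapPath_strict (h : IsAct act) (h₂ : IsAct act₂) (f : Ω → Ω₂) (φ : X → X₂)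
    (hf : ∀ v x, f (act v (val x)) = act₂ (f v) (val₂ (φ x))) (v : Ω) (w : List (X × Bool)) :
    TwoComplex.mapPath (Y := coverComplex val act R) (Z := coverComplex val₂ act₂ R₂)
      (strictEdge f φ) (lift val act v w) = lift val₂ act₂ (f v) (mapWord φ w) := by
  induction w generalizing v with
  | nil => rfl
  | cons a w ih =>
    rw [lift_cons, mapPath_cons, ext_strictEdge h h₂ f φ hf, ih, strict_letter h h₂ f φ hf]
    rfl

lemma isMap_strict (h : IsAct act) (h₂ : IsAct act₂) (f : Ω → Ω₂) (φ : X → X₂)
    (hf : ∀ v x, f (act v (val x)) = act₂ (f v) (val₂ (φ x)))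
    (hR : ∀ r ∈ R, mapWord φ r ∈ R₂) (W : Set Ω₂) (U : Set Ω) (hU : ∀ v ∈ U, f v ∈ W) :
    TwoComplex.IsMap (Y := coverComplex val act R) (Z := coverComplex val₂ act₂ R₂) U W f
      (strictEdge f φ) := by
  have edge : ∀ e, (coverComplex val act R).ini e ∈ U → (coverComplex val act R).ter e ∈ U →
      (coverComplex val₂ act₂ R₂).IsPath W (strictEdge f φ e)
        (f ((coverComplex val act R).ini e)) (f ((coverComplex val act R).ter e)) := by
    rintro ⟨v, x⟩ h1 h2
    refine isPath_single.mpr ⟨rfl, (hf v x).symm, hU _ h1, hU _ h2⟩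
  refine ⟨hU, edge, ?_⟩
  rintro ⟨v, r⟩ u hu
  have h1 := isPath_mapPath (Z := coverComplex val₂ act₂ R₂) hU edge hu
  have h2 : TwoComplex.mapPath (Y := coverComplex val act R) (Z := coverComplex val₂ act₂ R₂)
      (strictEdge f φ) ((coverComplex val act R).bd (v, r)) =
      (coverComplex val₂ act₂ R₂).bd (f v, ⟨mapWord φ r, hR r r.2⟩) :=
    mapPath_strict h h₂ f φ hf v r
  rw [h2] at h1 ⊢
  refine .step h1 ⟨rfl, h1.start_mem⟩ ?_
  have := Step.face (Y := coverComplex val₂ act₂ R₂) [] (f v, ⟨mapWord φ r, hR r r.2⟩) []
  simpa using this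

end Morphism

/-! ### Completeness -/

/-- The data (generators `val`, relators `R`) presents `G`. -/
structure Presents (val : X → G) (R : Set (List (X × Bool))) : Prop where
  surj : Function.Surjective (FreeGroup.lift val)
  ker : (FreeGroup.lift val).ker = Subgroup.normalClosure (FreeGroup.mk '' R)

lemma lift_mk_eq (w : List (X × Bool)) : FreeGroup.lift val (FreeGroup.mk w) = wordVal val w := by
  rw [FreeGroup.lift_mk]
  rfl

lemma Presents.exists_wordVal (hP : Presents val R) (g : G) : ∃ w, wordVal val w = g := by
  classical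
  obtain ⟨x, rfl⟩ := hP.surj g
  refine ⟨x.toWord, ?_⟩
  rw [← lift_mk_eq, FreeGroup.mk_toWord]

lemma htpy_redStep (h : IsAct act) (v : Ω) {w w' : List (X × Bool)}
    (hw : FreeGroup.Red.Step w w') :
    Htpy (Y := coverComplex val act R) Set.univ v (act v (wordVal val w))
      (lift val act v w) (lift val act v w') := by
  cases hw with
  | @not L₁ L₂ x b =>
    have e1 : lift val act v (L₁ ++ (x, b) :: (x, !b) :: L₂) =
        lift val act v L₁ ++ [edgeAt val act (act v (wordVal val L₁)) (x, b),
          (coverComplex val act R).flip (edgeAt val act (act v (wordVal val L₁)) (x, b))] ++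
          lift val act (act v (wordVal val L₁)) L₂ := by
      rw [lift_append h, lift_cons, lift_cons, flip_edgeAt _ _ h]
      have : act (act (act v (wordVal val L₁)) (letterVal val (x, b))) (letterVal val (x, !b)) =
          act v (wordVal val L₁) := by
        have := letterVal_flip (val := val) (x, b)
        simp only [flipLetter] at this
        rw [this, h.mul_inv]
      rw [this]
      simp [flipLetter]
    have e2 : lift val act v (L₁ ++ L₂) =
        lift val act v L₁ ++ lift val act (act v (wordVal val L₁)) L₂ := lift_append h _ _ _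
    refine .step (isPath_lift_univ h v _) ?_ ?_
    · have h3 : wordVal val (L₁ ++ (x, b) :: (x, !b) :: L₂) = wordVal val (L₁ ++ L₂) := by
        have := letterVal_flip (val := val) (x, b)
        simp only [flipLetter] at this
        simp [this]
      rw [h3]
      exact isPath_lift_univ h v _
    · rw [e1, e2]
      exact Step.cancel _ _ _

lemma wordVal_red {w w' : List (X × Bool)} (hw : FreeGroup.Red w w') :
    wordVal val w = wordVal val w' := by
  rw [← lift_mk_eq, ← lift_mk_eq, FreeGroup.Red.exact.mpr ⟨w', hw, .refl⟩]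

lemma htpy_red (h : IsAct act) (v : Ω) {w w' : List (X × Bool)} (hw : FreeGroup.Red w w') :
    Htpy (Y := coverComplex val act R) Set.univ v (act v (wordVal val w))
      (lift val act v w) (lift val act v w') := by
  induction hw with
  | refl => exact .refl (isPath_lift_univ h v _)
  | @tail a b h1 h2 ih =>
    refine ih.trans ?_
    rw [wordVal_red h1]
    exact htpy_redStep h v h2

lemma htpy_mk (h : IsAct act) (v : Ω) {w w' : List (X × Bool)}
    (hw : FreeGroup.mk w = FreeGroup.mk w') :
    Htpy (Y := coverComplex val act R) Set.univ v (act v (wordVal val w))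
      (lift val act v w) (lift val act v w') := by
  obtain ⟨c, h1, h2⟩ := FreeGroup.Red.exact.mp hw
  refine (htpy_red h v h1).trans ?_
  have := (htpy_red (val := val) (R := R) h v h2).symm
  rwa [wordVal_red h2, ← wordVal_red h1] at this

lemma null_univ (hP : Presents val R) (h : IsAct act) (v : Ω) {w : List (X × Bool)}
    (hw : wordVal val w = 1) :
    Htpy (Y := coverComplex val act R) Set.univ v v (lift val act v w) [] := by
  classical
  let N : Subgroup (FreeGroup X) :=
    { carrier := {g | FreeGroup.lift val g = 1 ∧ ∀ w, FreeGroup.mk w = g → ∀ v : Ω,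
        Htpy (Y := coverComplex val act R) Set.univ v v (lift val act v w) []}
      mul_mem' := by
        rintro a b ⟨ha1, ha2⟩ ⟨hb1, hb2⟩
        refine ⟨by rw [map_mul, ha1, hb1, one_mul], ?_⟩
        intro w hw v
        have hwa : wordVal val a.toWord = 1 := by rw [← lift_mk_eq, FreeGroup.mk_toWord, ha1]
        have h1 : FreeGroup.mk w = FreeGroup.mk (a.toWord ++ b.toWord) := by
          rw [hw, ← FreeGroup.mul_mk, FreeGroup.mk_toWord, FreeGroup.mk_toWord]
        have hw1 : wordVal val w = 1 := by rw [← lift_mk_eq, hw, map_mul, ha1, hb1, one_mul]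
        have h2 := htpy_mk (val := val) (R := R) h v h1
        rw [hw1, h.one, lift_append h, hwa, h.one] at h2
        have h3 := (ha2 a.toWord FreeGroup.mk_toWord v).append (hb2 b.toWord FreeGroup.mk_toWord v)
        exact h2.trans h3
      one_mem' := by
        refine ⟨map_one _, ?_⟩
        intro w hw v
        have h1 : FreeGroup.mk w = FreeGroup.mk [] := by rw [hw]; rfl
        have hw1 : wordVal val w = 1 := by rw [← lift_mk_eq, hw, map_one]
        have h2 := htpy_mk (val := val) (R := R) h v h1
        rwa [hw1, h.one] at h2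
      inv_mem' := by
        rintro a ⟨ha1, ha2⟩
        refine ⟨by rw [map_inv, ha1, inv_one], ?_⟩
        intro w hw v
        have hw1 : wordVal val w = 1 := by rw [← lift_mk_eq, hw, map_inv, ha1, inv_one]
        have h1 : FreeGroup.mk (invWord w) = a := by
          have : FreeGroup.mk (invWord w) = (FreeGroup.mk w)⁻¹ := by
            rw [FreeGroup.inv_mk]
            rfl
          rw [this, hw, inv_inv]
        have h2 := (ha2 _ h1 v).rev
        rw [rev_lift h, wordVal_inv, hw1, inv_one, h.one] at h2
        rwa [invWord_invWord, rev_nil] at h2 }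
  have hN : N.Normal := by
    constructor
    rintro a ⟨ha1, ha2⟩ g
    refine ⟨by rw [map_mul, map_mul, ha1, mul_one, map_inv, mul_inv_cancel], ?_⟩
    intro w hw v
    have hwa : wordVal val a.toWord = 1 := by rw [← lift_mk_eq, FreeGroup.mk_toWord, ha1]
    have hw1 : wordVal val w = 1 := by
      rw [← lift_mk_eq, hw, map_mul, map_mul, ha1, mul_one, map_inv, mul_inv_cancel]
    have h1 : FreeGroup.mk w = FreeGroup.mk (g.toWord ++ (a.toWord ++ invWord g.toWord)) := by
      rw [hw, ← FreeGroup.mul_mk, ← FreeGroup.mul_mk, FreeGroup.mk_toWord, FreeGroup.mk_toWord]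
      have : FreeGroup.mk (invWord g.toWord) = (FreeGroup.mk g.toWord)⁻¹ := by
        rw [FreeGroup.inv_mk]
        rfl
      rw [this, FreeGroup.mk_toWord, mul_assoc]
    have h2 := htpy_mk (val := val) (R := R) h v h1
    rw [hw1, h.one, lift_append h, lift_append h, hwa, h.one] at h2
    have h3 := ha2 a.toWord FreeGroup.mk_toWord (act v (wordVal val g.toWord))
    have hg := isPath_lift_univ (val := val) (R := R) h v g.toWord
    have h4 := (Htpy.append_left hg h3).append_right hg.rev
    have h5 := Htpy.self_rev hg
    rw [rev_lift h] at h4 h5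
    simp only [List.append_nil, List.append_assoc] at h4
    exact h2.trans (h4.trans h5)
  have hle : Subgroup.normalClosure (FreeGroup.mk '' R) ≤ N := by
    refine Subgroup.normalClosure_le_normal ?_
    rintro _ ⟨r, hr, rfl⟩
    have hr1 : FreeGroup.lift val (FreeGroup.mk r) = 1 := by
      rw [← MonoidHom.mem_ker, hP.ker]
      exact Subgroup.subset_normalClosure ⟨r, hr, rfl⟩
    refine ⟨hr1, ?_⟩
    intro w hw v
    have hr2 : wordVal val r = 1 := by rw [← lift_mk_eq, hr1]
    have hw1 : wordVal val w = 1 := by rw [← lift_mk_eq, hw, hr1]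
    have h2 := htpy_mk (val := val) (R := R) h v hw
    rw [hw1, h.one] at h2
    refine h2.trans ?_
    refine .step h2.right ⟨rfl, trivial⟩ ?_
    have := Step.face (Y := coverComplex val act R) [] (v, ⟨r, hr⟩) []
    simpa using this
  have hmem : FreeGroup.mk w ∈ (FreeGroup.lift val).ker := by
    rw [MonoidHom.mem_ker, lift_mk_eq, hw]
  rw [hP.ker] at hmem
  exact (hle hmem).2 w rfl v

/-- A word with trivial value is null-homotopic within a bounded neighbourhood. -/
lemma exists_null {G : Type u} [Group G] {val : X → G} (hP : Presents val R)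
    {w : List (X × Bool)} (hw : wordVal val w = 1) :
    ∃ P : Set G, P.Finite ∧ ∀ (Ω : Type u) (act : Ω → G → Ω), IsAct act → ∀ (U : Set Ω) (v : Ω),
      (∀ g ∈ P, act v g ∈ U) →
      Htpy (Y := coverComplex val act R) U v v (lift val act v w) [] := by
  have hG : IsAct (fun (a b : G) => a * b) := ⟨fun v => mul_one v, fun v g h => mul_assoc v g h⟩
  obtain ⟨P, hP1, -, hP2⟩ := (null_univ (val := val) hP hG (1 : G) hw).exists_finite
  refine ⟨P, hP1, ?_⟩
  intro Ω act hact U v hU
  have hf : ∀ (g : G) (x : X), act v (g * val x) = act (act v g) (val x) := fun g x => by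
    rw [hact.mul]
  have hm := isMap_strict (R := R) (R₂ := R) hG hact (fun g => act v g) (id : X → X) hf
    (fun r hr => by simpa [mapWord] using hr) U P hU
  have h1 := hm.htpy hP2
  rw [mapPath_strict (R := R) (R₂ := R) hG hact (fun g => act v g) (id : X → X) hf] at h1
  rw [mapPath_nil] at h1
  simpa [mapWord, hact.one] using h1

/-- Words with the same value are homotopic within a bounded neighbourhood. -/
lemma exists_htpy_of_eq {G : Type u} [Group G] {val : X → G} (hP : Presents val R)
    {w w' : List (X × Bool)} (hw : wordVal val w = wordVal val w') :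
    ∃ P : Set G, P.Finite ∧ ∀ (Ω : Type u) (act : Ω → G → Ω), IsAct act → ∀ (U : Set Ω) (v : Ω),
      (∀ g ∈ P, act v g ∈ U) →
      Htpy (Y := coverComplex val act R) U v (act v (wordVal val w))
        (lift val act v w) (lift val act v w') := by
  have h1 : wordVal val (w ++ invWord w') = 1 := by simp [hw]
  obtain ⟨P, hP1, hP2⟩ := exists_null hP h1
  refine ⟨P ∪ preVals val w ∪ preVals val w', (hP1.union (preVals_finite w)).union
    (preVals_finite w'), ?_⟩
  intro Ω act hact U v hU
  have h2 := hP2 Ω act hact U v (fun g hg => hU g (Or.inl (Or.inl hg)))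
  have h3 := isPath_lift (val := val) (R := R) hact (fun g hg => hU g (Or.inl (Or.inr hg)))
  have h4 := isPath_lift (val := val) (R := R) hact (fun g hg => hU g (Or.inr hg))
  rw [lift_append hact] at h2
  have h5 : lift val act (act v (wordVal val w)) (invWord w') =
      rev (Y := coverComplex val act R) (lift val act v w') := by
    rw [rev_lift hact, hw]
  rw [h5] at h2
  have h6 : (coverComplex val act R).IsPath U (lift val act v w') v (act v (wordVal val w)) := by
    rw [hw]; exact h4
  refine Htpy.cancel_right h6.rev h3 h6 ?_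
  exact h2.trans (Htpy.self_rev h6).symm

end

end Pool.Agent.Helper28.Tame
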