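import Pool.Agent.Helper28.Tame.Group

set_option autoImplicit false

namespace Pool.Agent.Helper28.Tame

universe u

variable {G : Type u} [Group G]

/-- `S` is tame in `G` (with respect to the presentation `P`): for every finite subcomplex `C` of
`Cayley₂(G, S)`, every component of the complement of `C` has finitely generated fundamental group.
The complement of `C` is represented by the full subcomplex of the barycentric subdivision spanned
by the barycentres of the cells not in `C`, onto which it deformation retracts. -/
def TameIn (P : FinPres G) (S : Subgroup G) : Prop :=
  ∀ C : Set ((Cayley2 P S).V ⊕ (Cayley2 P S).E ⊕ (Cayley2 P S).F), C.Finite →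
    (Cayley2 P S).IsSubcomplex C →
    ∀ c : (Cᶜ : Set (Cayley2 P S).sd.V), Group.FG ((Cayley2 P S).sd.Pi1 Cᶜ c)

variable (G) in
/-- `G` is finitely presented and locally tame: for every finite presentation, every finitely
generated subgroup is tame. -/
def IsLocallyTame : Prop :=
  Nonempty (FinPres G) ∧ ∀ (P : FinPres G) (S : Subgroup G), S.FG → TameIn P S

end Pool.Agent.Helper28.Tame
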