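import Pool.Agent.Helper28.Tame.Main

set_option autoImplicit false

namespace Pool.Agent.Helper28.Tame

open TwoComplex

universe u

variable {H G : Type u} [Group H] [Group G]

/-- Transport of a finite presentation along an isomorphism. -/
def FinPres.transport (e : H ≃* G) (P : FinPres H) : FinPres G where
  X := P.X
  finX := P.finX
  val := fun x => e (P.val x)
  R := P.R
  finR := P.finR
  ne := P.ne
  surj := by
    have h1 : FreeGroup.lift (fun x => e (P.val x)) = e.toMonoidHom.comp (FreeGroup.lift P.val) := by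
      refine FreeGroup.ext_hom _ _ fun x => by simp
    intro g
    obtain ⟨x, hx⟩ := P.surj (e.symm g)
    refine ⟨x, ?_⟩
    rw [h1]
    show e (FreeGroup.lift P.val x) = g
    rw [hx, MulEquiv.apply_symm_apply]
  ker := by
    have h1 : FreeGroup.lift (fun x => e (P.val x)) = e.toMonoidHom.comp (FreeGroup.lift P.val) := by
      refine FreeGroup.ext_hom _ _ fun x => by simp
    rw [← P.ker, h1]
    ext x
    rw [MonoidHom.mem_ker, MonoidHom.mem_ker]
    show e (FreeGroup.lift P.val x) = 1 ↔ _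
    rw [map_eq_one_iff e e.injective]

lemma lift_congr {G₁ G₂ : Type*} [Group G₁] [Group G₂] {X : Type} {Ω : Type u} {val₁ : X → G₁}
    {val₂ : X → G₂} {act₁ : Ω → G₁ → Ω} {act₂ : Ω → G₂ → Ω}
    (h1 : ∀ v x, act₁ v (val₁ x) = act₂ v (val₂ x))
    (h2 : ∀ v x, act₁ v (val₁ x)⁻¹ = act₂ v (val₂ x)⁻¹) (w : List (X × Bool)) :
    ∀ v, lift val₁ act₁ v w = lift val₂ act₂ v w := by
  induction w with
  | nil => intro v; rfl
  | cons a w ih =>
    intro v
    rcases a with ⟨x, _ | _⟩
    · rw [lift_cons, lift_cons, ih]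
      simp [edgeAt, letterVal, h2]
    · rw [lift_cons, lift_cons, ih]
      simp [edgeAt, letterVal, h1]

lemma coverComplex_congr {G₁ G₂ : Type*} [Group G₁] [Group G₂] {X : Type} {Ω : Type u}
    {val₁ : X → G₁} {val₂ : X → G₂} {act₁ : Ω → G₁ → Ω} {act₂ : Ω → G₂ → Ω}
    (h1 : ∀ v x, act₁ v (val₁ x) = act₂ v (val₂ x))
    (h2 : ∀ v x, act₁ v (val₁ x)⁻¹ = act₂ v (val₂ x)⁻¹) (R : Set (List (X × Bool))) :
    coverComplex val₁ act₁ R = coverComplex val₂ act₂ R := by
  have h3 : (fun e : Ω × X => act₁ e.1 (val₁ e.2)) = fun e => act₂ e.1 (val₂ e.2) :=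
    funext fun e => h1 _ _
  have h4 : (fun f : Ω × R => lift val₁ act₁ f.1 f.2) = fun f => lift val₂ act₂ f.1 f.2 :=
    funext fun f => lift_congr h1 h2 _ _
  unfold coverComplex
  rw [h3, h4]

lemma fg_comap_equiv (e : H ≃* G) (S : Subgroup G) (hS : S.FG) :
    (S.comap e.toMonoidHom).FG := by
  classical
  have h1 : S.comap e.toMonoidHom = S.map e.symm.toMonoidHom := by
    ext x
    constructor
    · intro hx
      exact ⟨e x, hx, by simp⟩
    · rintro ⟨y, hy, rfl⟩
      show e (e.symm y) ∈ S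
      rwa [MulEquiv.apply_symm_apply]
  rw [h1]
  obtain ⟨F, rfl⟩ := hS
  refine ⟨F.image e.symm.toMonoidHom, ?_⟩
  rw [Finset.coe_image, MonoidHom.map_closure]

/-- Local tameness is invariant under isomorphism. -/
theorem IsLocallyTame.of_equiv (e : H ≃* G) (h : IsLocallyTame H) : IsLocallyTame G := by
  obtain ⟨⟨P₀⟩, hT⟩ := h
  refine ⟨⟨P₀.transport e⟩, ?_⟩
  intro P S hS
  rw [tameIn_iff]
  have := P.finX
  let P' : FinPres H := P.transport e.symm
  have hact : IsAct (fun (c : RCoset S) (h : H) => RCoset.mul S c (e h)) :=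
    ⟨fun v => by
      show RCoset.mul S v (e 1) = v
      rw [map_one, (isAct_coset S).one], fun v g h => by
      show RCoset.mul S (RCoset.mul S v (e g)) (e h) = RCoset.mul S v (e (g * h))
      rw [(isAct_coset S).mul, map_mul]⟩
  have hc : coverComplex P.val (RCoset.mul S) P.R =
      coverComplex P'.val (fun (c : RCoset S) (h : H) => RCoset.mul S c (e h)) P'.R := by
    refine coverComplex_congr ?_ ?_ P.R
    · intro v x
      show _ = RCoset.mul S v (e (e.symm (P.val x)))
      rw [MulEquiv.apply_symm_apply]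
    · intro v x
      show _ = RCoset.mul S v (e (e.symm (P.val x))⁻¹)
      rw [map_inv, MulEquiv.apply_symm_apply]
  rw [hc]
  have hfin : Finite P'.X := P'.finX
  refine AllT1.allT2 (allT1_of_orbits hact ?_)
  intro v
  obtain ⟨g, rfl⟩ := RCoset.exists_mk S v
  have hst : stab hact (RCoset.mk S g) =
      (S.comap (MulAut.conj g).toMonoidHom).comap e.toMonoidHom := by
    ext x
    show RCoset.mul S (RCoset.mk S g) (e x) = RCoset.mk S g ↔ g * (e x) * g⁻¹ ∈ S
    rw [RCoset.mul_mk, RCoset.mk_eq_iff, ← inv_mem_iff]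
    have : (g * (g * e x)⁻¹)⁻¹ = g * e x * g⁻¹ := by group
    rw [this]
  rw [hst]
  have h1 := (tameIn_iff P' _).mp (hT P' _ (fg_comap_equiv e _ (fg_comap_conj S hS g)))
  exact h1.allT1 (locFin_cover (isAct_coset _))

/-- The version for abstract extensions. -/
theorem locallyTame_of_extension (i : H →* G) (hi : Function.Injective i) [i.range.Normal]
    [IsCyclic (G ⧸ i.range)] (z : G) (hz : z ∈ Subgroup.center G)
    (hzn : ∀ n : ℕ, 0 < n → z ^ n ∉ i.range) (hH : IsLocallyTame H) : IsLocallyTame G :=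
  locallyTame_of_central i.range z hz hzn (hH.of_equiv (MonoidHom.ofInjective hi))

end Pool.Agent.Helper28.Tame
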